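import Pool.Agent.Helper3.TL.Basic

open Finset
open MP86d903 (Valid Lit inside mem_inside pt flip Clause Ineq clauseIneq vsF ngF)
open Helper80.SR (Exp Closed Cl Sm)

namespace Helper3.TL

theorem sg_not (b : Bool) : sg (!b) = -sg b := by
  cases b <;> simp [sg]

section
variable {ι V : Type} [DecidableEq ι] [Fintype ι] [DecidableEq V] [Fintype V]
  {vs ng : ι → Finset V} {q D κ : ℕ} {A : Finset V}

theorem lit_not {σ : V → Bool} {c : ι} {i : V} :
    Lit ng (fun v => !σ v) c i ↔ ¬ Lit ng σ c i := by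
  change ((!σ i) = !decide (i ∈ ng c)) ↔ ¬ (σ i = !decide (i ∈ ng c))
  generalize decide (i ∈ ng c) = d
  generalize σ i = e
  cases d <;> cases e <;> simp

theorem Bal.compl {R R' : Finset V} {σ : V → Bool} (h : Bal vs ng R R' σ) :
    Bal vs ng R R' (fun v => !σ v) := by
  intro c h1 h2
  obtain ⟨i, hi, j, hj, h3, h4⟩ := h c h1 h2
  exact ⟨j, hj, i, hi, lit_not.mpr h4, fun h5 => (lit_not.mp h5) h3⟩

theorem sum_compl' (U : Finset V) (a : V → ℤ) (s : V → Bool) :
    ∑ v ∈ U, a v * sg (!s v) = -∑ v ∈ U, a v * sg (s v) := by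
  rw [← sum_neg_distrib]
  refine sum_congr rfl (fun v _ => ?_)
  rw [sg_not]
  ring

theorem Gadget.compl {m : ℕ} {a a' : V → ℤ} {g g' : ℤ} {U : Finset V} {s : V → Bool}
    (h : Gadget vs ng q A m a a' g g' U s) :
    Gadget vs ng q A m a a' (-g) (-g') U (fun v => !s v) := by
  refine ⟨h.1, h.2.1, h.2.2.1, h.2.2.2.1.compl, ?_, ?_⟩
  · rw [sum_compl', h.2.2.2.2.1]
  · rw [sum_compl', h.2.2.2.2.2]

end

/-- Building disjoint objects one after another. -/
theorem exists_family {V : Type} [DecidableEq V] {β : Type} (Q : Finset V → β → Prop) (m n : ℕ)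
    (hcard : ∀ U b, Q U b → U.card ≤ m)
    (h : ∀ Z : Finset V, Z.card ≤ n * m → ∃ U b, Q U b ∧ Disjoint U Z) :
    ∃ (U : Fin n → Finset V) (b : Fin n → β), (∀ i j, i ≠ j → Disjoint (U i) (U j)) ∧
      ∀ i, Q (U i) (b i) := by
  have main : ∀ k ≤ n, ∃ (U : Fin k → Finset V) (b : Fin k → β),
      (∀ i j, i ≠ j → Disjoint (U i) (U j)) ∧ ∀ i, Q (U i) (b i) := by
    intro k
    induction k with
    | zero =>
      intro _
      exact ⟨fun i => i.elim0, fun i => i.elim0, fun i => i.elim0, fun i => i.elim0⟩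
    | succ k ih =>
      intro hk
      obtain ⟨U, b, h1, h2⟩ := ih (by omega)
      have hZ : (univ.biUnion U).card ≤ n * m := by
        have h3 := card_biUnion_le_card_mul univ U m (fun i _ => hcard _ _ (h2 i))
        rw [card_univ, Fintype.card_fin] at h3
        exact h3.trans (Nat.mul_le_mul_right m (by omega))
      obtain ⟨U', b', h3, h4⟩ := h _ hZ
      have h5 : ∀ i, Disjoint U' (U i) := fun i =>
        disjoint_of_subset_right (subset_biUnion_of_mem U (mem_univ i)) h4
      refine ⟨Fin.snoc U U', Fin.snoc b b', ?_, ?_⟩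
      · intro i j
        refine Fin.lastCases ?_ (fun i => ?_) i
        · refine Fin.lastCases ?_ (fun j => ?_) j
          · intro h
            exact absurd rfl h
          · intro _
            rw [Fin.snoc_last, Fin.snoc_castSucc]
            exact h5 j
        · refine Fin.lastCases ?_ (fun j => ?_) j
          · intro _
            rw [Fin.snoc_last, Fin.snoc_castSucc]
            exact (h5 i).symm
          · intro hij
            rw [Fin.snoc_castSucc, Fin.snoc_castSucc]
            exact h1 i j (fun h => hij (by rw [h]))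
      · intro i
        refine Fin.lastCases ?_ (fun i => ?_) i
        · rw [Fin.snoc_last, Fin.snoc_last]
          exact h3
        · rw [Fin.snoc_castSucc, Fin.snoc_castSucc]
          exact h2 i
  exact main n le_rfl

theorem hStart1 (hC : StClo1) (hM1 : StFam1) (hM2 : StFam2) (hA2 : StAdj2) : StStart1 := by
  intro B D m T'
  set m' := 3 + 3 * B * m with hm'
  set n' := 3 * B * T' + 1 with hn'
  set z := n' * m' with hz
  obtain ⟨T, hA2⟩ := hA2 D m 3 (3 * B) z
  refine ⟨3 * z, T, 3, ?_⟩
  intro ι V _ _ _ _ vs ng q κ A ρ a g Bad hE hκ ha hg0 hg3 hBad hN hP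
  classical
  obtain ⟨t1, t2, t3, t4, t5, t6⟩ := hM1 ι V vs ng q D κ A hE
  obtain ⟨c1, c2⟩ := hM2 ι V vs q D κ A hE
  have hAc : Closed vs q A := hE.closed'
  have hA0 : (A \ A).card ≤ κ := by simp
  -- one gadget avoiding `Z`
  have step : ∀ Z : Finset V, Z.card ≤ z → ∃ U : Finset V, ∃ b : (V → Bool) × ℤ,
      (1 ≤ b.2 ∧ b.2 ≤ 3 * B ∧ (g = 0 ∨ b.2 < g) ∧
        Gadget vs ng q A m' a a b.2 b.2 U b.1) ∧ Disjoint U Z := by
    intro Z hZ
    obtain ⟨i, hi, hdis⟩ : ∃ i ∈ Bad, Disjoint (Cl vs q (insert i A) \ A) Z := by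
      by_contra hno
      push Not at hno
      have hsub : Bad ⊆ Z.biUnion (fun j => Cl vs q (insert j A) \ A) := by
        intro i hi
        have h1 := hno i hi
        rw [Finset.not_disjoint_iff] at h1
        obtain ⟨j, hj1, hj2⟩ := h1
        have h2 := c1 A i j (subset_refl A) hAc hA0 (mem_sdiff.mp hj1).1 (mem_sdiff.mp hj1).2
        refine mem_biUnion.mpr ⟨j, hj2, mem_sdiff.mpr ⟨?_, (hBad i hi).1⟩⟩
        rw [h2]
        exact mem_cl_insert i A
      have h3 := (card_le_card hsub).trans (card_biUnion_le_card_mul _ _ 3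
        (fun j _ => card_class_le hC hE j hκ))
      omega
    obtain ⟨hiA, σ₁, hσ₁, hndvd⟩ := hBad i hi
    set W := Cl vs q (insert i A) \ A with hW
    have hWc : W.card ≤ 3 := card_class_le hC hE i hκ
    set x := ∑ j ∈ W, a j * sg (σ₁ j) with hx
    have hxb : |x| ≤ 3 * B := by
      have h1 : |x| ≤ B * W.card := sum_sg_le ha σ₁
      have h2 : (B : ℤ) * (W.card : ℤ) ≤ B * 3 := by
        refine mul_le_mul_of_nonneg_left ?_ (Int.natCast_nonneg B)
        exact_mod_cast hWc
      linarith
    have hAW : A ∪ W = Cl vs q (insert i A) := union_class i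
    have hGad : Gadget vs ng q A m' a a x x W σ₁ :=
      ⟨sdiff_disjoint, by omega, by rw [hAW]; exact Helper80.SR.closed_Cl q _,
        by rw [hAW]; exact hσ₁.2.2.2.2, rfl, rfl⟩
    rcases eq_or_lt_of_le hg0 with h0 | hgpos
    · -- `g = 0`
      rw [← h0, zero_dvd_iff] at hndvd
      have hb := abs_le.mp hxb
      by_cases hpos : 0 < x
      · exact ⟨W, (σ₁, x), ⟨hpos, hb.2, Or.inl h0.symm, hGad⟩, hdis⟩
      · refine ⟨W, (fun v => !σ₁ v, -x), ⟨?_, ?_, Or.inl h0.symm, hGad.compl⟩, hdis⟩
        · change 1 ≤ -x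
          omega
        · change -x ≤ 3 * (B : ℤ)
          omega
    · -- `g ≥ 1`
      have hP' : Pool vs ng q A T m a a g g := hP.resolve_left (by omega)
      have hmod1 : 0 ≤ x % g := Int.emod_nonneg x (by omega)
      have hmod2 : x % g < g := Int.emod_lt_of_pos x hgpos
      have hmod0 : x % g ≠ 0 := fun h => hndvd (Int.dvd_of_emod_eq_zero h)
      have hdm : g * (x / g) + x % g = x := Int.mul_ediv_add_emod x g
      have ht : |-(x / g)| ≤ ((3 * B : ℕ) : ℤ) := by
        rw [abs_neg]
        push_cast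
        have hb := abs_le.mp hxb
        rw [abs_le]
        constructor
        · by_contra hcon
          rw [not_le] at hcon
          have h1 : x / g + 1 ≤ -(3 * (B : ℤ)) := by omega
          have h2 : x < g * (x / g + 1) := by
            rw [mul_add, mul_one]
            omega
          have h3 : g * (x / g + 1) ≤ 1 * (x / g + 1) := by
            refine mul_le_mul_of_nonpos_right (by omega) ?_
            have := Int.natCast_nonneg B
            omega
          omega
        · by_contra hcon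
          rw [not_le] at hcon
          have h1 : 0 ≤ x / g := by
            have := Int.natCast_nonneg B
            omega
          have h2 : 1 * (x / g) ≤ g * (x / g) := mul_le_mul_of_nonneg_right (by omega) h1
          omega
      have hR₁c : (Cl vs q (insert i A) \ A).card ≤ 3 := hWc
      obtain ⟨R₂, σ₂, h1, h2, h3, -⟩ := hA2 ι V vs ng q κ A (Cl vs q (insert i A)) Z σ₁ a a g g
        (-(x / g)) T hE (subset_cl_insert i A) (Helper80.SR.closed_Cl q _) hR₁c ht hZ le_rfl hP'
      have hext := t1 _ _ _ _ _ _ _ _ hσ₁ h1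
      have hAR₂ : A ⊆ R₂ := hext.1
      have hAU : A ∪ (R₂ \ A) = R₂ := by
        rw [union_comm]
        exact sdiff_union_of_subset hAR₂
      have hsum : ∑ v ∈ R₂ \ A, a v * sg (σ₂ v) = x % g := by
        have h4 := (t5 _ _ _ _ _ a 0 hext).1
        have h5 := (t5 _ _ _ _ _ a 0 hσ₁).1
        have h6 := h3 0
        rw [h4, h5] at h6
        have h7 : -(x / g) * g = -(g * (x / g)) := by ring
        rw [h7] at h6
        have h8 : ∑ i ∈ Cl vs q (insert i A) \ A, a i * sg (σ₁ i) = x := rfl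
        rw [h8] at h6
        omega
      refine ⟨R₂ \ A, (σ₂, x % g), ⟨?_, ?_, Or.inr hmod2, sdiff_disjoint, ?_, ?_, ?_, hsum,
        hsum⟩, ?_⟩
      · change 1 ≤ x % g
        omega
      · change x % g ≤ 3 * (B : ℤ)
        omega
      · have := hext.2.2.1
        rw [hm']
        exact this
      · rw [hAU]
        exact hext.2.1
      · rw [hAU]
        exact hext.2.2.2.2
      · rw [Finset.disjoint_left]
        intro v hv
        obtain ⟨hv1, hv2⟩ := mem_sdiff.mp hv
        by_cases hvR : v ∈ Cl vs q (insert i A)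
        · exact Finset.disjoint_left.mp hdis (mem_sdiff.mpr ⟨hvR, hv2⟩)
        · exact Finset.disjoint_left.mp h2 (mem_sdiff.mpr ⟨hv1, hvR⟩)
  obtain ⟨U, b, hU, hQ⟩ := exists_family (fun (U : Finset V) (b : (V → Bool) × ℤ) =>
    1 ≤ b.2 ∧ b.2 ≤ 3 * B ∧ (g = 0 ∨ b.2 < g) ∧ Gadget vs ng q A m' a a b.2 b.2 U b.1) m' n'
    (fun U b h => h.2.2.2.2.1) step
  obtain ⟨y, hy, hlt⟩ := Finset.exists_lt_card_fiber_of_mul_lt_card_of_maps_to
    (s := (univ : Finset (Fin n'))) (t := Finset.Icc (1 : ℤ) (3 * B))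
    (f := fun i => (b i).2) (n := T') (fun i _ => Finset.mem_Icc.mpr ⟨(hQ i).1, (hQ i).2.1⟩)
    (by
      rw [Int.card_Icc, card_univ, Fintype.card_fin]
      have h3 : ((3 : ℤ) * B + 1 - 1).toNat = 3 * B := by omega
      rw [h3, hn']
      omega)
  rw [Finset.mem_Icc] at hy
  set S := univ.filter (fun i => (b i).2 = y) with hS
  have hle : T' ≤ S.card := hlt.le
  have hSne : S.Nonempty := card_pos.mp (by omega)
  obtain ⟨i₀, hi₀⟩ := hSne
  have hi₀' := (mem_filter.mp hi₀).2
  refine ⟨y, hy.1, hy.2, ?_, fun i => U (S.orderEmbOfFin rfl (Fin.castLE hle i)),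
    fun i => (b (S.orderEmbOfFin rfl (Fin.castLE hle i))).1, ?_, ?_⟩
  · rw [← hi₀']
    exact (hQ i₀).2.2.1
  · intro i j hij
    refine hU _ _ (fun h => hij ?_)
    exact Fin.castLE_injective hle ((S.orderEmbOfFin rfl).injective h)
  · intro i
    have h4 : S.orderEmbOfFin rfl (Fin.castLE hle i) ∈ S := Finset.orderEmbOfFin_mem _ _ _
    have h5 := (mem_filter.mp h4).2
    have h6 := (hQ (S.orderEmbOfFin rfl (Fin.castLE hle i))).2.2.2
    rw [h5] at h6
    exact h6

end Helper3.TL
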