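import Pool.Agent.Helper3.TL.M_CLO

/-! Small lemmas on extensions, used by several modules of the project TL. -/

open Finset
open MP86d903 (Valid Lit inside mem_inside pt flip Clause Ineq clauseIneq vsF ngF)
open Helper80.SR (Exp Closed Cl Sm)

namespace Helper3.TL

section
variable {ι V : Type} [DecidableEq ι] [Fintype ι] [DecidableEq V] [Fintype V]
  {vs ng : ι → Finset V} {q D κ : ℕ} {A : Finset V}

theorem Ext.mono {K K' : ℕ} (h : K ≤ K') {R R' : Finset V} {σ σ' : V → Bool}
    (hE : Ext vs ng q A K R σ R' σ') : Ext vs ng q A K' R σ R' σ' :=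
  ⟨hE.1, hE.2.1, hE.2.2.1.trans h, hE.2.2.2⟩

theorem Ext.rfl' {K : ℕ} {R : Finset V} {σ : V → Bool} (hR : Closed vs q R)
    (hK : (R \ A).card ≤ K) : Ext vs ng q A K R σ R σ :=
  ⟨subset_refl _, hR, hK, fun _ _ => rfl, fun _ h h' => absurd h h'⟩

theorem subset_cl_insert (i : V) (R : Finset V) : R ⊆ Cl vs q (insert i R) :=
  (subset_insert i R).trans (Helper80.SR.subset_Cl q _)

theorem mem_cl_insert (i : V) (R : Finset V) : i ∈ Cl vs q (insert i R) :=
  Helper80.SR.subset_Cl q _ (mem_insert_self _ _)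

theorem union_class (i : V) : A ∪ (Cl vs q (insert i A) \ A) = Cl vs q (insert i A) := by
  rw [union_comm]
  exact sdiff_union_of_subset (subset_cl_insert i A)

/-- Classes at `R` are small. -/
theorem card_class (hC : StClo1) (hE : Env vs q D κ A) {R : Finset V} (hAR : A ⊆ R) (i : V)
    {M : ℕ} (hM : (R \ A).card ≤ M) (hκ : 3 * (M + 1) ≤ κ) :
    (Cl vs q (insert i R) \ A).card ≤ 3 * (M + 1) := by
  have h1 := hC ι V vs q D κ A R {i} hE hAR (by rw [card_singleton]; omega)
  rw [card_singleton] at h1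
  have h2 : R ∪ {i} = insert i R := by
    ext v
    simp [or_comm]
  rw [h2] at h1
  omega

/-- `A`-classes have at most three elements. -/
theorem card_class_le (hC : StClo1) (hE : Env vs q D κ A) (i : V) (hκ : 3 ≤ κ) :
    (Cl vs q (insert i A) \ A).card ≤ 3 :=
  card_class hC hE (subset_refl A) i (M := 0) (by simp) hκ

theorem sum_sg_le {U : Finset V} {a : V → ℤ} {B : ℕ} (ha : ∀ i, |a i| ≤ B) (s : V → Bool) :
    |∑ i ∈ U, a i * sg (s i)| ≤ B * U.card := by
  refine (abs_sum_le_sum_abs _ _).trans ?_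
  have h : ∀ i ∈ U, |a i * sg (s i)| ≤ B := by
    intro i _
    have h1 := ha i
    unfold sg
    cases s i <;> simpa using h1
  have h2 := Finset.sum_le_card_nsmul U _ _ h
  rw [nsmul_eq_mul, mul_comm] at h2
  exact h2

end

end Helper3.TL
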