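import Pool.Agent.Helper80.CP.Defs

/-!
Definitions for the theorem on reused lines (MP_86d903_lc).
-/

open Finset MP86d903

namespace Helper3.TL

variable {n m : ℕ} {F : Fin m → Clause n}

/-- An inequality is wide if it has at least `ε n` nonzero coefficients. -/
def IsWide (ε : ℝ) (L : Ineq n) : Prop := ε * n ≤ {v | L.coef v ≠ 0}.ncard

/-- The coefficients of an inequality are small: up to a common positive integral factor they
are integers in `[-B, B]`. -/
def IsSmall (B : ℕ) (L : Ineq n) : Prop :=
  ∃ (g : ℕ) (a : Fin n → ℤ), 0 < g ∧ (∀ v, |a v| ≤ B) ∧ ∀ v, L.coef v = g * a v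

/-- The number of lines of which line `i` is a premise. -/
noncomputable def uses (π : Refutation F) (i : Fin π.size) : ℕ :=
  {j | (π.rule j).HasPremise i}.ncard

end Helper3.TL
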