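import Pool.Agent.Helper3.TL.Basic

open Finset
open MP86d903 (Valid Lit inside mem_inside pt flip Clause Ineq clauseIneq vsF ngF)
open Helper80.SR (Exp Closed Cl Sm)

namespace Helper3.TL

section
variable {n m : ℕ}

theorem Tree.Sub.trans' {r s t : Tree n m} (h1 : Tree.Sub r s) (h2 : Tree.Sub s t) :
    Tree.Sub r t := by
  induction h2 with
  | refl => exact h1
  | left α β s t _ ih => exact .left α β s t ih
  | right α β s t _ ih => exact .right α β s t ih
  | down c t _ ih => exact .down c t ih

theorem viol_iff (L : Ineq n) (y : Fin n → ℤ) : Viol L y ↔ lvL L y ≤ 0 := by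
  unfold Viol lvL
  omega

theorem ceil_bd {b : ℤ} {c : ℕ} (hc : 1 ≤ c) : (c : ℤ) * (⌈(b : ℚ) / c⌉ - 1) < b := by
  have h1 : ((⌈(b : ℚ) / c⌉ : ℤ) : ℚ) - 1 < (b : ℚ) / c := by
    have := Int.ceil_lt_add_one ((b : ℚ) / c)
    linarith
  rw [lt_div_iff₀ (by exact_mod_cast hc)] at h1
  have h2 : (((⌈(b : ℚ) / c⌉ - 1) * c : ℤ) : ℚ) < (b : ℚ) := by
    push_cast
    exact h1
  have h3 : (⌈(b : ℚ) / c⌉ - 1) * (c : ℤ) < b := by exact_mod_cast h2
  rw [mul_comm]
  exact h3

theorem sum_div {F : Fin m → Clause n} {c : ℕ} {s : Tree n m}
    (h : (Tree.div c s).Legal F) (y : Fin n → ℤ) :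
    ∑ v, (s.line F).coef v * y v = c * ∑ v, ((Tree.div c s).line F).coef v * y v := by
  rw [mul_sum]
  refine sum_congr rfl (fun v _ => ?_)
  have h1 : (s.line F).coef v = c * ((s.line F).coef v / c) := (Int.mul_ediv_cancel' (h.2.1 v)).symm
  change (s.line F).coef v * y v = c * ((s.line F).coef v / c * y v)
  rw [← mul_assoc, ← h1]

end

theorem hTree1 : StTree1 := by
  intro n m F t X hne hax
  induction t with
  | clause k =>
    intro hv
    obtain ⟨y, hy⟩ := hne
    exact absurd (hv y hy) ((hax y hy).1 k)
  | lower v =>
    intro hv
    obtain ⟨y, hy⟩ := hne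
    exfalso
    have h1 := hv y hy
    unfold Viol Tree.line at h1
    rw [Finset.sum_eq_single v] at h1
    · simp only [Pi.single_eq_same, one_mul, mul_zero] at h1
      have := ((hax y hy).2 v).1
      omega
    · intro i _ hi
      simp [Pi.single_eq_of_ne hi]
    · intro h
      exact absurd (mem_univ v) h
  | upper v =>
    intro hv
    obtain ⟨y, hy⟩ := hne
    exfalso
    have h1 := hv y hy
    unfold Viol Tree.line at h1
    rw [Finset.sum_eq_single v] at h1
    · simp only [Pi.single_eq_same] at h1
      have := ((hax y hy).2 v).2
      omega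
    · intro i _ hi
      simp [Pi.single_eq_of_ne hi]
    · intro h
      exact absurd (mem_univ v) h
  | comb α β s₁ s₂ ih₁ ih₂ =>
    intro hv
    have key : ∀ y ∈ X, Viol (s₁.line F) y ∨ Viol (s₂.line F) y := by
      intro y hy
      by_contra hcon
      rw [not_or] at hcon
      obtain ⟨h1, h2⟩ := hcon
      have h3 := hv y hy
      unfold Viol at h1 h2 h3
      rw [not_lt] at h1 h2
      have e3 : ∑ v, ((Tree.comb α β s₁ s₂).line F).coef v * y v =
          α * ∑ v, (s₁.line F).coef v * y v + β * ∑ v, (s₂.line F).coef v * y v := by
        rw [mul_sum, mul_sum, ← sum_add_distrib]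
        refine sum_congr rfl (fun v _ => ?_)
        change (α * (s₁.line F).coef v + β * (s₂.line F).coef v) * y v = _
        ring
      rw [e3] at h3
      change _ < 2 * (α * (s₁.line F).rhs + β * (s₂.line F).rhs) at h3
      have f1 := mul_le_mul_of_nonneg_left h1 (Int.natCast_nonneg α)
      have f2 := mul_le_mul_of_nonneg_left h2 (Int.natCast_nonneg β)
      linarith
    by_cases c1 : ∀ y ∈ X, Viol (s₁.line F) y
    · rcases ih₁ c1 with ⟨α', β', u₁, u₂, h1, h2, h3⟩ | ⟨c, s, h1, h2, h3⟩
      · exact Or.inl ⟨α', β', u₁, u₂, .left α β s₁ s₂ h1, h2, h3⟩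
      · exact Or.inr ⟨c, s, .left α β s₁ s₂ h1, h2, h3⟩
    · by_cases c2 : ∀ y ∈ X, Viol (s₂.line F) y
      · rcases ih₂ c2 with ⟨α', β', u₁, u₂, h1, h2, h3⟩ | ⟨c, s, h1, h2, h3⟩
        · exact Or.inl ⟨α', β', u₁, u₂, .right α β s₁ s₂ h1, h2, h3⟩
        · exact Or.inr ⟨c, s, .right α β s₁ s₂ h1, h2, h3⟩
      · push Not at c1 c2
        obtain ⟨y₁, hy₁, hn₁⟩ := c1
        obtain ⟨y₂, hy₂, hn₂⟩ := c2
        exact Or.inl ⟨α, β, s₁, s₂, .refl _, ⟨y₂, hy₂, (key y₂ hy₂).resolve_right hn₂⟩,
          ⟨y₁, hy₁, (key y₁ hy₁).resolve_left hn₁⟩⟩
  | div c s ih =>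
    intro hv
    by_cases c1 : ∀ y ∈ X, Viol (s.line F) y
    · rcases ih c1 with ⟨α', β', u₁, u₂, h1, h2, h3⟩ | ⟨c', s', h1, h2, h3⟩
      · exact Or.inl ⟨α', β', u₁, u₂, .down c s h1, h2, h3⟩
      · exact Or.inr ⟨c', s', .down c s h1, h2, h3⟩
    · push Not at c1
      exact Or.inr ⟨c, s, .refl _, hv, c1⟩

theorem hTree2 : StTree2 := by
  intro n m F
  refine ⟨?_, fun r s t => Tree.Sub.trans', ?_, ?_, viol_iff, ?_, ?_⟩
  · intro t y hax
    induction t with
    | clause k => exact fun hv => absurd hv (hax.1 k)
    | lower v =>
      intro h1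
      exfalso
      unfold Viol Tree.line at h1
      rw [Finset.sum_eq_single v] at h1
      · simp only [Pi.single_eq_same, one_mul, mul_zero] at h1
        have := (hax.2 v).1
        omega
      · intro i _ hi
        simp [Pi.single_eq_of_ne hi]
      · intro h
        exact absurd (mem_univ v) h
    | upper v =>
      intro h1
      exfalso
      unfold Viol Tree.line at h1
      rw [Finset.sum_eq_single v] at h1
      · simp only [Pi.single_eq_same] at h1
        have := (hax.2 v).2
        omega
      · intro i _ hi
        simp [Pi.single_eq_of_ne hi]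
      · intro h
        exact absurd (mem_univ v) h
    | comb α β s₁ s₂ ih₁ ih₂ =>
      intro hv
      by_cases c1 : Viol (s₁.line F) y
      · obtain ⟨c, s, h1, h2⟩ := ih₁ c1
        exact ⟨c, s, .left α β s₁ s₂ h1, h2⟩
      · by_cases c2 : Viol (s₂.line F) y
        · obtain ⟨c, s, h1, h2⟩ := ih₂ c2
          exact ⟨c, s, .right α β s₁ s₂ h1, h2⟩
        · exfalso
          unfold Viol at c1 c2 hv
          rw [not_lt] at c1 c2
          have e3 : ∑ v, ((Tree.comb α β s₁ s₂).line F).coef v * y v =
              α * ∑ v, (s₁.line F).coef v * y v + β * ∑ v, (s₂.line F).coef v * y v := by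
            rw [mul_sum, mul_sum, ← sum_add_distrib]
            refine sum_congr rfl (fun v _ => ?_)
            change (α * (s₁.line F).coef v + β * (s₂.line F).coef v) * y v = _
            ring
          rw [e3] at hv
          change _ < 2 * (α * (s₁.line F).rhs + β * (s₂.line F).rhs) at hv
          have f1 := mul_le_mul_of_nonneg_left c1 (Int.natCast_nonneg α)
          have f2 := mul_le_mul_of_nonneg_left c2 (Int.natCast_nonneg β)
          linarith
    | div c s ih =>
      intro hv
      by_cases c1 : ∃ s', Tree.Sub s' s ∧ Viol (s'.line F) y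
      · -- choose a violated subtree of `s`, go on there
        by_cases c2 : Viol (s.line F) y
        · obtain ⟨c', s', h1, h2⟩ := ih c2
          exact ⟨c', s', .down c s h1, h2⟩
        · obtain ⟨s', hs', hv'⟩ := c1
          -- a violated proper subtree: induction on the subtree relation
          have aux : ∀ u : Tree n m, (∃ s', Tree.Sub s' u ∧ Viol (s'.line F) y) →
              ∃ c s, Tree.Sub (.div c s) u ∧ Viol ((Tree.div c s).line F) y ∧
                ∀ s', Tree.Sub s' s → ¬ Viol (s'.line F) y := by
            intro u
            induction u with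
            | clause k =>
              rintro ⟨s', h1, h2⟩
              cases h1
              exact absurd h2 (hax.1 k)
            | lower v =>
              rintro ⟨s', h1, h2⟩
              cases h1
              exfalso
              unfold Viol Tree.line at h2
              rw [Finset.sum_eq_single v] at h2
              · simp only [Pi.single_eq_same, one_mul, mul_zero] at h2
                have := (hax.2 v).1
                omega
              · intro i _ hi
                simp [Pi.single_eq_of_ne hi]
              · intro h
                exact absurd (mem_univ v) h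
            | upper v =>
              rintro ⟨s', h1, h2⟩
              cases h1
              exfalso
              unfold Viol Tree.line at h2
              rw [Finset.sum_eq_single v] at h2
              · simp only [Pi.single_eq_same] at h2
                have := (hax.2 v).2
                omega
              · intro i _ hi
                simp [Pi.single_eq_of_ne hi]
              · intro h
                exact absurd (mem_univ v) h
            | comb α β s₁ s₂ ih₁ ih₂ =>
              rintro ⟨s', h1, h2⟩
              by_cases d1 : ∃ s', Tree.Sub s' s₁ ∧ Viol (s'.line F) y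
              · obtain ⟨c, s, h3, h4⟩ := ih₁ d1
                exact ⟨c, s, .left α β s₁ s₂ h3, h4⟩
              · by_cases d2 : ∃ s', Tree.Sub s' s₂ ∧ Viol (s'.line F) y
                · obtain ⟨c, s, h3, h4⟩ := ih₂ d2
                  exact ⟨c, s, .right α β s₁ s₂ h3, h4⟩
                · exfalso
                  push Not at d1 d2
                  cases h1 with
                  | refl =>
                    have c1 := d1 s₁ (.refl _)
                    have c2 := d2 s₂ (.refl _)
                    unfold Viol at c1 c2 h2
                    rw [not_lt] at c1 c2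
                    have e3 : ∑ v, ((Tree.comb α β s₁ s₂).line F).coef v * y v =
                        α * ∑ v, (s₁.line F).coef v * y v +
                          β * ∑ v, (s₂.line F).coef v * y v := by
                      rw [mul_sum, mul_sum, ← sum_add_distrib]
                      refine sum_congr rfl (fun v _ => ?_)
                      change (α * (s₁.line F).coef v + β * (s₂.line F).coef v) * y v = _
                      ring
                    rw [e3] at h2
                    change _ < 2 * (α * (s₁.line F).rhs + β * (s₂.line F).rhs) at h2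
                    have f1 := mul_le_mul_of_nonneg_left c1 (Int.natCast_nonneg α)
                    have f2 := mul_le_mul_of_nonneg_left c2 (Int.natCast_nonneg β)
                    linarith
                  | left _ _ _ _ h => exact d1 _ h h2
                  | right _ _ _ _ h => exact d2 _ h h2
            | div c s ih =>
              rintro ⟨s', h1, h2⟩
              by_cases d1 : ∃ s', Tree.Sub s' s ∧ Viol (s'.line F) y
              · obtain ⟨c', s'', h3, h4⟩ := ih d1
                exact ⟨c', s'', .down c s h3, h4⟩
              · push Not at d1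
                cases h1 with
                | refl => exact ⟨c, s, .refl _, h2, d1⟩
                | down _ _ h => exact absurd h2 (d1 _ h)
          obtain ⟨c', s'', h3, h4⟩ := aux s ⟨s', hs', hv'⟩
          exact ⟨c', s'', .down c s h3, h4⟩
      · push Not at c1
        exact ⟨c, s, .refl _, hv, c1⟩
  · intro s t h
    induction h with
    | refl => exact id
    | left α β s t _ ih => exact fun h => ih h.1
    | right α β s t _ ih => exact fun h => ih h.2
    | down c t _ ih => exact fun h => ih h.2.2
  · intro s t h
    induction h with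
    | refl => exact le_rfl
    | left α β s t _ ih => exact ih.trans (Nat.le_add_right _ _)
    | right α β s t _ ih => exact ih.trans (Nat.le_add_left _ _)
    | down c t _ ih => exact ih.trans (Nat.le_succ _)
  · intro c s y hleg hv hn
    have h1 := sum_div hleg y
    have h2 := ceil_bd (b := (s.line F).rhs) hleg.1
    have hc : (0 : ℤ) < c := by exact_mod_cast hleg.1
    unfold Viol at hv hn
    rw [not_lt, h1] at hn
    unfold lvL
    set S := ∑ v, ((Tree.div c s).line F).coef v * y v with hS
    have h3 : ((Tree.div c s).line F).rhs = ⌈((s.line F).rhs : ℚ) / c⌉ := rfl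
    rw [h3] at hv ⊢
    set r := ⌈((s.line F).rhs : ℚ) / c⌉ with hr
    have h4 : (c : ℤ) * (2 * r - 2) < c * S := by
      have : (c : ℤ) * (2 * r - 2) = 2 * (c * (r - 1)) := by ring
      rw [this]
      omega
    have h5 := lt_of_mul_lt_mul_left h4 hc.le
    omega
  · intro c s y hleg hv
    have h1 := sum_div hleg y
    have h2 := ceil_bd (b := (s.line F).rhs) hleg.1
    have hc : (0 : ℤ) < c := by exact_mod_cast hleg.1
    unfold Viol
    rw [h1]
    unfold lvL at hv
    set S := ∑ v, ((Tree.div c s).line F).coef v * y v with hS
    have h3 : ((Tree.div c s).line F).rhs = ⌈((s.line F).rhs : ℚ) / c⌉ := rfl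
    rw [h3] at hv
    set r := ⌈((s.line F).rhs : ℚ) / c⌉ with hr
    have h4 : (c : ℤ) * S ≤ c * (2 * r - 2) := mul_le_mul_of_nonneg_left (by omega) hc.le
    have : (c : ℤ) * (2 * r - 2) = 2 * (c * (r - 1)) := by ring
    omega

end Helper3.TL
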