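import Pool.Agent.Helper3.TL.M_START3
import Pool.Agent.Helper3.TL.M_TREE
import Pool.Agent.Helper3.TL.DagDefs

/-!
The local theorem for general (dag-like) refutations.
-/

open Finset
open MP86d903 (Valid Lit inside mem_inside pt flip Clause Ineq clauseIneq vsF ngF Refutation Rule)
open Helper80.SR (Exp Closed Cl Sm)

namespace Helper3.TL.Dag

variable {n m : ℕ} {F : Fin m → Clause n}

/-- Line `j` is a premise of line `i`. -/
def Prem (π : Refutation F) (j i : Fin π.size) : Prop := (π.rule i).HasPremise j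

theorem prem_lt {π : Refutation F} {j i : Fin π.size} (h : Prem π j i) : j < i := by
  have h5 := π.justified i
  unfold Prem at h
  rcases hr : π.rule i with c | v | v | ⟨j', l', α, β⟩ | ⟨j', c⟩
  · rw [hr] at h
    exact h.elim
  · rw [hr] at h
    exact h.elim
  · rw [hr] at h
    exact h.elim
  · rw [hr] at h h5
    rcases h with rfl | rfl
    · exact h5.1
    · exact h5.2.1
  · rw [hr] at h h5
    rw [show j = j' from h]
    exact h5.1

/-- Line `x` is reached from line `i`: going up, all lines after `i` are outside `S`. -/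
inductive Reach (π : Refutation F) (S : Set (Fin π.size)) (i : Fin π.size) : Fin π.size → Prop
  | refl : Reach π S i i
  | step {y x : Fin π.size} : Reach π S i y → Prem π x y → x ∉ S → Reach π S i x

variable {π : Refutation F} {S : Set (Fin π.size)}

theorem Reach.le {i x : Fin π.size} (h : Reach π S i x) : x ≤ i := by
  induction h with
  | refl => exact le_rfl
  | step _ h1 _ ih => exact (prem_lt h1).le.trans ih

theorem Reach.trans {i j x : Fin π.size} (h1 : Reach π S i j) (h2 : Reach π S j x) :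
    Reach π S i x := by
  induction h2 with
  | refl => exact h1
  | step _ h3 h4 ih => exact .step ih h3 h4

/-- The lines reached from two different premises of a line are different if the lines outside
`S` are used only once. -/
theorem reach_disjoint (huniq : ∀ x, x ∉ S → ∀ y y', Prem π x y → Prem π x y' → y = y')
    {c j k : Fin π.size} (hj : Prem π j c) (hk : Prem π k c) (hjk : j ≠ k) (hjS : j ∉ S)
    (hkS : k ∉ S) : ∀ x, Reach π S j x → ¬ Reach π S k x := by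
  intro x hx
  induction hx with
  | refl =>
    intro h
    cases h with
    | refl => exact hjk rfl
    | step h1 h2 _ =>
      have := huniq j hjS _ _ h2 hj
      subst this
      exact absurd h1.le (not_le.mpr (prem_lt hk))
  | step h1 h2 h3 ih =>
    intro h
    cases h with
    | refl =>
      have := huniq k hkS _ _ h2 hk
      subst this
      exact absurd h1.le (not_le.mpr (prem_lt hj))
    | step h4 h5 _ =>
      have := huniq _ h3 _ _ h2 h5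
      subst this
      exact ih h4

/-- A combination violated at a point has a violated premise. -/
theorem viol_comb {i j k : Fin π.size} {α β : ℕ} (hr : π.rule i = .comb j k α β)
    {y : Fin n → ℤ} (hv : Viol (π.line i) y) : Viol (π.line j) y ∨ Viol (π.line k) y := by
  have hjust := π.justified i
  rw [hr] at hjust
  obtain ⟨-, -, h1⟩ : j < i ∧ k < i ∧ π.line i = ⟨fun v =>
    α * (π.line j).coef v + β * (π.line k).coef v,
    α * (π.line j).rhs + β * (π.line k).rhs⟩ := hjust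
  by_contra hcon
  rw [not_or] at hcon
  obtain ⟨h2, h3⟩ := hcon
  unfold Viol at h2 h3 hv
  rw [not_lt] at h2 h3
  rw [h1] at hv
  have e3 : ∑ v, (α * (π.line j).coef v + β * (π.line k).coef v) * y v =
      α * ∑ v, (π.line j).coef v * y v + β * ∑ v, (π.line k).coef v * y v := by
    rw [mul_sum, mul_sum, ← sum_add_distrib]
    refine sum_congr rfl (fun v _ => ?_)
    ring
  simp only at hv
  rw [e3] at hv
  have f1 := mul_le_mul_of_nonneg_left h2 (Int.natCast_nonneg α)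
  have f2 := mul_le_mul_of_nonneg_left h3 (Int.natCast_nonneg β)
  linarith

theorem not_viol_axiom {i : Fin π.size} {y : Fin n → ℤ} (hax : AxOK F y)
    (hr : (∃ k, π.rule i = .clause k) ∨ (∃ v, π.rule i = .lower v) ∨ ∃ v, π.rule i = .upper v) :
    ¬ Viol (π.line i) y := by
  intro h1
  have hjust := π.justified i
  rcases hr with ⟨k, hr⟩ | ⟨v, hr⟩ | ⟨v, hr⟩
  · rw [hr] at hjust
    have h2 : π.line i = clauseIneq (F k) := hjust
    rw [h2] at h1
    exact hax.1 k h1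
  · rw [hr] at hjust
    have h2 : π.line i = ⟨Pi.single v 1, 0⟩ := hjust
    rw [h2] at h1
    unfold Viol at h1
    rw [Finset.sum_eq_single v] at h1
    · simp only [Pi.single_eq_same, one_mul, mul_zero] at h1
      have := (hax.2 v).1
      omega
    · intro i _ hi
      simp [Pi.single_eq_of_ne hi]
    · intro h
      exact absurd (mem_univ v) h
  · rw [hr] at hjust
    have h2 : π.line i = ⟨Pi.single v (-1), -1⟩ := hjust
    rw [h2] at h1
    unfold Viol at h1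
    rw [Finset.sum_eq_single v] at h1
    · simp only [Pi.single_eq_same] at h1
      have := (hax.2 v).2
      omega
    · intro i _ hi
      simp [Pi.single_eq_of_ne hi]
    · intro h
      exact absurd (mem_univ v) h

/-- The values at a division. -/
theorem div_values {d p : Fin π.size} {c : ℕ} (hr : π.rule d = .div p c) (y : Fin n → ℤ) :
    (Viol (π.line d) y → ¬ Viol (π.line p) y → lvL (π.line d) y = 0) ∧
      (lvL (π.line d) y ≤ -1 → Viol (π.line p) y) := by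
  have hjust := π.justified d
  rw [hr] at hjust
  obtain ⟨-, hc, hcoef, hrhs⟩ : p < d ∧ 1 ≤ c ∧
    (∀ v, (π.line p).coef v = c * (π.line d).coef v) ∧
    (π.line d).rhs = ⌈((π.line p).rhs : ℚ) / c⌉ := hjust
  have h1 : ∑ v, (π.line p).coef v * y v = c * ∑ v, (π.line d).coef v * y v := by
    rw [mul_sum]
    refine sum_congr rfl (fun v _ => ?_)
    rw [hcoef v]
    ring
  have h2 := ceil_bd (b := (π.line p).rhs) hc
  have hc0 : (0 : ℤ) < c := by exact_mod_cast hc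
  rw [← hrhs] at h2
  set s := ∑ v, (π.line d).coef v * y v with hs
  set r := (π.line d).rhs with hrr
  constructor
  · intro hv hn
    unfold Viol at hv hn
    rw [not_lt, h1] at hn
    unfold lvL
    have h4 : (c : ℤ) * (2 * r - 2) < c * s := by
      have : (c : ℤ) * (2 * r - 2) = 2 * (c * (r - 1)) := by ring
      rw [this]
      omega
    have h5 := lt_of_mul_lt_mul_left h4 hc0.le
    omega
  · intro hv
    unfold Viol
    rw [h1]
    unfold lvL at hv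
    have h4 : (c : ℤ) * s ≤ c * (2 * r - 2) := mul_le_mul_of_nonneg_left (by omega) hc0.le
    have : (c : ℤ) * (2 * r - 2) = 2 * (c * (r - 1)) := by ring
    omega

/-- Event or branching. -/
theorem dag1 {i : Fin π.size} {X : Set (Fin n → ℤ)} (hne : X.Nonempty) (hax : ∀ y ∈ X, AxOK F y)
    (hstop : ∀ y x, Reach π S i y → Prem π x y → x ∈ S → ∀ z ∈ X, ¬ Viol (π.line x) z) :
    ∀ x, Reach π S i x → (∀ z ∈ X, Viol (π.line x) z) →
    (∃ y j k α β, Reach π S x y ∧ π.rule y = .comb j k α β ∧ j ≠ k ∧ j ∉ S ∧ k ∉ S ∧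
      (∃ z ∈ X, Viol (π.line j) z) ∧ ∃ z ∈ X, Viol (π.line k) z) ∨
    ∃ d p c, Reach π S x d ∧ π.rule d = .div p c ∧ (∀ z ∈ X, Viol (π.line d) z) ∧
      ∃ z ∈ X, ¬ Viol (π.line p) z := by
  intro x
  induction x using WellFoundedLT.induction with
  | _ x ih =>
  intro hx hv
  obtain ⟨z₀, hz₀⟩ := hne
  have hup : ∀ j, Prem π j x → (∀ z ∈ X, Viol (π.line j) z) →
      (∃ y j k α β, Reach π S x y ∧ π.rule y = .comb j k α β ∧ j ≠ k ∧ j ∉ S ∧ k ∉ S ∧
      (∃ z ∈ X, Viol (π.line j) z) ∧ ∃ z ∈ X, Viol (π.line k) z) ∨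
      ∃ d p c, Reach π S x d ∧ π.rule d = .div p c ∧ (∀ z ∈ X, Viol (π.line d) z) ∧
      ∃ z ∈ X, ¬ Viol (π.line p) z := by
    intro j hj hvj
    have hjS : j ∉ S := fun h => hstop x j hx hj h z₀ hz₀ (hvj z₀ hz₀)
    rcases ih j (prem_lt hj) (.step hx hj hjS) hvj with ⟨y, j', k', α, β, h1, h2⟩ |
      ⟨d, p, c, h1, h2⟩
    · exact Or.inl ⟨y, j', k', α, β, (Reach.step .refl hj hjS).trans h1, h2⟩
    · exact Or.inr ⟨d, p, c, (Reach.step .refl hj hjS).trans h1, h2⟩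
  rcases hr : π.rule x with c | v | v | ⟨j, k, α, β⟩ | ⟨j, c⟩
  · exact absurd (hv z₀ hz₀) (not_viol_axiom (hax z₀ hz₀) (Or.inl ⟨c, hr⟩))
  · exact absurd (hv z₀ hz₀) (not_viol_axiom (hax z₀ hz₀) (Or.inr (Or.inl ⟨v, hr⟩)))
  · exact absurd (hv z₀ hz₀) (not_viol_axiom (hax z₀ hz₀) (Or.inr (Or.inr ⟨v, hr⟩)))
  · have hpj : Prem π j x := by
      unfold Prem
      rw [hr]
      exact Or.inl rfl
    have hpk : Prem π k x := by
      unfold Prem
      rw [hr]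
      exact Or.inr rfl
    by_cases c1 : ∀ z ∈ X, Viol (π.line j) z
    · exact hup j hpj c1
    · by_cases c2 : ∀ z ∈ X, Viol (π.line k) z
      · exact hup k hpk c2
      · push Not at c1 c2
        obtain ⟨z₁, hz₁, hn₁⟩ := c1
        obtain ⟨z₂, hz₂, hn₂⟩ := c2
        have hv1 : Viol (π.line k) z₁ := (viol_comb hr (hv z₁ hz₁)).resolve_left hn₁
        have hv2 : Viol (π.line j) z₂ := (viol_comb hr (hv z₂ hz₂)).resolve_right hn₂
        refine Or.inl ⟨x, j, k, α, β, .refl, hr, ?_, ?_, ?_, ⟨z₂, hz₂, hv2⟩, z₁, hz₁, hv1⟩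
        · intro h
          rw [h] at hn₁
          exact hn₁ hv1
        · exact fun h => hstop x j hx hpj h z₂ hz₂ hv2
        · exact fun h => hstop x k hx hpk h z₁ hz₁ hv1
  · have hpj : Prem π j x := by
      unfold Prem
      rw [hr]
      rfl
    by_cases c1 : ∀ z ∈ X, Viol (π.line j) z
    · exact hup j hpj c1
    · push Not at c1
      exact Or.inr ⟨x, j, c, .refl, hr, hv, c1⟩

/-- A first violated line is a division. -/
theorem dag2 {i : Fin π.size} {z : Fin n → ℤ} (hax : AxOK F z)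
    (hstop : ∀ y x, Reach π S i y → Prem π x y → x ∈ S → ¬ Viol (π.line x) z)
    (hv : Viol (π.line i) z) :
    ∃ d p c, Reach π S i d ∧ π.rule d = .div p c ∧ Viol (π.line d) z ∧
      (∀ x, Reach π S i x → x < d → ¬ Viol (π.line x) z) ∧ ¬ Viol (π.line p) z := by
  obtain ⟨d, ⟨hd1, hd2⟩, hmin⟩ := WellFounded.has_min (wellFounded_lt (α := Fin π.size))
    {x | Reach π S i x ∧ Viol (π.line x) z} ⟨i, .refl, hv⟩
  have hmin' : ∀ x, Reach π S i x → x < d → ¬ Viol (π.line x) z :=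
    fun x h1 h2 h3 => hmin x ⟨h1, h3⟩ h2
  have hprem : ∀ j, Prem π j d → ¬ Viol (π.line j) z := by
    intro j hj
    by_cases hjS : j ∈ S
    · exact hstop d j hd1 hj hjS
    · exact hmin' j (.step hd1 hj hjS) (prem_lt hj)
  rcases hr : π.rule d with c | v | v | ⟨j, k, α, β⟩ | ⟨j, c⟩
  · exact absurd hd2 (not_viol_axiom hax (Or.inl ⟨c, hr⟩))
  · exact absurd hd2 (not_viol_axiom hax (Or.inr (Or.inl ⟨v, hr⟩)))
  · exact absurd hd2 (not_viol_axiom hax (Or.inr (Or.inr ⟨v, hr⟩)))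
  · exfalso
    rcases viol_comb hr hd2 with h | h
    · exact hprem j (by unfold Prem; rw [hr]; exact Or.inl rfl) h
    · exact hprem k (by unfold Prem; rw [hr]; exact Or.inr rfl) h
  · exact ⟨d, j, c, hd1, hr, hd2, hmin', hprem j (by unfold Prem; rw [hr]; rfl)⟩

/-- A line with small coefficients up to a common factor has, on doubled half-integral points,
the values of an odd form with small coefficients, up to this factor, or it never has value 0. -/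
theorem small_form {B : ℕ} {L : Ineq n} (h : IsSmall B L) :
    (∃ (g : ℤ) (a : Fin n → ℤ) (e : ℤ), 0 < g ∧ (∀ v, |a v| ≤ B) ∧ Odd e ∧
      ∀ R σ, lvL L (pt R σ) = g * lv a e R σ) ∨ ∀ y, lvL L y ≠ 0 := by
  obtain ⟨g, a, hg, ha, hL⟩ := h
  by_cases hd : (g : ℤ) ∣ 1 - 2 * L.rhs
  · left
    obtain ⟨e, he⟩ := hd
    refine ⟨g, a, e, by exact_mod_cast hg, ha, ?_, ?_⟩
    · have h1 : Odd ((g : ℤ) * e) := by
        rw [← he]
        exact ⟨-L.rhs, by ring⟩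
      exact (Int.odd_mul.mp h1).2
    · intro R σ
      unfold lvL lv
      rw [he, mul_add, mul_sum]
      congr 1
      refine sum_congr rfl (fun v _ => ?_)
      rw [hL v]
      ring
  · right
    intro y hy
    apply hd
    unfold lvL at hy
    have h1 : ∑ v, L.coef v * y v = g * ∑ v, a v * y v := by
      rw [mul_sum]
      refine sum_congr rfl (fun v _ => ?_)
      rw [hL v]
      ring
    rw [h1] at hy
    exact ⟨-∑ v, a v * y v, by linarith⟩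

/-- The form of a division step. -/
theorem small_div {B : ℕ} {d p : Fin π.size} {c : ℕ} (hr : π.rule d = .div p c)
    (h : IsSmall B (π.line d)) {R₀ : Finset (Fin n)} {σ₀ : Fin n → Bool}
    (h0 : lvL (π.line d) (pt R₀ σ₀) = 0) :
    ∃ (a : Fin n → ℤ) (e : ℤ), (∀ v, |a v| ≤ B) ∧ Odd e ∧
      (∀ R σ, Viol (π.line d) (pt R σ) ↔ lv a e R σ ≤ 0) ∧
      (∀ R σ, lvL (π.line d) (pt R σ) = 0 → lv a e R σ = 0) ∧
      ∀ R σ, lv a e R σ ≤ -1 → Viol (π.line p) (pt R σ) := by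
  rcases small_form h with ⟨g, a, e, hg, ha, he, hv⟩ | hne
  swap
  · exact absurd h0 (hne _)
  refine ⟨a, e, ha, he, ?_, ?_, ?_⟩
  · intro R σ
    rw [viol_iff, hv R σ]
    constructor
    · intro h1
      by_contra h2
      rw [not_le] at h2
      have := mul_pos hg h2
      omega
    · intro h1
      exact mul_nonpos_of_nonneg_of_nonpos hg.le h1
  · intro R σ h1
    rw [hv R σ] at h1
    rcases mul_eq_zero.mp h1 with h2 | h2
    · omega
    · exact h2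
  · intro R σ h1
    apply (div_values hr _).2
    rw [hv R σ]
    nlinarith

/-- The conclusion of the local theorem. -/
def DConcl (π : Refutation F) (S : Set (Fin π.size)) (q κ : ℕ) (Sp : Fin π.size → Prop)
    (A : Finset (Fin n)) (ρ : Fin n → Bool) (i : Fin π.size) : Prop :=
    (∃ y j k α β, Reach π S i y ∧ π.rule y = .comb j k α β ∧ j ≠ k ∧ j ∉ S ∧ k ∉ S ∧
      (∃ R σ, Pt F q κ A ρ R σ ∧ Viol (π.line j) (pt R σ)) ∧
      ∃ R σ, Pt F q κ A ρ R σ ∧ Viol (π.line k) (pt R σ)) ∨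
    ∃ d p c, Reach π S i d ∧ π.rule d = .div p c ∧ Sp d ∧
      ∃ R σ, Pt F q κ A ρ R σ ∧ Viol (π.line d) (pt R σ)

/-- One step up. -/
theorem d_step (hAx : StAx) {B q κ : ℕ} {Sp : Fin π.size → Prop} (hq1 : 1 ≤ q)
    {A : Finset (Fin n)} {ρ : Fin n → Bool} {i x : Fin π.size} (hix : Reach π S i x)
    (hstop : ∀ y x, Reach π S i y → Prem π x y → x ∈ S → ∀ R σ, Pt F q κ A ρ R σ →
      ¬ Viol (π.line x) (pt R σ))
    (hdiv : ∀ d p c, Reach π S i d → π.rule d = .div p c → Sp d ∨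
      IsSmall B (π.line d) ∨
      (∀ R σ, Pt F q κ A ρ R σ → ¬ Viol (π.line p) (pt R σ) → ¬ Viol (π.line d) (pt R σ)))
    (Q : Finset (Fin n) → (Fin n → Bool) → Prop) (hQ : ∀ R σ, Q R σ → Pt F q κ A ρ R σ)
    (hne : ∃ R σ, Q R σ) (hv : ∀ R σ, Q R σ → Viol (π.line x) (pt R σ)) :
    DConcl π S q κ Sp A ρ i ∨ ∃ d p c, Reach π S x d ∧ π.rule d = .div p c ∧
      ∃ (a : Fin n → ℤ) (e : ℤ), (∀ v, |a v| ≤ B) ∧ Odd e ∧
      (∀ R σ, Viol (π.line d) (pt R σ) ↔ lv a e R σ ≤ 0) ∧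
      (∀ R σ, lv a e R σ ≤ -1 → Viol (π.line p) (pt R σ)) ∧
      (∀ R σ, Q R σ → lv a e R σ ≤ 0) ∧ ∃ Rq σq, Q Rq σq ∧ lv a e Rq σq = 0 := by
  set X : Set (Fin n → ℤ) := {y | ∃ R σ, Q R σ ∧ y = pt R σ} with hX
  have hXne : X.Nonempty := by
    obtain ⟨R, σ, h⟩ := hne
    exact ⟨pt R σ, R, σ, h, rfl⟩
  have hXax : ∀ y ∈ X, AxOK F y := by
    rintro y ⟨R, σ, h, rfl⟩
    have h1 := hQ R σ h
    exact hAx n m F q R σ hq1 h1.2.1 h1.2.2.2.1
  have hXv : ∀ y ∈ X, Viol (π.line x) y := by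
    rintro y ⟨R, σ, h, rfl⟩
    exact hv R σ h
  rcases dag1 (S := S) (i := x) hXne hXax (by
      rintro y x' h1 h2 h3 z ⟨R, σ, hz, rfl⟩
      exact hstop y x' (hix.trans h1) h2 h3 R σ (hQ R σ hz)) x .refl hXv with
    ⟨y, j, k, α, β, h1, h2, h3, h4, h5, ⟨z₁, h6, h7⟩, z₂, h8, h9⟩ |
    ⟨d, p, c, h1, hr, h2, y, h3, h4⟩
  · left
    left
    obtain ⟨R₁, σ₁, hq₁, rfl⟩ := h6
    obtain ⟨R₂, σ₂, hq₂, rfl⟩ := h8
    exact ⟨y, j, k, α, β, hix.trans h1, h2, h3, h4, h5, ⟨R₁, σ₁, hQ _ _ hq₁, h7⟩, R₂, σ₂,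
      hQ _ _ hq₂, h9⟩
  · obtain ⟨Rq, σq, hqq, rfl⟩ := h3
    rcases hdiv d p c (hix.trans h1) hr with hsp | hbd | hcr
    · left
      right
      exact ⟨d, p, c, hix.trans h1, hr, hsp, Rq, σq, hQ _ _ hqq, h2 _ ⟨Rq, σq, hqq, rfl⟩⟩
    · right
      have h0 := (div_values hr (pt Rq σq)).1 (h2 _ ⟨Rq, σq, hqq, rfl⟩) h4
      obtain ⟨a, e, ha, he, k1, k2, k3⟩ := small_div hr hbd h0
      refine ⟨d, p, c, h1, hr, a, e, ha, he, k1, k3, ?_, Rq, σq, hqq, k2 _ _ h0⟩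
      intro R σ h
      exact (k1 R σ).mp (h2 _ ⟨R, σ, h, rfl⟩)
    · exact absurd (h2 _ ⟨Rq, σq, hqq, rfl⟩) (hcr Rq σq (hQ _ _ hqq) h4)

/-- The local theorem. -/
def StLocalD : Prop := ∀ B D : ℕ, ∃ κ : ℕ, ∀ (n m : ℕ) (F : Fin m → Clause n)
    (π : Refutation F) (S : Set (Fin π.size)) (q : ℕ)
    (Sp : Fin π.size → Prop) (A : Finset (Fin n)) (ρ : Fin n → Bool) (i : Fin π.size),
    Env (vsF F) q D κ A → Valid (vsF F) (ngF F) ρ A →
    Viol (π.line i) (pt A ρ) →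
    (∀ y x, Reach π S i y → Prem π x y → x ∈ S → ∀ R σ, Pt F q κ A ρ R σ →
      ¬ Viol (π.line x) (pt R σ)) →
    (∀ d p c, Reach π S i d → π.rule d = .div p c → Sp d ∨
      IsSmall B (π.line d) ∨
      (∀ R σ, Pt F q κ A ρ R σ → ¬ Viol (π.line p) (pt R σ) → ¬ Viol (π.line d) (pt R σ))) →
    DConcl π S q κ Sp A ρ i

theorem hLocalD (hM1 : StFam1) (hA2 : StAdj2) (hNa : StNarr) (hEv : StEvent) (hS3 : StStart3)
    (hAx : StAx) : StLocalD := by
  intro B D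
  have hEv' := hEv B D
  choose E1 hE1 using hEv'
  choose E2 E3 hE23 using hE1
  choose AT hAT using hA2
  set M' : ℕ → ℕ → ℕ := fun M m => E1 m M (B * M) (3 * B) with hM'
  set K2 : ℕ → ℕ → ℕ := fun M m => E2 m (M' M m) (B * M' M m) (B * m) 0 with hK2
  set T2 : ℕ → ℕ → ℕ := fun M m => E3 m (M' M m) (B * M' M m) (B * m) 0 with hT2'
  set Tb : ℕ → ℕ → ℕ := fun M m => AT D m (M' M m) 1 0 with hTb
  set K1 : ℕ → ℕ → ℕ := fun M m => E2 m M (B * M) (3 * B) (T2 M m + Tb M m) with hK1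
  set T1 : ℕ → ℕ → ℕ := fun M m => E3 m M (B * M) (3 * B) (T2 M m + Tb M m) with hT1'
  set Ta : ℕ → ℕ → ℕ := fun M m => AT D m M 1 0 with hTa
  obtain ⟨K0, hS3⟩ := hS3 B D (fun _ M m => T1 M m + Ta M m)
  obtain ⟨Kn, hNa⟩ := hNa B D K0 (B * K0)
  set S := ∑ p ∈ range (K0 + 1) ×ˢ range (K0 + 1),
    (K1 p.1 p.2 + K2 p.1 p.2 + M' p.1 p.2 + 2 * p.2 + p.1) with hS
  refine ⟨K0 + Kn + S, ?_⟩
  intro n m F π St q Sp A ρ i hE hval hviol hstop hdiv
  set κ := K0 + Kn + S with hκ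
  obtain ⟨t1, t2, t3, t4, t5, t6⟩ := hM1 (Fin m) (Fin n) (vsF F) (ngF F) q D κ A hE
  have hq1 : 1 ≤ q := by
    obtain ⟨M₀, R₀, -, h, -, -⟩ := hE.big
    omega
  have hAc : Closed (vsF F) q A := hE.closed'
  have hPtA : Pt F q κ A ρ A ρ := ⟨subset_refl _, hAc, by simp, hval, fun _ _ => rfl⟩
  have hPt : ∀ R σ, Ext (vsF F) (ngF F) q A κ A ρ R σ → Pt F q κ A ρ R σ := fun R σ h =>
    ⟨h.1, h.2.1, h.2.2.1, t6 _ _ _ _ _ h hval, h.2.2.2.1⟩
  obtain ⟨d₀, p₀, c₀, hd₀, hr₀, hv₀, hsat, hnv₀⟩ := dag2 (S := St) (hAx n m F q A ρ hq1 hAc hval)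
    (fun y x h1 h2 h3 => hstop y x h1 h2 h3 A ρ hPtA) hviol
  have hp₀ : Prem π p₀ d₀ := by
    unfold Prem
    rw [hr₀]
    rfl
  rcases hdiv d₀ p₀ c₀ hd₀ hr₀ with hna | hbd | hcr
  · right
    exact ⟨d₀, p₀, c₀, hd₀, hr₀, hna, A, ρ, hPtA, hv₀⟩
  swap
  · exact absurd hv₀ (hcr A ρ hPtA hnv₀)
  have hlvL0 : lvL (π.line d₀) (pt A ρ) = 0 := (div_values hr₀ (pt A ρ)).1 hv₀ hnv₀
  obtain ⟨a₀, e₀, ha₀, he₀, kv1, kv2, kv3⟩ := small_div hr₀ hbd hlvL0
  have hlv0 : lv a₀ e₀ A ρ = 0 := kv2 _ _ hlvL0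
  -- going up to the premise of a division violated at some points
  have hgo : ∀ {x p : Fin π.size} {c : ℕ}, Reach π St i x → π.rule x = .div p c →
      (∃ R σ, Pt F q κ A ρ R σ ∧ Viol (π.line p) (pt R σ)) → p ∉ St ∧ Reach π St i p := by
    rintro x p c hx hr ⟨R, σ, h1, h2⟩
    have hpx : Prem π p x := by
      unfold Prem
      rw [hr]
      rfl
    have : p ∉ St := fun h => hstop x p hx hpx h R σ h1 h2
    exact ⟨this, .step hx hpx this⟩
  -- values of the lines below `d₀` at small extensions of `(A, ρ)`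
  have hlow : ∀ s, Reach π St i s → s < d₀ → ∀ (a : Fin n → ℤ) (e : ℤ), (∀ v, |a v| ≤ B) →
      (∀ R σ, Viol (π.line s) (pt R σ) ↔ lv a e R σ ≤ 0) → ∀ (M : ℕ) R σ,
      Ext (vsF F) (ngF F) q A M A ρ R σ → -((B * M : ℕ) : ℤ) ≤ lv a e R σ := by
    intro s hs hs' a e hb hform M R σ h
    have h1 := hsat s hs hs'
    rw [hform, not_le] at h1
    rw [(t5 _ _ _ _ _ a e h).1]
    have h3 : |∑ i ∈ R \ A, a i * sg (σ i)| ≤ B * (R \ A).card := sum_sg_le hb σ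
    have h4 : (B : ℤ) * ((R \ A).card : ℤ) ≤ B * M := by
      refine mul_le_mul_of_nonneg_left ?_ (Int.natCast_nonneg B)
      exact_mod_cast h.2.2.1
    have h5 := (abs_le.mp h3).1
    push_cast
    linarith
  rcases hS3 (Fin m) (Fin n) (vsF F) (ngF F) q κ A ρ a₀ e₀ hE (by omega) ha₀
    he₀ hlv0 with ⟨R, σ, hext, hall⟩ | ⟨g, M, mm, e, R, σ, hg1, hg3, hMK, hmK, hext, heg,
      hlvR, hclean, hpool⟩
  · -- (N)
    have hRR : Ext (vsF F) (ngF F) q A κ R σ R σ :=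
      Ext.rfl' hext.2.1 (by have := hext.2.2.1; omega)
    have hprem : ∀ R₁ σ₁, Ext (vsF F) (ngF F) q A κ R σ R₁ σ₁ → Viol (π.line p₀) (pt R₁ σ₁) :=
      fun R₁ σ₁ h => kv3 _ _ (hall R₁ σ₁ h)
    obtain ⟨-, hip₀⟩ := hgo hd₀ hr₀ ⟨R, σ, hPt _ _ (t1 _ _ _ _ _ _ _ _ hext hRR),
      hprem R σ hRR⟩
    rcases d_step hAx hq1 hip₀ hstop hdiv
      (fun R₁ σ₁ => Ext (vsF F) (ngF F) q A κ R σ R₁ σ₁)
      (fun R₁ σ₁ h => hPt _ _ (t1 _ _ _ _ _ _ _ _ hext h))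
      ⟨R, σ, hRR⟩ hprem with h | ⟨d₁, p₁, c₁, hd₁, hr₁, a₁, e₁, ha₁, he₁, kw1, kw3, hle, Rq, σq,
        hq, hq0⟩
    · exact h
    · exfalso
      exact hNa (Fin m) (Fin n) (vsF F) (ngF F) q κ A R Rq σ σq a₁ e₁ hE (by omega) hext.1
        hext.2.1 hext.2.2.1 ha₁ he₁
        (hlow _ (hip₀.trans hd₁) (lt_of_le_of_lt hd₁.le (prem_lt hp₀)) a₁ e₁ ha₁ kw1 K0 R σ hext)
        (fun R₁ σ₁ h => hle R₁ σ₁ (h.mono (by omega))) hq hq0
  · -- (W)
    have hSle : K1 M mm + K2 M mm + M' M mm + 2 * mm + M ≤ S := by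
      have hmem : (M, mm) ∈ range (K0 + 1) ×ˢ range (K0 + 1) := by
        rw [mem_product, Finset.mem_range, Finset.mem_range]
        constructor
        · change M < K0 + 1
          omega
        · change mm < K0 + 1
          omega
      exact single_le_sum (f := fun p : ℕ × ℕ =>
        K1 p.1 p.2 + K2 p.1 p.2 + M' p.1 p.2 + 2 * p.2 + p.1) (fun i _ => Nat.zero_le _) hmem
    have hMκ : M ≤ κ := by omega
    have hne₁ : ∃ R₁ σ₁, Ext (vsF F) (ngF F) q A κ R σ R₁ σ₁ ∧ lv a₀ e₀ R₁ σ₁ ≤ -1 := by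
      obtain ⟨R₂, σ₂, h1, -, h2, -⟩ := hAT D mm M 1 0 (Fin m) (Fin n) (vsF F) (ngF F) q κ A R ∅ σ
        a₀ a₀ g g (-1) (T1 M mm + Ta M mm) hE hext.1 hext.2.1 hext.2.2.1 (by simp)
        (by simp) (by simp only [hTa]; omega) hpool
      refine ⟨R₂, σ₂, h1.mono (by omega), ?_⟩
      rw [h2, hlvR]
      omega
    have hprem : ∀ R₁ σ₁, Ext (vsF F) (ngF F) q A κ R σ R₁ σ₁ ∧
        lv a₀ e₀ R₁ σ₁ ≤ -1 → Viol (π.line p₀) (pt R₁ σ₁) :=
      fun R₁ σ₁ h => kv3 _ _ h.2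
    obtain ⟨-, hip₀⟩ : p₀ ∉ St ∧ Reach π St i p₀ := by
      obtain ⟨R₁, σ₁, h1⟩ := hne₁
      exact hgo hd₀ hr₀ ⟨R₁, σ₁, hPt _ _ (t1 _ _ _ _ _ _ _ _ hext h1.1), hprem R₁ σ₁ h1⟩
    rcases d_step hAx hq1 hip₀ hstop hdiv
      (fun R₁ σ₁ => Ext (vsF F) (ngF F) q A κ R σ R₁ σ₁ ∧ lv a₀ e₀ R₁ σ₁ ≤ -1)
      (fun R₁ σ₁ h => hPt _ _ (t1 _ _ _ _ _ _ _ _ hext h.1))
      hne₁ hprem with h | ⟨d₁, p₁, c₁, hd₁, hr₁, a₁, e₁, ha₁, he₁, kw1, kw3, hle, Rq, σq, hq,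
        hq0⟩
    · exact h
    have hid₁ : Reach π St i d₁ := hip₀.trans hd₁
    have hlt₁ : d₁ < d₀ := lt_of_le_of_lt hd₁.le (prem_lt hp₀)
    have hp₁ : Prem π p₁ d₁ := by
      unfold Prem
      rw [hr₁]
      rfl
    obtain ⟨-, τ, R', σ', hτ1, hτ2, hext', hw0, hτd, hpool'⟩ := hE23 mm M (B * M) (3 * B)
      (T2 M mm + Tb M mm) (Fin m) (Fin n) (vsF F) (ngF F) q κ A R Rq σ σq a₀ a₁
      e₀ e₁ g e hE (by
        have : E2 mm M (B * M) (3 * B) (T2 M mm + Tb M mm) = K1 M mm := rfl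
        omega) hext.1 hext.2.1 hext.2.2.1 ha₀ ha₁ he₀ he₁ (by omega)
        (by exact_mod_cast hg3) (by omega) (by omega) hlvR hclean
        (hpool.sub (by
          have : E3 mm M (B * M) (3 * B) (T2 M mm + Tb M mm) = T1 M mm := rfl
          omega))
        (hlow _ hid₁ hlt₁ a₁ e₁ ha₁ kw1 M R σ hext) (fun R₁ σ₁ h h' => hle R₁ σ₁ ⟨h, h'⟩) hq.1
        hq.2 hq0
    have hextA : Ext (vsF F) (ngF F) q A (M' M mm) A ρ R' σ' := t1 _ _ _ _ _ _ _ _ hext hext'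
    have hne₂ : ∃ R₁ σ₁, Ext (vsF F) (ngF F) q A κ R' σ' R₁ σ₁ ∧ lv a₁ e₁ R₁ σ₁ ≤ -1 := by
      obtain ⟨R₂, σ₂, h1, -, h2, -⟩ := hAT D mm (M' M mm) 1 0 (Fin m) (Fin n) (vsF F) (ngF F) q κ
        A R' ∅ σ' a₁ a₁ τ τ (-1) (T2 M mm + Tb M mm) hE hextA.1 hextA.2.1 hextA.2.2.1
        (by simp) (by simp) (by simp only [hTb]; omega) hpool'
      refine ⟨R₂, σ₂, h1.mono (by omega), ?_⟩
      rw [h2, hw0]
      omega
    have hprem₁ : ∀ R₁ σ₁, Ext (vsF F) (ngF F) q A κ R' σ' R₁ σ₁ ∧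
        lv a₁ e₁ R₁ σ₁ ≤ -1 → Viol (π.line p₁) (pt R₁ σ₁) :=
      fun R₁ σ₁ h => kw3 _ _ h.2
    obtain ⟨-, hip₁⟩ : p₁ ∉ St ∧ Reach π St i p₁ := by
      obtain ⟨R₁, σ₁, h1⟩ := hne₂
      exact hgo hid₁ hr₁ ⟨R₁, σ₁, hPt _ _ (t1 _ _ _ _ _ _ _ _ hextA h1.1), hprem₁ R₁ σ₁ h1⟩
    rcases d_step hAx hq1 hip₁ hstop hdiv
      (fun R₁ σ₁ => Ext (vsF F) (ngF F) q A κ R' σ' R₁ σ₁ ∧ lv a₁ e₁ R₁ σ₁ ≤ -1)
      (fun R₁ σ₁ h => hPt _ _ (t1 _ _ _ _ _ _ _ _ hextA h.1))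
      hne₂ hprem₁ with h | ⟨d₂, p₂, c₂, hd₂, hr₂, a₂, e₂, ha₂, he₂, ku1, ku3, hle₂, Rq', σq',
        hq', hq0'⟩
    · exact h
    exfalso
    obtain ⟨h0, -⟩ := hE23 mm (M' M mm) (B * M' M mm) (B * mm) 0 (Fin m) (Fin n) (vsF F) (ngF F) q κ
      A R' Rq' σ' σq' a₁ a₂ e₁ e₂ τ 0 hE (by
        have : E2 mm (M' M mm) (B * M' M mm) (B * mm) 0 = K2 M mm := rfl
        omega) hextA.1 hextA.2.1 hextA.2.2.1 ha₁ ha₂ he₁ he₂ hτ1
        (by exact_mod_cast hτ2) le_rfl (by omega) (by rw [hw0, neg_zero])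
        (fun R₁ σ₁ h => by rw [add_zero]; exact hτd R₁ σ₁ h)
        (hpool'.sub (by
          have : E3 mm (M' M mm) (B * M' M mm) (B * mm) 0 = T2 M mm := rfl
          omega))
        (hlow _ (hip₁.trans hd₂) (lt_trans (lt_of_le_of_lt hd₂.le (prem_lt hp₁)) hlt₁) a₂ e₂ ha₂
          ku1 (M' M mm) R' σ' hextA)
        (fun R₁ σ₁ h h' => hle₂ R₁ σ₁ ⟨h, h'⟩) hq'.1 hq'.2 hq0'
    omega

end Helper3.TL.Dag
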