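import Pool.Agent.Helper3.TL.M_TREE

open Finset
open MP86d903 (Valid Lit inside mem_inside pt flip Clause Ineq clauseIneq vsF ngF)
open Helper80.SR (Exp Closed Cl Sm)

namespace Helper3.TL

section
variable {n m : ℕ} {F : Fin m → Clause n}

/-- A state of the global induction; `ψ` bounds the rank. -/
structure State (F : Fin m → Clause n) (q ψ : ℕ) (A₀ Hd : Finset (Fin n)) (ρ₀ : Fin n → Bool)
    (A : Finset (Fin n)) (ρ : Fin n → Bool) : Prop where
  sc : SClosed (vsF F) q A
  sub₀ : A₀ ⊆ A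
  subH : Hd ⊆ A
  val : Valid (vsF F) (ngF F) ρ A
  eq₀ : ∀ i ∈ A₀, ρ i = ρ₀ i
  card : 8 * A.card ≤ 19 * ψ
  dens : 2 * A.card ≤ ψ + 3 * (inside (vsF F) A).card

theorem exists_state (hC2 : StClo2) {q R₀ ψ : ℕ} {A₀ Hd : Finset (Fin n)} {ρ₀ : Fin n → Bool}
    (hExp : Exp (vsF F) R₀) (hψ : 2 * ψ + q < R₀) (hψq : 5 * ψ ≤ 4 * q)
    {R X : Finset (Fin n)} {σ : Fin n → Bool} (hRX : R ⊆ X) (hHX : Hd ⊆ X) (h0R : A₀ ⊆ R)
    (hR : Closed (vsF F) q R) (hval : Valid (vsF F) (ngF F) σ R) (heq : ∀ i ∈ A₀, σ i = ρ₀ i)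
    (hXR : X.card ≤ R₀) (hX : 2 * X.card ≤ ψ + 3 * (inside (vsF F) X).card) (L : Ineq n)
    (hv : Viol L (pt R σ)) :
    ∃ A ρ, State F q ψ A₀ Hd ρ₀ A ρ ∧ Viol L (pt A ρ) := by
  obtain ⟨A, hsc, hXA, hd, hc⟩ := hC2 (Fin m) (Fin n) (vsF F) q R₀ ψ X hExp hψ hXR hX
  have hin : 19 * (inside (vsF F) A).card ≤ 10 * A.card :=
    Helper80.SR.card_inside_le hExp A (by omega)
  obtain ⟨σ', h1, h2, h3⟩ := Helper80.SR.exists_ext (B := A) hR (by omega) hval
  have hRA : R ⊆ A := hRX.trans hXA
  have hsum : ∑ i, L.coef i * pt A σ' i + ∑ i, L.coef i * pt A (MP86d903.flip R σ') i =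
      2 * ∑ i, L.coef i * pt R σ i := by
    rw [← sum_add_distrib, mul_sum]
    refine sum_congr rfl (fun i _ => ?_)
    have := MP86d903.pt_add_pt_flip hRA h1 i
    rw [← mul_add, this]
    ring
  by_cases hlt : Viol L (pt A σ')
  · exact ⟨A, σ', ⟨hsc, h0R.trans hRA, hHX.trans hXA, h2, fun i hi => by
      rw [h1 i (h0R hi), heq i hi], hc, hd⟩, hlt⟩
  · refine ⟨A, MP86d903.flip R σ', ⟨hsc, h0R.trans hRA, hHX.trans hXA, h3, fun i hi => ?_, hc,
      hd⟩, ?_⟩
    · unfold MP86d903.flip
      rw [if_pos (h0R hi), h1 i (h0R hi), heq i hi]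
    · unfold Viol at hlt hv ⊢
      omega

end

theorem hInd (hL : StLocal) (hC2 : StClo2) (hRe : StReset) (hT2 : StTree2) (hAx : StAx) :
    StInd := by
  intro B D
  obtain ⟨κ, hL⟩ := hL B D
  refine ⟨κ, ?_⟩
  intro n m F q R₀ M₀ P w l kmax A₀ Hd ρ₀ t hExp hq hqR hM₀ hP hPR hA₀ hl hval₀ hdeg hleg hroot
    hdiv
  obtain ⟨u1, u2, u3, u4, u5, u6, u7⟩ := hT2 n m F
  have hψle : ∀ k, P + 2 * κ * (kmax - k) ≤ P + 2 * κ * kmax := fun k =>
    Nat.add_le_add_left (Nat.mul_le_mul_left _ (Nat.sub_le _ _)) _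
  have hq1 : 1 ≤ q := by omega
  -- the claim
  have claim : ∀ N k, k ≤ kmax → ∀ (s : Tree n m) (A : Finset (Fin n)) (ρ : Fin n → Bool),
      s.divs ≤ N → Tree.Sub s t → State F q (P + 2 * κ * (kmax - k)) A₀ Hd ρ₀ A ρ →
      Viol (s.line F) (pt A ρ) → 2 ^ k ≤ s.divs := by
    have hone : ∀ k (s : Tree n m) (A : Finset (Fin n)) (ρ : Fin n → Bool),
        State F q (P + 2 * κ * (kmax - k)) A₀ Hd ρ₀ A ρ → Viol (s.line F) (pt A ρ) →
        1 ≤ s.divs := by
      intro k s A ρ hst hv
      obtain ⟨c, s', h1, -, -⟩ := u1 s (pt A ρ) (hAx n m F q A ρ hq1 hst.sc.closed' hst.val) hv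
      have h2 := u4 _ _ h1
      have h3 : (Tree.div c s').divs = s'.divs + 1 := rfl
      omega
    intro N
    induction N with
    | zero =>
      intro k _ s A ρ hN _ hst hv
      have := hone k s A ρ hst hv
      omega
    | succ N ihN =>
      intro k
      induction k with
      | zero =>
        intro _ s A ρ _ _ hst hv
        exact hone 0 s A ρ hst hv
      | succ k ihk =>
        intro hk s A ρ hN hsub hst hv
        have h0 := hψle (k + 1)
        have h1 := hst.card
        have hψk : P + 2 * κ * (kmax - k) = P + 2 * κ * (kmax - (k + 1)) + 2 * κ := by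
          obtain ⟨j, hj⟩ : ∃ j, kmax = k + 1 + j := ⟨kmax - (k + 1), by omega⟩
          have e1 : kmax - k = j + 1 := by omega
          have e2 : kmax - (k + 1) = j := by omega
          rw [e1, e2]
          ring
        have hAκ : A.card + κ ≤ M₀ := by omega
        have hcardR : ∀ R : Finset (Fin n), A ⊆ R → (R \ A).card ≤ κ → R.card ≤ A.card + κ := by
          intro R hAR hR
          have := card_sdiff_add_card_eq_card hAR
          omega
        rcases hL n m F q w A ρ s
          ⟨MP86d903.vsF_card F, ⟨M₀, R₀, hExp, hq, hqR, hAκ⟩, hst.sc,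
            fun i hi => hdeg i (fun h => hi (hst.subH h))⟩ hst.val (u3 _ _ hsub hleg) hv
          (by
            intro c s' hs'
            rcases hdiv c s' (u2 _ _ _ hs' hsub) with h | h | h
            · exact Or.inl h
            · exact Or.inr (Or.inl h)
            · refine Or.inr (Or.inr ?_)
              rintro R σ ⟨g1, g2, g3, g4, g5⟩
              exact h R σ (hst.sub₀.trans g1) g2 ((hcardR R g1 g3).trans hAκ) g4
                (fun i hi => by rw [g5 i (hst.sub₀ hi), hst.eq₀ i hi]))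
          with ⟨α, β, s₁, s₂, hs, ⟨R₁, σ₁, p1, v1⟩, R₂, σ₂, p2, v2⟩ | ⟨c, s', hs, hnar, R, σ, p, v⟩
        · -- branching
          have hsubb := u2 _ _ _ hs hsub
          have hb : (Tree.comb α β s₁ s₂).divs = s₁.divs + s₂.divs := rfl
          have hb' := u4 _ _ hs
          have hsub1 : Tree.Sub s₁ t := u2 _ _ _ (.left α β s₁ s₂ (.refl _)) hsubb
          have hsub2 : Tree.Sub s₂ t := u2 _ _ _ (.right α β s₁ s₂ (.refl _)) hsubb
          have key : ∀ (s' : Tree n m) R σ, Pt F q κ A ρ R σ → Viol (s'.line F) (pt R σ) →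
              s'.divs ≤ N + 1 → Tree.Sub s' t → 2 ^ k ≤ s'.divs := by
            rintro s' R σ ⟨g1, g2, g3, g4, g5⟩ hv' hN' hsub'
            have g6 := hcardR R g1 g3
            have g7 : (inside (vsF F) A).card ≤ (inside (vsF F) R).card :=
              card_le_card (Helper80.SR.inside_mono g1)
            have g8 := hst.dens
            have g9 := hψle k
            obtain ⟨A', ρ', hst', hv''⟩ := exists_state hC2 (ψ := P + 2 * κ * (kmax - k))
              (A₀ := A₀) (Hd := Hd) (ρ₀ := ρ₀) hExp (by omega) (by omega) (subset_refl R)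
              (hst.subH.trans g1) (hst.sub₀.trans g1) g2 g4
              (fun i hi => by rw [g5 i (hst.sub₀ hi), hst.eq₀ i hi]) (by omega) (by omega)
              (s'.line F) hv'
            exact ihk (by omega) s' A' ρ' hN' hsub' hst' hv''
          have k1 := key s₁ R₁ σ₁ p1 v1 (by omega) hsub1
          have k2 := key s₂ R₂ σ₂ p2 v2 (by omega) hsub2
          rw [pow_succ]
          omega
        · -- narrow
          obtain ⟨g1, g2, g3, g4, g5⟩ := p
          have g6 := hcardR R g1 g3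
          have hsubd := u2 _ _ _ hs hsub
          have hlegd := u3 _ _ hsubd hleg
          have hin : 19 * (inside (vsF F) R).card ≤ 10 * R.card :=
            Helper80.SR.card_inside_le hExp R (by omega)
          obtain ⟨R', σ', r1, r2, r3, r4, r5, r6⟩ := hRe n m F q R₀ M₀ w (R.card + l) l A₀ ρ₀ c s'
            R σ hExp (by omega) (by omega) hA₀ hl (by omega) (by omega) hlegd hnar
            (hst.sub₀.trans g1) g2 ⟨by omega, hin⟩ g4
            (fun i hi => by rw [g5 i (hst.sub₀ hi), hst.eq₀ i hi]) v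
          have r7 := r3.card_le
          have r8 : (R' ∪ Hd).card ≤ R'.card + Hd.card := card_union_le _ _
          have e0 : P + 2 * κ * (kmax - kmax) = P := by simp
          have e1 : P ≤ P + 2 * κ * kmax := Nat.le_add_right _ _
          obtain ⟨A', ρ', hst', hv''⟩ := exists_state hC2 (ψ := P)
              (A₀ := A₀) (Hd := Hd) (ρ₀ := ρ₀) hExp (by omega) (by omega)
              (subset_union_left (s₁ := R') (s₂ := Hd)) subset_union_right r1 r2 r4 r5 (by omega)
              (by omega) (s'.line F) r6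
          have hd1 : (Tree.div c s').divs = s'.divs + 1 := rfl
          have hd2 := u4 _ _ hs
          have hsub' : Tree.Sub s' t := u2 _ _ _ (.down c s' (.refl _)) hsubd
          have := ihN kmax le_rfl s' A' ρ' (by omega) hsub' (by rw [e0]; exact hst') hv''
          have hpow : 2 ^ (k + 1) ≤ 2 ^ kmax := Nat.pow_le_pow_right (by norm_num) hk
          omega
  -- the root
  have r7 := hl.card_le
  have r8 : (A₀ ∪ Hd).card ≤ A₀.card + Hd.card := card_union_le _ _
  have e0 : P + 2 * κ * (kmax - kmax) = P := by simp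
  have e1 : P ≤ P + 2 * κ * kmax := Nat.le_add_right _ _
  have hvr : ∀ y : Fin n → ℤ, Viol (t.line F) y := by
    intro y
    rw [hroot]
    unfold Viol
    simp
  obtain ⟨A', ρ', hst', hv''⟩ := exists_state hC2 (ψ := P)
      (A₀ := A₀) (Hd := Hd) (ρ₀ := ρ₀) hExp (by omega) (by omega)
      (subset_union_left (s₁ := A₀) (s₂ := Hd)) subset_union_right (subset_refl _) hA₀ hval₀
      (fun _ _ => rfl) (by omega) (by omega) (t.line F) (hvr _)
  exact claim t.divs kmax le_rfl t A' ρ' le_rfl (.refl _) (by rw [e0]; exact hst') hv''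

end Helper3.TL
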