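import Pool.Agent.Helper3.TL.Dag
import Pool.Agent.Helper3.TL.M_IND

/-!
Lemmas for the global induction for general (dag-like) refutations.
-/

open Finset
open MP86d903 (Valid Lit inside mem_inside pt flip Clause Ineq clauseIneq vsF ngF Refutation Rule)
open Helper80.SR (Exp Closed Cl Sm Holds)

namespace Helper3.TL.Dag

variable {n m : ℕ} {F : Fin m → Clause n} {π : Refutation F}

/-- On every path of lines with `G` from `i` there are at most `r` lines with `f`. -/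
def Few (π : Refutation F) (G f : Fin π.size → Prop) (r : ℕ) (i : Fin π.size) : Prop :=
  ∀ p, π.IsPath (i :: p) → (∀ x ∈ (i :: p), G x) → {x | x ∈ (i :: p) ∧ f x}.ncard ≤ r

/-- The lines on a path decrease. -/
theorem path_le : ∀ (p : List (Fin π.size)) (j : Fin π.size), π.IsPath (j :: p) →
    ∀ x ∈ (j :: p), x ≤ j := by
  intro p
  induction p with
  | nil =>
    intro j _ x hx
    rw [List.mem_singleton] at hx
    rw [hx]
  | cons l p ihp =>
    intro j hjp x hx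
    obtain ⟨h3, h4⟩ := List.isChain_cons_cons.mp hjp
    rcases List.mem_cons.mp hx with rfl | hx
    · exact le_rfl
    · exact (ihp l h4 x hx).trans (prem_lt (i := j) (j := l) h3).le

theorem Few.prem {G f : Fin π.size → Prop} {r : ℕ} {i j : Fin π.size} (h : Few π G f r i)
    (hG : G i) (hj : Prem π j i) : Few π G f r j := by
  intro p hp hg
  have h1 := h (j :: p) (List.isChain_cons_cons.mpr ⟨hj, hp⟩) (by
    intro x hx
    rcases List.mem_cons.mp hx with rfl | hx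
    · exact hG
    · exact hg x hx)
  refine le_trans (Set.ncard_le_ncard ?_ (Set.toFinite _)) h1
  intro x hx
  exact ⟨List.mem_cons_of_mem _ hx.1, hx.2⟩

theorem Few.pos {G f : Fin π.size → Prop} {r : ℕ} {i : Fin π.size} (h : Few π G f r i)
    (hG : G i) (hf : f i) : 1 ≤ r := by
  have h1 := h [] (List.isChain_singleton i) (by
    intro x hx
    rw [List.mem_singleton] at hx
    rw [hx]
    exact hG)
  refine le_trans ?_ h1
  rw [Nat.one_le_iff_ne_zero, Ne, Set.ncard_eq_zero (Set.toFinite _)]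
  intro h2
  have : i ∈ {x | x ∈ [i] ∧ f x} := ⟨List.mem_singleton_self i, hf⟩
  rw [h2] at this
  exact this

theorem Few.prem' {G f : Fin π.size → Prop} {r : ℕ} {i j : Fin π.size} (h : Few π G f r i)
    (hG : G i) (hf : f i) (hj : Prem π j i) : Few π G f (r - 1) j := by
  intro p hp hg
  have h1 := h (j :: p) (List.isChain_cons_cons.mpr ⟨hj, hp⟩) (by
    intro x hx
    rcases List.mem_cons.mp hx with rfl | hx
    · exact hG
    · exact hg x hx)
  have hnot : i ∉ {x | x ∈ (j :: p) ∧ f x} := by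
    intro hmem
    exact absurd (path_le p j hp i hmem.1) (not_le.mpr (prem_lt hj))
  have h2 : {x | x ∈ (i :: j :: p) ∧ f x} = insert i {x | x ∈ (j :: p) ∧ f x} := by
    ext x
    constructor
    · rintro ⟨h3, h4⟩
      rcases List.mem_cons.mp h3 with h3 | h3
      · exact Or.inl h3
      · exact Or.inr ⟨h3, h4⟩
    · rintro (h3 | ⟨h3, h4⟩)
      · rw [h3]
        exact ⟨List.mem_cons_self, hf⟩
      · exact ⟨List.mem_cons_of_mem _ h3, h4⟩
  rw [h2, Set.ncard_insert_of_notMem hnot (Set.toFinite _)] at h1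
  omega

/-- A division step costs one class. -/
theorem d_div_step (hM1 : StFam1) (hM3 : StFam3) {q D κ κ' : ℕ}
    (hκ : 3 * (κ + 1) ≤ κ') {A : Finset (Fin n)} (hE : Env (vsF F) q D κ' A)
    {ρ : Fin n → Bool} {d p : Fin π.size} {c : ℕ} (hr : π.rule d = .div p c)
    {R : Finset (Fin n)} {σ : Fin n → Bool} (hP : Pt F q κ A ρ R σ)
    (hv : Viol (π.line d) (pt R σ)) :
    ∃ R' σ', Pt F q κ' A ρ R' σ' ∧ Viol (π.line p) (pt R' σ') := by
  classical
  obtain ⟨t1, t2, t3, t4, t5, t6⟩ := hM1 (Fin m) (Fin n) (vsF F) (ngF F) q D κ' A hE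
  obtain ⟨g1, g2, g3, g4, g5⟩ := hP
  by_cases hs : Viol (π.line p) (pt R σ)
  · exact ⟨R, σ, ⟨g1, g2, by omega, g4, g5⟩, hs⟩
  have h0 : lv (π.line d).coef (1 - 2 * (π.line d).rhs) R σ = 0 :=
    (div_values hr (pt R σ)).1 hv hs
  set a := (π.line d).coef with ha
  set e := 1 - 2 * (π.line d).rhs with he
  have hodd : Odd e := ⟨-(π.line d).rhs, by ring⟩
  obtain ⟨i, hi, σ₁, hσ₁, hne⟩ : ∃ i, i ∉ R ∧ ∃ σ₁, Ext (vsF F) (ngF F) q A κ' R σ
      (Cl (vsF F) q (insert i R)) σ₁ ∧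
      ∑ j ∈ Cl (vsF F) q (insert i R) \ R, a j * sg (σ₁ j) ≠ 0 := by
    by_contra hno
    push Not at hno
    obtain ⟨N, hN, -⟩ := hM3 (Fin m) (Fin n) (vsF F) (ngF F) q D κ' A R σ κ' a a e e 0 0 hE g1 g2
      (by omega) le_rfl hodd hodd (by
        intro i hi σ₁ hσ₁
        have := hno i hi σ₁ hσ₁
        exact ⟨0, by rw [this]; simp, by rw [this]; simp⟩)
    rw [h0] at hN
    simp at hN
  obtain ⟨σ₂, hσ₂, hlt⟩ : ∃ σ₂, Ext (vsF F) (ngF F) q A κ' R σ
      (Cl (vsF F) q (insert i R)) σ₂ ∧ lv a e (Cl (vsF F) q (insert i R)) σ₂ ≤ -1 := by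
    have h5 := t5 _ _ _ _ _ a e hσ₁
    rw [h0] at h5
    by_cases hs' : ∑ j ∈ Cl (vsF F) q (insert i R) \ R, a j * sg (σ₁ j) < 0
    · exact ⟨σ₁, hσ₁, by rw [h5.1]; omega⟩
    · exact ⟨MP86d903.flip R σ₁, t2 _ _ _ _ _ hσ₁, by rw [h5.2]; omega⟩
  refine ⟨Cl (vsF F) q (insert i R), σ₂, ⟨g1.trans hσ₂.1, hσ₂.2.1, hσ₂.2.2.1,
    t6 _ _ _ _ _ hσ₂ g4, fun j hj => ?_⟩, (div_values hr _).2 hlt⟩
  rw [hσ₂.2.2.2.1 j (g1 hj), g5 j hj]

theorem state_mono {q ψ ψ' : ℕ} {A₀ Hd : Finset (Fin n)} {ρ₀ : Fin n → Bool}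
    {A : Finset (Fin n)} {ρ : Fin n → Bool} (h : ψ ≤ ψ') (hS : State F q ψ A₀ Hd ρ₀ A ρ) :
    State F q ψ' A₀ Hd ρ₀ A ρ :=
  ⟨hS.sc, hS.sub₀, hS.subH, hS.val, hS.eq₀, by have := hS.card; omega, by
    have := hS.dens
    omega⟩

theorem env_mono {ι V : Type} [DecidableEq ι] [Fintype ι] [DecidableEq V] [Fintype V]
    {vs : ι → Finset V} {q D κ κ' : ℕ} {A : Finset V} (h : κ' ≤ κ) (hE : Env vs q D κ A) :
    Env vs q D κ' A := by
  obtain ⟨M₀, R₀, h1, h2, h3, h4⟩ := hE.big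
  exact ⟨hE.three, ⟨M₀, R₀, h1, h2, h3, by omega⟩, hE.closed, hE.deg⟩

/-- The points over the root. -/
def OKp (F : Fin m → Clause n) (q M₀ : ℕ) (A₀ : Finset (Fin n)) (ρ₀ : Fin n → Bool)
    (R : Finset (Fin n)) (σ : Fin n → Bool) : Prop :=
  A₀ ⊆ R ∧ Closed (vsF F) q R ∧ R.card ≤ M₀ ∧ Valid (vsF F) (ngF F) σ R ∧ ∀ i ∈ A₀, σ i = ρ₀ i

end Helper3.TL.Dag
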