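import Mathlib

/-!
A flow on an acyclic graph: every vertex passes on its load in equal parts.
-/

open Finset

namespace Helper3.TL

variable {s : ℕ} (r : Fin s → Fin s → Prop)

open Classical in
/-- The number of successors. -/
noncomputable def outs (x : Fin s) : ℕ := (univ.filter (fun y => r x y)).card

open Classical in
theorem exists_flow (hr : ∀ x y, r x y → x < y) (X : Finset (Fin s)) :
    ∃ Φ : Fin s → ℝ, ∀ i, Φ i = (if i ∈ X then 1 else 0) +
      ∑ x ∈ univ.filter (fun x => r x i), Φ x / outs r x := by
  have hwf : WellFounded (fun x y : Fin s => x < y) := wellFounded_lt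
  let g : ∀ i : Fin s, (∀ j, j < i → ℝ) → ℝ := fun i rec =>
    (if i ∈ X then 1 else 0) +
      ∑ x ∈ univ.filter (fun x => r x i), (if h : x < i then rec x h else 0) / outs r x
  refine ⟨hwf.fix g, fun i => ?_⟩
  rw [hwf.fix_eq]
  change (if i ∈ X then 1 else 0) +
      ∑ x ∈ univ.filter (fun x => r x i), (if h : x < i then hwf.fix g x else 0) / outs r x = _
  congr 1
  refine sum_congr rfl (fun x hx => ?_)
  rw [dif_pos (hr x i (mem_filter.mp hx).2)]

variable {r}

open Classical in
theorem flow_nonneg (hr : ∀ x y, r x y → x < y) {X : Finset (Fin s)} {Φ : Fin s → ℝ}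
    (hΦ : ∀ i, Φ i = (if i ∈ X then 1 else 0) +
      ∑ x ∈ univ.filter (fun x => r x i), Φ x / outs r x) : ∀ i, 0 ≤ Φ i := by
  intro i
  induction i using WellFoundedLT.induction with
  | _ i ih =>
    rw [hΦ i]
    refine add_nonneg (by split_ifs <;> norm_num) (sum_nonneg fun x hx => ?_)
    exact div_nonneg (ih x (hr x i (mem_filter.mp hx).2)) (Nat.cast_nonneg _)

open Classical in
theorem flow_le (hr : ∀ x y, r x y → x < y) {X : Finset (Fin s)} {Φ : Fin s → ℝ}
    (hΦ : ∀ i, Φ i = (if i ∈ X then 1 else 0) +
      ∑ x ∈ univ.filter (fun x => r x i), Φ x / outs r x) (i : Fin s) : Φ i ≤ X.card := by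
  have h0 := flow_nonneg hr hΦ
  set c : Fin s → ℕ → ℕ := fun x N => (univ.filter (fun y => r x y ∧ N ≤ y.val)).card with hc
  have hcle : ∀ x N, c x N ≤ outs r x := fun x N =>
    card_le_card (fun y hy => mem_filter.mpr ⟨mem_univ _, (mem_filter.mp hy).2.1⟩)
  -- the load passed to the vertices from `N` on
  have main : ∀ N ≤ s, ∑ x ∈ univ.filter (fun x : Fin s => x.val < N),
      Φ x / outs r x * c x N ≤ (X.filter (fun x => x.val < N)).card := by
    intro N
    induction N with
    | zero =>
      intro _
      simp
    | succ N ih =>
      intro hN
      have ihN := ih (by omega)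
      set i : Fin s := ⟨N, by omega⟩ with hi
      have hsplit : univ.filter (fun x : Fin s => x.val < N + 1) =
          insert i (univ.filter (fun x : Fin s => x.val < N)) := by
        ext x
        simp only [mem_filter, mem_univ, true_and, mem_insert]
        constructor
        · intro h
          rcases Nat.lt_succ_iff_lt_or_eq.mp h with h | h
          · exact Or.inr h
          · exact Or.inl (Fin.ext h)
        · rintro (h | h)
          · rw [h]
            exact Nat.lt_succ_self N
          · omega
      have hnot : i ∉ univ.filter (fun x : Fin s => x.val < N) := by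
        simp [hi]
      have hXsplit : ((X.filter (fun x => x.val < N + 1)).card : ℝ) =
          (X.filter (fun x => x.val < N)).card + (if i ∈ X then 1 else 0) := by
        have h1 : X.filter (fun x => x.val < N + 1) =
            X.filter (fun x => x.val < N) ∪ X.filter (fun x => x = i) := by
          ext x
          simp only [mem_filter, mem_union]
          constructor
          · rintro ⟨h, h'⟩
            rcases Nat.lt_succ_iff_lt_or_eq.mp h' with h' | h'
            · exact Or.inl ⟨h, h'⟩
            · exact Or.inr ⟨h, Fin.ext h'⟩
          · rintro (⟨h, h'⟩ | ⟨h, h'⟩)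
            · exact ⟨h, by omega⟩
            · refine ⟨h, ?_⟩
              rw [h']
              exact Nat.lt_succ_self N
        rw [h1, card_union_of_disjoint]
        · have h2 : (X.filter (fun x => x = i)).card = if i ∈ X then 1 else 0 := by
            rw [filter_eq']
            split_ifs <;> simp
          rw [h2]
          push_cast
          split_ifs <;> simp
        · rw [Finset.disjoint_left]
          intro x hx hx'
          have h3 := (mem_filter.mp hx).2
          rw [(mem_filter.mp hx').2] at h3
          exact absurd h3 (lt_irrefl N)
      rw [hsplit, sum_insert hnot, hXsplit]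
      -- the load of the vertices before `N`
      have h1 : ∀ x ∈ univ.filter (fun x : Fin s => x.val < N),
          Φ x / outs r x * c x N = Φ x / outs r x * c x (N + 1) +
            (if r x i then Φ x / outs r x else 0) := by
        intro x _
        have h2 : c x N = c x (N + 1) + (if r x i then 1 else 0) := by
          have h3 : univ.filter (fun y : Fin s => r x y ∧ N ≤ y.val) =
              univ.filter (fun y : Fin s => r x y ∧ N + 1 ≤ y.val) ∪
                univ.filter (fun y : Fin s => y = i ∧ r x i) := by
            ext y
            simp only [mem_filter, mem_univ, true_and, mem_union]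
            constructor
            · rintro ⟨h, h'⟩
              rcases eq_or_lt_of_le h' with h' | h'
              · have : y = i := Fin.ext h'.symm
                exact Or.inr ⟨this, this ▸ h⟩
              · exact Or.inl ⟨h, h'⟩
            · rintro (⟨h, h'⟩ | ⟨h, h'⟩)
              · exact ⟨h, by omega⟩
              · rw [h]
                exact ⟨h', le_rfl⟩
          simp only [hc]
          rw [h3, card_union_of_disjoint]
          · congr 1
            by_cases h4 : r x i
            · rw [if_pos h4]
              have : univ.filter (fun y : Fin s => y = i ∧ r x i) = {i} := by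
                ext y
                simp [h4]
              rw [this, card_singleton]
            · rw [if_neg h4]
              have : univ.filter (fun y : Fin s => y = i ∧ r x i) = ∅ := by
                ext y
                simp [h4]
              rw [this, card_empty]
          · rw [Finset.disjoint_left]
            intro y hy hy'
            have h4 := (mem_filter.mp hy).2.2
            rw [(mem_filter.mp hy').2.1] at h4
            have : (i : ℕ) = N := rfl
            omega
        rw [h2]
        push_cast
        split_ifs <;> ring
      rw [sum_congr rfl h1, sum_add_distrib] at ihN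
      have h2 : ∑ x ∈ univ.filter (fun x : Fin s => x.val < N),
          (if r x i then Φ x / outs r x else 0) =
          ∑ x ∈ univ.filter (fun x => r x i), Φ x / outs r x := by
        rw [← sum_filter, filter_filter]
        refine sum_congr ?_ (fun _ _ => rfl)
        ext x
        simp only [mem_filter, mem_univ, true_and]
        constructor
        · exact fun h => h.2
        · intro h
          exact ⟨hr x i h, h⟩
      rw [h2] at ihN
      have h3 : Φ i / outs r i * c i (N + 1) ≤ Φ i := by
        have h4 : (c i (N + 1) : ℝ) ≤ outs r i := by exact_mod_cast hcle i (N + 1)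
        by_cases h5 : outs r i = 0
        · rw [h5]
          simpa using h0 i
        · have h6 : (0 : ℝ) < outs r i := by
            have : 0 < outs r i := Nat.pos_of_ne_zero h5
            exact_mod_cast this
          rw [div_mul_eq_mul_div, div_le_iff₀ h6]
          exact mul_le_mul_of_nonneg_left h4 (h0 i)
      have h4 := hΦ i
      linarith
  have h1 := main i.val i.isLt.le
  have h2 : ∑ x ∈ univ.filter (fun x => r x i), Φ x / outs r x ≤
      ∑ x ∈ univ.filter (fun x : Fin s => x.val < i.val), Φ x / outs r x * c x i.val := by
    have h3 : univ.filter (fun x => r x i) ⊆ univ.filter (fun x : Fin s => x.val < i.val) := by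
      intro x hx
      exact mem_filter.mpr ⟨mem_univ _, hr x i (mem_filter.mp hx).2⟩
    refine le_trans ?_ (sum_le_sum_of_subset_of_nonneg h3 (fun x _ _ =>
      mul_nonneg (div_nonneg (h0 x) (Nat.cast_nonneg _)) (Nat.cast_nonneg _)))
    refine sum_le_sum (fun x hx => ?_)
    have h4 : 1 ≤ c x i.val := by
      rw [Nat.one_le_iff_ne_zero, ← Nat.pos_iff_ne_zero]
      exact card_pos.mpr ⟨i, mem_filter.mpr ⟨mem_univ _, (mem_filter.mp hx).2, le_rfl⟩⟩
    have h5 : (1 : ℝ) ≤ c x i.val := by exact_mod_cast h4
    have h6 : 0 ≤ Φ x / outs r x := div_nonneg (h0 x) (Nat.cast_nonneg _)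
    nlinarith
  have h3 : ((X.filter (fun x => x.val < i.val)).card : ℝ) + (if i ∈ X then 1 else 0) ≤
      X.card := by
    by_cases hiX : i ∈ X
    · rw [if_pos hiX]
      have h4 : (X.filter (fun x => x.val < i.val)).card < X.card := by
        refine card_lt_card ⟨filter_subset _ _, fun h => ?_⟩
        exact absurd (mem_filter.mp (h hiX)).2 (lt_irrefl _)
      exact_mod_cast h4
    · rw [if_neg hiX, add_zero]
      exact_mod_cast card_le_card (filter_subset _ _)
  rw [hΦ i]
  linarith

end Helper3.TL
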