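import Pool.Agent.Helper3.TL.Basic

open Finset
open MP86d903 (Valid Lit inside mem_inside pt flip Clause Ineq clauseIneq vsF ngF)
open Helper80.SR (Exp Closed Cl Sm)

namespace Helper3.TL

/-- Among more than `|Y|` disjoint sets one is disjoint from `Y`. -/
theorem exists_disjoint {V : Type} [DecidableEq V] {T : ℕ} (U : Fin T → Finset V)
    (hU : ∀ i j, i ≠ j → Disjoint (U i) (U j)) (Y : Finset V) (hT : Y.card < T) :
    ∃ i, Disjoint (U i) Y := by
  classical
  by_contra hno
  push Not at hno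
  have h1 : ∀ i, ∃ y, y ∈ U i ∧ y ∈ Y := fun i => by
    have := hno i
    rw [Finset.not_disjoint_iff] at this
    exact this
  choose y hy1 hy2 using h1
  have hinj : Function.Injective y := by
    intro i j hij
    by_contra hne
    have h2 := Finset.disjoint_left.mp (hU i j hne) (hy1 i)
    exact h2 (hij ▸ hy1 j)
  have h3 : (univ.image y).card = T := by
    rw [card_image_of_injective _ hinj, card_univ, Fintype.card_fin]
  have h4 : univ.image y ⊆ Y := by
    intro v hv
    obtain ⟨i, -, rfl⟩ := mem_image.mp hv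
    exact hy2 i
  have := card_le_card h4
  omega

theorem hPool : StPool := by
  intro B m T'
  refine ⟨(2 * (B * m) + 1) * T' + 1, ?_⟩
  intro ι V _ _ _ _ vs ng q A a a₀ a' g g₀ ha' hP
  classical
  obtain ⟨U, s, h1, h2⟩ := hP
  set f : Fin ((2 * (B * m) + 1) * T' + 1) → ℤ := fun i => ∑ v ∈ U i, a' v * sg (s i v) with hf
  have hfb : ∀ i, f i ∈ Finset.Icc (-((B * m : ℕ) : ℤ)) ((B * m : ℕ) : ℤ) := by
    intro i
    have h3 : |f i| ≤ B * (U i).card := sum_sg_le ha' (s i)
    have h4 : (B : ℤ) * ((U i).card : ℤ) ≤ B * m := by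
      refine mul_le_mul_of_nonneg_left ?_ (Int.natCast_nonneg B)
      exact_mod_cast (h2 i).2.1
    rw [Finset.mem_Icc]
    have h5 := abs_le.mp (h3.trans h4)
    push_cast
    exact h5
  obtain ⟨y, hy, hlt⟩ := Finset.exists_lt_card_fiber_of_mul_lt_card_of_maps_to
    (s := (univ : Finset (Fin ((2 * (B * m) + 1) * T' + 1))))
    (t := Finset.Icc (-((B * m : ℕ) : ℤ)) ((B * m : ℕ) : ℤ)) (f := f) (n := T')
    (fun i _ => hfb i) (by
      rw [Int.card_Icc, card_univ, Fintype.card_fin]
      have h3 : (((B * m : ℕ) : ℤ) + 1 - -((B * m : ℕ) : ℤ)).toNat = 2 * (B * m) + 1 := by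
        omega
      rw [h3]
      omega)
  set S := univ.filter (fun i => f i = y) with hS
  have hle : T' ≤ S.card := hlt.le
  refine ⟨y, ?_, fun i => U (S.orderEmbOfFin rfl (Fin.castLE hle i)),
    fun i => s (S.orderEmbOfFin rfl (Fin.castLE hle i)), ?_, ?_⟩
  · rw [Finset.mem_Icc] at hy
    push_cast at hy
    exact abs_le.mpr hy
  · intro i j hij
    refine h1 _ _ (fun h => hij ?_)
    exact Fin.castLE_injective hle ((S.orderEmbOfFin rfl).injective h)
  · intro i
    have h3 := h2 (S.orderEmbOfFin rfl (Fin.castLE hle i))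
    have h4 : S.orderEmbOfFin rfl (Fin.castLE hle i) ∈ S := Finset.orderEmbOfFin_mem _ _ _
    exact ⟨h3.1, h3.2.1, h3.2.2.1, h3.2.2.2.1, h3.2.2.2.2.1, (mem_filter.mp h4).2⟩

theorem hAdj2 (hF1 : StFar1) (hM1 : StFam1) (hA1 : StAdj1) : StAdj2 := by
  intro D m K J z
  set L := 2 * (K + J * m + m) + 2 with hL
  refine ⟨z + (K + J * m) * (2 * D + 1) ^ L + 1, ?_⟩
  intro ι V _ _ _ _ vs ng q κ A R₁ Z σ₁ a a' g g' j T' hE hAR hRc hRK hj hZ hT hP
  obtain ⟨t1, -⟩ := hM1 ι V vs ng q D κ A hE
  obtain ⟨U, s, hU, hG⟩ := hP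
  have main : ∀ t : ℕ, t ≤ J → ∀ j : ℤ, j.natAbs = t →
      ∃ R₂ σ₂, Ext vs ng q A (K + t * m) R₁ σ₁ R₂ σ₂ ∧ Disjoint (R₂ \ R₁) Z ∧
      (∀ c, lv a c R₂ σ₂ = lv a c R₁ σ₁ + j * g) ∧
      ∀ c, lv a' c R₂ σ₂ = lv a' c R₁ σ₁ + j * g' := by
    intro t
    induction t with
    | zero =>
      intro _ j hj
      have hj0 : j = 0 := by omega
      refine ⟨R₁, σ₁, Ext.rfl' hRc (by omega), by simp, ?_, ?_⟩
      · intro c
        rw [hj0]
        ring
      · intro c
        rw [hj0]
        ring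
    | succ t ih =>
      intro ht j hj
      -- the sign of `j`
      set b : Bool := decide (0 < j) with hb
      have hsg : (j - sg b).natAbs = t := by
        by_cases h : 0 < j
        · have : sg b = 1 := by simp [hb, h, sg]
          rw [this]
          omega
        · have : sg b = -1 := by simp [hb, h, sg]
          rw [this]
          omega
      obtain ⟨R₂, σ₂, hext, hdisj, hv1, hv2⟩ := ih (by omega) (j - sg b) hsg
      have hAR₂ : A ⊆ R₂ := hAR.trans hext.1
      obtain ⟨n1, n2, n3, -⟩ := hF1 ι V vs q D κ A (R₂ \ A) L hE sdiff_disjoint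
      have htm : t * m + m ≤ J * m := by
        have : (t + 1) * m ≤ J * m := Nat.mul_le_mul_right m ht
        linarith [Nat.succ_mul t m]
      have hcard : (Z ∪ near vs A L (R₂ \ A)).card < T' := by
        have h1 := card_union_le Z (near vs A L (R₂ \ A))
        have h2 : (R₂ \ A).card * (2 * D + 1) ^ L ≤ (K + J * m) * (2 * D + 1) ^ L := by
          refine Nat.mul_le_mul_right _ ?_
          have := hext.2.2.1
          omega
        omega
      obtain ⟨i, hi⟩ := exists_disjoint U hU _ hcard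
      rw [disjoint_union_right] at hi
      obtain ⟨g1, g2, g3, g4, g5, g6⟩ := hG i
      have hnear : Disjoint (U i) (near vs A (2 * (K + t * m + m) + 2) (R₂ \ A)) := by
        refine disjoint_of_subset_right ?_ hi.2
        have hm := (hF1 ι V vs q D κ A (R₂ \ A) (2 * (K + t * m + m) + 2) hE
          sdiff_disjoint).2.2.2
        exact hm (R₂ \ A) L (subset_refl _) (by omega)
      obtain ⟨σ₃, hσ₃, hval⟩ := hA1 ι V vs ng q D κ A R₂ (U i) σ₂ (s i) (K + t * m) m hE hAR₂
        hext.2.1 hext.2.2.1 g1 g2 g3 g4 hnear b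
      refine ⟨R₂ ∪ U i, σ₃, ?_, ?_, ?_, ?_⟩
      · have := t1 _ _ _ _ _ _ _ _ hext hσ₃
        refine this.mono ?_
        rw [Nat.succ_mul]
        omega
      · rw [Finset.disjoint_left] at hdisj ⊢
        intro v hv
        obtain ⟨hv', hv''⟩ := mem_sdiff.mp hv
        rcases mem_union.mp hv' with h | h
        · exact hdisj (mem_sdiff.mpr ⟨h, hv''⟩)
        · exact Finset.disjoint_left.mp hi.1 h
      · intro c
        rw [hval a c, hv1 c, g5]
        ring
      · intro c
        rw [hval a' c, hv2 c, g6]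
        ring
  have hjJ : j.natAbs ≤ J := by
    have h0 := abs_le.mp hj
    omega
  obtain ⟨R₂, σ₂, h1, h2, h3, h4⟩ := main j.natAbs hjJ j rfl
  refine ⟨R₂, σ₂, h1.mono ?_, h2, h3, h4⟩
  have : j.natAbs * m ≤ J * m := Nat.mul_le_mul_right m hjJ
  omega

end Helper3.TL
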