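import Pool.Agent.Helper3.TL.Basic

open Finset
open MP86d903 (Valid Lit inside mem_inside pt flip Clause Ineq clauseIneq vsF ngF)
open Helper80.SR (Exp Closed Cl Sm)

namespace Helper3.TL

theorem hNarr (hT : StTight) (hM1 : StFam1) (hM3 : StFam3) : StNarr := by
  intro B D M C
  obtain ⟨K₀, K₁, hT⟩ := hT B D M C 0
  refine ⟨K₁ + 3 * (K₀ + 1), ?_⟩
  intro ι V _ _ _ _ vs ng q κ A R Rq σ σq w c hE hκ hAR hRc hRM hw hodd hC0 hle hq heq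
  obtain ⟨t1, t2, t3, t4, t5, t6⟩ := hM1 ι V vs ng q D κ A hE
  obtain ⟨R₀, σ₀, hE₀, hall⟩ := hT ι V vs ng q κ A R Rq σ σq w c 0 hE (by omega) hAR hRc hRM hw
    (by simp) hC0 (fun R₁ σ₁ h => hle R₁ σ₁ (h.mono (by omega))) hq (by rw [heq])
  have hR₀c := hE₀.2.1
  have hR₀k := hE₀.2.2.1
  have hl0 := hall K₀ R₀ σ₀ (by omega) (Ext.rfl' hR₀c hR₀k)
  obtain ⟨N, h1, -⟩ := hM3 ι V vs ng q D κ A R₀ σ₀ (3 * (K₀ + 1)) w w c c 0 0 hE
    (hAR.trans hE₀.1) hR₀c (by omega) (by omega) hodd hodd (by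
      intro i _ σ₁ hσ₁
      have h2 := hall _ _ _ (by omega) hσ₁
      rw [(t5 _ _ _ _ _ w c hσ₁).1, hl0, zero_add] at h2
      exact ⟨0, by rw [h2]; ring, by rw [h2]; ring⟩)
  rw [hl0] at h1
  have h2 : (0 : ℤ) + 1 + 0 * N = 1 := by ring
  rw [h2] at h1
  exact absurd h1 (by decide)

end Helper3.TL
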