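import Pool.Agent.Helper3.TL.Basic

open Finset
open MP86d903 (Valid Lit inside mem_inside pt flip Clause Ineq clauseIneq vsF ngF)
open Helper80.SR (Exp Closed Cl Sm)

namespace Helper3.TL

theorem two_dvd_sg (x : ℤ) (b : Bool) : (2 : ℤ) ∣ x * sg b - x := by
  cases b
  · exact ⟨-x, by simp [sg]; ring⟩
  · exact ⟨0, by simp [sg]⟩

theorem hStart2 (hC : StClo1) (hM1 : StFam1) (hM2 : StFam2) : StStart2 := by
  intro ι V _ _ _ _ vs ng q D κ A R ρ σ a c g hE hκ hext hc hdiv
  obtain ⟨t1, t2, t3, t4, t5, t6⟩ := hM1 ι V vs ng q D κ A hE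
  obtain ⟨c1, c2⟩ := hM2 ι V vs q D κ A hE
  have hAc : Closed vs q A := hE.closed'
  have hA0 : (A \ A).card ≤ κ := by simp
  have hcls : ∀ i ∉ R, Disjoint (Cl vs q (insert i A) \ A) R := by
    intro i hi
    rw [Finset.disjoint_left]
    intro j hj hjR
    obtain ⟨hj1, hj2⟩ := mem_sdiff.mp hj
    have h1 := c1 A i j (subset_refl A) hAc hA0 hj1 hj2
    have h2 : Cl vs q (insert j A) ⊆ R :=
      Helper80.SR.Cl_subset hext.2.1 (insert_subset hjR hext.1)
    rw [h1] at h2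
    exact hi (h2 (mem_cl_insert i A))
  refine ⟨?_, ?_⟩
  · intro R₁ σ₁ h
    rw [(t5 _ _ _ _ _ a c h).1, add_sub_cancel_left]
    refine c2 A (R₁ \ R) (fun i => a i * sg (σ₁ i)) g (subset_refl A) hAc hA0 ?_ ?_
    · intro i hi
      obtain ⟨hi1, hi2⟩ := mem_sdiff.mp hi
      refine ⟨fun h' => hi2 (hext.1 h'), ?_⟩
      intro j hj
      refine mem_sdiff.mpr ⟨?_, Finset.disjoint_left.mp (hcls i hi2) hj⟩
      exact Helper80.SR.Cl_subset h.2.1 (insert_subset hi1 (hext.1.trans h.1))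
        (mem_sdiff.mp hj).1
    · intro i hi
      obtain ⟨hi1, hi2⟩ := mem_sdiff.mp hi
      refine hdiv i hi2 σ₁ ⟨subset_cl_insert i A, Helper80.SR.closed_Cl q _,
        card_class_le hC hE i hκ, ?_, ?_⟩
      · intro j hj
        rw [h.2.2.2.1 j (hext.1 hj), hext.2.2.2.1 j hj]
      · intro cl hcl hncl
        have h1 : vs cl ⊆ R₁ := hcl.trans
          (Helper80.SR.Cl_subset h.2.1 (insert_subset hi1 (hext.1.trans h.1)))
        have h2 : ¬ vs cl ⊆ R := by
          intro h3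
          apply hncl
          intro v hv
          by_contra hvA
          exact Finset.disjoint_left.mp (hcls i hi2) (mem_sdiff.mpr ⟨hcl hv, hvA⟩) (h3 hv)
        obtain ⟨u, hu, w, hw, hl⟩ := h.2.2.2.2 cl h1 h2
        have hsub : vs cl \ R ⊆ vs cl \ A := sdiff_subset_sdiff (subset_refl _) hext.1
        exact ⟨u, hsub hu, w, hsub hw, hl⟩
  · intro hg
    subst hg
    have h2 : (2 : ℤ) ∣ ∑ i ∈ Rᶜ, a i := by
      refine c2 A Rᶜ a 2 (subset_refl A) hAc hA0 ?_ ?_
      · intro i hi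
        rw [mem_compl] at hi
        refine ⟨fun h' => hi (hext.1 h'), ?_⟩
        intro j hj
        rw [mem_compl]
        exact Finset.disjoint_left.mp (hcls i hi) hj
      · intro i hi
        rw [mem_compl] at hi
        obtain ⟨σ₁, hσ₁⟩ := t4 3 A ρ (Cl vs q (insert i A)) (subset_refl A) hAc
          (subset_cl_insert i A) (Helper80.SR.closed_Cl q _) (card_class_le hC hE i hκ) hκ
        have h3 := hdiv i hi σ₁ hσ₁
        rw [zero_dvd_iff] at h3
        have h4 : (2 : ℤ) ∣ ∑ j ∈ Cl vs q (insert i A) \ A, (a j * sg (σ₁ j) - a j) :=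
          Finset.dvd_sum (fun j _ => two_dvd_sg (a j) (σ₁ j))
        rw [sum_sub_distrib, h3, zero_sub] at h4
        exact (dvd_neg).mp h4
    unfold lv
    rw [MP86d903.sum_pt_eq]
    obtain ⟨r, hr⟩ := h2
    obtain ⟨s, hs⟩ := hc
    rw [hr, hs]
    exact ⟨∑ i ∈ R, a i * (if σ i = true then 1 else 0) + r + s, by ring⟩

end Helper3.TL
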