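import Pool.Agent.Helper3.TL.Basic

open Finset
open MP86d903 (Valid Lit inside mem_inside pt flip Clause Ineq clauseIneq vsF ngF)
open Helper80.SR (Exp Closed Cl Sm)

namespace Helper3.TL

theorem hTight (hC : StClo1) (hF1 : StFar1) (hM1 : StFam1) (hM2 : StFam2) (hM4 : StFam4)
    (hA1 : StAdj1) : StTight := by
  intro B D M C H
  set P := H + C + 1 with hP
  set L := 2 * (M + 3 * P + 3) + 2 with hL
  set N₁ := 3 * ((M + 3 * P) * (2 * D + 1) ^ L) with hN₁
  set K₀ := 3 * (M + N₁) with hK₀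
  refine ⟨K₀, 3 * (K₀ + 1) + 3 * (M + 1) + 3 * P + 3, ?_⟩
  intro ι V _ _ _ _ vs ng q κ A R Rq σ σq d d₀ μ hE hκ hAR hRc hRM hd hμ hC0 hle hq hge
  classical
  obtain ⟨t1, t2, t3, t4, t5, t6⟩ := hM1 ι V vs ng q D κ A hE
  obtain ⟨c1, c2⟩ := hM2 ι V vs q D κ A hE
  have hAc : Closed vs q A := hE.closed'
  set Bad := (univ : Finset V).filter (fun i => i ∉ R ∧
    ∃ σ₁, Ext vs ng q A (3 * (M + 1)) R σ (Cl vs q (insert i R)) σ₁ ∧
      ∑ j ∈ Cl vs q (insert i R) \ R, d j * sg (σ₁ j) ≠ 0) with hBad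
  -- (1)
  have hBadc : Bad.card ≤ N₁ := by
    by_contra hcon
    rw [not_le] at hcon
    have chain : ∀ t ≤ P, ∃ Rt σt, Ext vs ng q A (M + 3 * t) R σ Rt σt ∧
        -(C : ℤ) + t ≤ lv d d₀ Rt σt := by
      intro t
      induction t with
      | zero =>
        intro _
        exact ⟨R, σ, Ext.rfl' hRc (by omega), by simpa using hC0⟩
      | succ t ih =>
        intro ht
        obtain ⟨Rt, σt, hext, hlv⟩ := ih (by omega)
        have hARt : A ⊆ Rt := hAR.trans hext.1
        have hdisjRt : Disjoint (Rt \ A) A := sdiff_disjoint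
        obtain ⟨n1, n2, n3, n4⟩ := hF1 ι V vs q D κ A (Rt \ A) L hE hdisjRt
        obtain ⟨i, hiBad, hfar⟩ : ∃ i ∈ Bad,
            Disjoint (Cl vs q (insert i A) \ A) (near vs A L (Rt \ A)) := by
          by_contra hno
          push Not at hno
          have hsub : Bad ⊆ (near vs A L (Rt \ A)).biUnion
              (fun j => Cl vs q (insert j A) \ A) := by
            intro i hi
            have h1 := hno i hi
            rw [Finset.not_disjoint_iff] at h1
            obtain ⟨j, hj1, hj2⟩ := h1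
            have h2 := c1 A i j (subset_refl A) hAc (by simp) (mem_sdiff.mp hj1).1
              (mem_sdiff.mp hj1).2
            refine mem_biUnion.mpr ⟨j, hj2, mem_sdiff.mpr ⟨?_, ?_⟩⟩
            · rw [h2]
              exact mem_cl_insert i A
            · intro hiA
              exact (mem_filter.mp hi).2.1 (hAR hiA)
          have h3 := (card_le_card hsub).trans (card_biUnion_le_card_mul _ _ 3
            (fun j _ => card_class_le hC hE j (by omega)))
          have h4 : (Rt \ A).card * (2 * D + 1) ^ L ≤ (M + 3 * P) * (2 * D + 1) ^ L := by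
            refine Nat.mul_le_mul_right _ ?_
            have := hext.2.2.1
            omega
          omega
        obtain ⟨-, hiR, σ₁, hσ₁, hne⟩ := mem_filter.mp hiBad
        have hdR : Disjoint (Cl vs q (insert i A) \ A) (near vs A (2 * (M + 3) + 2) (R \ A)) := by
          refine disjoint_of_subset_right ?_ hfar
          have hm := (hF1 ι V vs q D κ A (R \ A) (2 * (M + 3) + 2) hE sdiff_disjoint).2.2.2
          exact hm (Rt \ A) L (sdiff_subset_sdiff hext.1 (subset_refl _)) (by omega)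
        obtain ⟨w1, w2, w3, w4⟩ := hM4 ι V vs ng q D κ A R σ M (3 * (M + 1)) i hE (by omega) hAR
          hRc hRM hiR hdR
        set W := Cl vs q (insert i A) \ A with hW
        have hbal := w4 σ₁ hσ₁
        have hAW : A ∪ W = Cl vs q (insert i A) := union_class i
        have hWs : Cl vs q (insert i R) \ R = W := by
          rw [w3, union_sdiff_left]
          exact sdiff_eq_self_of_disjoint w2
        rw [hWs] at hne
        have hnear : Disjoint W (near vs A (2 * (M + 3 * t + 3) + 2) (Rt \ A)) := by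
          refine disjoint_of_subset_right ?_ hfar
          have hm := (hF1 ι V vs q D κ A (Rt \ A) (2 * (M + 3 * t + 3) + 2) hE
            sdiff_disjoint).2.2.2
          exact hm (Rt \ A) L (subset_refl _) (by omega)
        obtain ⟨σ₂, hσ₂, hval⟩ := hA1 ι V vs ng q D κ A Rt W σt σ₁ (M + 3 * t) 3 hE hARt
          hext.2.1 hext.2.2.1 sdiff_disjoint w1 (by rw [hAW]; exact Helper80.SR.closed_Cl q _)
          (by rw [hAW]; exact hbal) hnear (decide (0 < ∑ j ∈ W, d j * sg (σ₁ j)))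
        refine ⟨Rt ∪ W, σ₂, ?_, ?_⟩
        · have := t1 _ _ _ _ _ _ _ _ hext hσ₂
          exact this.mono (by omega)
        · rw [hval d d₀]
          push_cast
          generalize (∑ j ∈ W, d j * sg (σ₁ j)) = S at hne ⊢
          by_cases hpos : 0 < S
          · have h1 : sg (decide (0 < S)) = 1 := by simp [hpos, sg]
            rw [h1]
            omega
          · have h1 : sg (decide (0 < S)) = -1 := by simp [hpos, sg]
            rw [h1]
            omega
    obtain ⟨Rt, σt, hext, hlv⟩ := chain P le_rfl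
    have h1 := hle Rt σt (hext.mono (by omega))
    have h2 := (abs_le.mp hμ).2
    rw [hP] at hlv
    push_cast at hlv
    omega
  -- (2)
  set C' := Cl vs q (R ∪ Bad) with hC'
  have hC'c : Closed vs q C' := Helper80.SR.closed_Cl q _
  have hC'card : (C' \ A).card ≤ K₀ := by
    have h1 : (C' \ A).card ≤ 3 * ((R \ A).card + Bad.card) :=
      hC ι V vs q D κ A R Bad hE hAR (by omega)
    omega
  have hRC' : R ⊆ C' := subset_union_left.trans (Helper80.SR.subset_Cl q _)
  have hBadC' : Bad ⊆ C' := subset_union_right.trans (Helper80.SR.subset_Cl q _)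
  set R₀ := Rq ∩ C' with hR₀
  have hR₀c : Closed vs q R₀ := Helper80.SR.Closed.inter hq.2.1 hC'c
  have hRR₀ : R ⊆ R₀ := subset_inter hq.1 hRC'
  have hR₀card : (R₀ \ A).card ≤ K₀ :=
    (card_le_card (sdiff_subset_sdiff inter_subset_right (subset_refl _))).trans hC'card
  have hAR₀ : A ⊆ R₀ := hAR.trans hRR₀
  have hE₀ : Ext vs ng q A K₀ R σ R₀ σq := t3 _ _ _ _ _ _ _ hq hR₀c hRR₀ inter_subset_left hR₀card
  have hRκ : (R \ A).card ≤ κ := by omega
  have hR₀κ : (R₀ \ A).card ≤ κ := by omega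
  have hsumq : ∑ i ∈ Rq \ R₀, d i * sg (σq i) = 0 := by
    have h0 : (0 : ℤ) ∣ ∑ i ∈ Rq \ R₀, d i * sg (σq i) := by
      refine c2 R (Rq \ R₀) (fun i => d i * sg (σq i)) 0 hAR hRc hRκ ?_ ?_
      · intro i hi
        obtain ⟨hiq, hi0⟩ := mem_sdiff.mp hi
        have hiR : i ∉ R := fun h => hi0 (hRR₀ h)
        refine ⟨hiR, ?_⟩
        intro j hj
        obtain ⟨hj1, hj2⟩ := mem_sdiff.mp hj
        have hjq : j ∈ Rq :=
          Helper80.SR.Cl_subset hq.2.1 (insert_subset hiq hq.1) hj1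
        refine mem_sdiff.mpr ⟨hjq, fun hj0 => ?_⟩
        have hjC : j ∈ C' := (mem_inter.mp hj0).2
        have h1 := c1 R i j hAR hRc hRκ hj1 hj2
        have h2 : Cl vs q (insert j R) ⊆ C' := Helper80.SR.Cl_subset hC'c (insert_subset hjC hRC')
        rw [h1] at h2
        exact hi0 (mem_inter.mpr ⟨hiq, h2 (mem_cl_insert i R)⟩)
      · intro i hi
        obtain ⟨hiq, hi0⟩ := mem_sdiff.mp hi
        have hiR : i ∉ R := fun h => hi0 (hRR₀ h)
        have hiBad : i ∉ Bad := fun h => hi0 (mem_inter.mpr ⟨hiq, hBadC' h⟩)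
        rw [zero_dvd_iff]
        by_contra hne
        apply hiBad
        refine mem_filter.mpr ⟨mem_univ _, hiR, σq, ?_, hne⟩
        exact t3 _ _ _ _ _ _ _ hq (Helper80.SR.closed_Cl q _) (subset_cl_insert i R)
          (Helper80.SR.Cl_subset hq.2.1 (insert_subset hiq hq.1))
          (card_class hC hE hAR i hRM (by omega))
    exact zero_dvd_iff.mp h0
  have hlv0 : lv d d₀ R₀ σq = lv d d₀ Rq σq := by
    rw [(t5 _ _ _ _ _ d d₀ hE₀).1, (t5 _ _ _ _ _ d d₀ hq).1]
    have h1 : Rq \ R = (R₀ \ R) ∪ (Rq \ R₀) := by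
      ext v
      simp only [mem_sdiff, mem_union]
      constructor
      · rintro ⟨h1, h2⟩
        by_cases h3 : v ∈ R₀
        · exact Or.inl ⟨h3, h2⟩
        · exact Or.inr ⟨h1, h3⟩
      · rintro (⟨h1, h2⟩ | ⟨h1, h2⟩)
        · exact ⟨(mem_inter.mp h1).1, h2⟩
        · exact ⟨h1, fun h => h2 (hRR₀ h)⟩
    have h2 : Disjoint (R₀ \ R) (Rq \ R₀) := by
      rw [Finset.disjoint_left]
      intro v hv hv'
      exact (mem_sdiff.mp hv').2 (mem_sdiff.mp hv).1
    rw [h1, sum_union h2, hsumq]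
    ring
  have hμ0 : lv d d₀ R₀ σq = μ := by
    have h1 := hle R₀ σq (hE₀.mono (by omega))
    omega
  refine ⟨R₀, σq, hE₀, ?_⟩
  -- (3)
  have hcls : ∀ i ∉ R₀, ∀ σ₁, Ext vs ng q A (3 * (K₀ + 1)) R₀ σq (Cl vs q (insert i R₀)) σ₁ →
      ∑ j ∈ Cl vs q (insert i R₀) \ R₀, d j * sg (σ₁ j) = 0 := by
    intro i hi σ₁ hσ₁
    have h1 := t1 _ _ _ _ _ _ _ _ hE₀ hσ₁
    have h2 := t1 _ _ _ _ _ _ _ _ hE₀ (t2 _ _ _ _ _ hσ₁)
    have h3 := hle _ _ (h1.mono (by omega))
    have h4 := hle _ _ (h2.mono (by omega))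
    obtain ⟨h5, h6⟩ := t5 _ _ _ _ _ d d₀ hσ₁
    rw [h5, hμ0] at h3
    rw [h6, hμ0] at h4
    omega
  intro K' R₂ σ₂ _ hR₂
  rw [(t5 _ _ _ _ _ d d₀ hR₂).1, hμ0]
  have h0 : (0 : ℤ) ∣ ∑ i ∈ R₂ \ R₀, d i * sg (σ₂ i) := by
    refine c2 R₀ (R₂ \ R₀) (fun i => d i * sg (σ₂ i)) 0 hAR₀ hR₀c hR₀κ ?_ ?_
    · intro i hi
      obtain ⟨hi2, hi0⟩ := mem_sdiff.mp hi
      refine ⟨hi0, ?_⟩
      exact sdiff_subset_sdiff (Helper80.SR.Cl_subset hR₂.2.1 (insert_subset hi2 hR₂.1))
        (subset_refl _)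
    · intro i hi
      obtain ⟨hi2, hi0⟩ := mem_sdiff.mp hi
      rw [zero_dvd_iff]
      refine hcls i hi0 σ₂ ?_
      exact t3 _ _ _ _ _ _ _ hR₂ (Helper80.SR.closed_Cl q _) (subset_cl_insert i R₀)
        (Helper80.SR.Cl_subset hR₂.2.1 (insert_subset hi2 hR₂.1))
        (card_class hC hE hAR₀ i hR₀card (by omega))
  rw [zero_dvd_iff.mp h0, add_zero]

end Helper3.TL
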