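import Pool.Agent.Helper80.CP.Defs

/-!
Tree-like cutting planes refutations (MP_86d903_lc): definitions.
-/

open Finset MP86d903

namespace Helper3.TL

/-- Tree-like derivations from `m` clauses in `n` variables: the leaves are clauses and the axioms
`x v ≥ 0` and `-x v ≥ -1`; `comb α β s t` combines the inequalities derived by `s` and `t` with the
nonnegative integer factors `α` and `β`, and `div c t` divides the inequality derived by `t` by `c` and
rounds up the right hand side. -/
inductive Tree (n m : ℕ)
  | clause (k : Fin m)
  | lower (v : Fin n)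
  | upper (v : Fin n)
  | comb (α β : ℕ) (s t : Tree n m)
  | div (c : ℕ) (t : Tree n m)

variable {n m : ℕ}

/-- The inequality at the root of a derivation. -/
def Tree.line (F : Fin m → Clause n) : Tree n m → Ineq n
  | .clause k => clauseIneq (F k)
  | .lower v => ⟨Pi.single v 1, 0⟩
  | .upper v => ⟨Pi.single v (-1), -1⟩
  | .comb α β s t =>
      ⟨fun v => α * (s.line F).coef v + β * (t.line F).coef v,
        α * (s.line F).rhs + β * (t.line F).rhs⟩
  | .div c t => ⟨fun v => (t.line F).coef v / c, ⌈((t.line F).rhs : ℚ) / c⌉⟩

/-- All division steps are legal: the divisor is positive and divides all coefficients. -/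
def Tree.Legal (F : Fin m → Clause n) : Tree n m → Prop
  | .clause _ => True
  | .lower _ => True
  | .upper _ => True
  | .comb _ _ s t => s.Legal F ∧ t.Legal F
  | .div c t => 1 ≤ c ∧ (∀ v, (c : ℤ) ∣ (t.line F).coef v) ∧ t.Legal F

/-- The number of division steps. -/
def Tree.divs : Tree n m → ℕ
  | .clause _ => 0
  | .lower _ => 0
  | .upper _ => 0
  | .comb _ _ s t => s.divs + t.divs
  | .div _ t => t.divs + 1

/-- `s` is a subtree of `t`. -/
inductive Tree.Sub : Tree n m → Tree n m → Prop
  | refl (t : Tree n m) : Tree.Sub t t
  | left {r : Tree n m} (α β : ℕ) (s t : Tree n m) : Tree.Sub r s → Tree.Sub r (.comb α β s t)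
  | right {r : Tree n m} (α β : ℕ) (s t : Tree n m) : Tree.Sub r t → Tree.Sub r (.comb α β s t)
  | down {r : Tree n m} (c : ℕ) (t : Tree n m) : Tree.Sub r t → Tree.Sub r (.div c t)

end Helper3.TL
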