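import Pool.Agent.Helper3.TL.Basic

open Finset
open MP86d903 (Valid Lit inside mem_inside pt flip Clause Ineq clauseIneq vsF ngF)
open Helper80.SR (Exp Closed Cl Sm)

namespace Helper3.TL

section
variable {ι V : Type} [DecidableEq ι] [Fintype ι] [DecidableEq V] [Fintype V]
  {vs ng : ι → Finset V} {q D κ : ℕ} {A : Finset V}

theorem lv_lin (a w : V → ℤ) (c cw g τ : ℤ) (R : Finset V) (σ : V → Bool) :
    lv (fun i => g * w i - τ * a i) (g * cw - τ * c) R σ = g * lv w cw R σ - τ * lv a c R σ := by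
  unfold lv
  rw [mul_add, mul_add, mul_sum, mul_sum]
  have : ∑ i, (g * w i - τ * a i) * pt R σ i =
      ∑ i, g * (w i * pt R σ i) - ∑ i, τ * (a i * pt R σ i) := by
    rw [← sum_sub_distrib]
    exact sum_congr rfl (fun i _ => by ring)
  rw [this]
  ring

theorem Pool.sub {T T' m : ℕ} {a a' : V → ℤ} {g g' : ℤ} (h : T' ≤ T)
    (hP : Pool vs ng q A T m a a' g g') : Pool vs ng q A T' m a a' g g' := by
  obtain ⟨U, s, h1, h2⟩ := hP
  exact ⟨fun i => U (Fin.castLE h i), fun i => s (Fin.castLE h i),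
    fun i j hij => h1 _ _ (fun h3 => hij (Fin.castLE_injective h h3)), fun i => h2 _⟩

theorem Pool.snd {T m : ℕ} {a a' : V → ℤ} {g g' : ℤ}
    (hP : Pool vs ng q A T m a a' g g') : Pool vs ng q A T m a' a' g' g' := by
  obtain ⟨U, s, h1, h2⟩ := hP
  exact ⟨U, s, h1, fun i => ⟨(h2 i).1, (h2 i).2.1, (h2 i).2.2.1, (h2 i).2.2.2.1,
    (h2 i).2.2.2.2.2, (h2 i).2.2.2.2.2⟩⟩

end

theorem hEvent (hT : StTight) (hM1 : StFam1) (hM3 : StFam3) (hA2 : StAdj2) (hPl : StPool) :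
    StEvent := by
  intro B D m M C G
  obtain ⟨K₀, K₁, hT⟩ := hT (G * B + B * m * B) D M (G * C) (B * m * G)
  set J₁ := 2 * G + B * K₁ with hJ₁
  set J₀ := 2 * G + B * K₀ with hJ₀
  refine ⟨K₀ + J₀ * m, ?_⟩
  intro T'
  obtain ⟨Ta, hAa⟩ := hA2 D m M (C + 1) 0
  obtain ⟨Tb, hAb⟩ := hA2 D m K₁ J₁ 0
  obtain ⟨Tc, hAc⟩ := hA2 D m K₀ J₀ 0
  set T₁ := Ta + Tb + Tc + T' with hT₁
  obtain ⟨T, hPl⟩ := hPl B m T₁
  refine ⟨M + (C + 1) * m + (K₁ + J₁ * m) + 3 * (K₀ + J₀ * m + 1) + K₁, T, ?_⟩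
  intro ι V _ _ _ _ vs ng q κ A R Rq σ σq a w c cw g e hE hκ hAR hRc hRM ha hw hc hcw hg hgG he0
    heg hlv hclean hpool hCw hX hq hq1 hq0
  obtain ⟨t1, t2, t3, t4, t5, t6⟩ := hM1 ι V vs ng q D κ A hE
  obtain ⟨τ, hτ, hP⟩ := hPl ι V vs ng q A a a w g g hw hpool
  have hτ2 := (abs_le.mp hτ).2
  -- e'
  obtain ⟨e', he'1, he'g, he'e, he'0⟩ : ∃ e' : ℤ, 1 ≤ e' ∧ e' ≤ g ∧ g ∣ e' - e ∧
      (e = 0 → e' = g) := by
    by_cases h : e = 0
    · exact ⟨g, hg, le_rfl, by rw [h, sub_zero], fun _ => rfl⟩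
    · exact ⟨e, by omega, heg.le, by simp, fun h' => absurd h' h⟩
  -- (1)
  have hτ0 : 0 ≤ τ := by
    by_contra hneg
    rw [not_le] at hneg
    obtain ⟨R₂, σ₂, h1, -, h2, h3⟩ := hAa ι V vs ng q κ A R ∅ σ a w g τ (-((C : ℤ) + 1)) T₁ hE hAR
      hRc hRM (by rw [abs_neg, abs_of_nonneg (by positivity)]; push_cast; omega) (by simp)
      (by omega) hP
    have h4 := h2 c
    have h5 := h3 cw
    have h6 := hX R₂ σ₂ (h1.mono (by omega)) (by
      rw [h4, hlv]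
      nlinarith)
    rw [h5] at h6
    nlinarith
  -- a bound for values
  have hbd : ∀ K R₁ σ₁, Ext vs ng q A K R σ R₁ σ₁ → |lv a c R₁ σ₁| ≤ G + B * K := by
    intro K R₁ σ₁ h
    rw [(t5 _ _ _ _ _ a c h).1, hlv]
    have h1 : |∑ i ∈ R₁ \ R, a i * sg (σ₁ i)| ≤ B * (R₁ \ R).card := sum_sg_le ha σ₁
    have h2 : (R₁ \ R).card ≤ K :=
      (card_le_card (sdiff_subset_sdiff (subset_refl _) hAR)).trans h.2.2.1
    have h3 : (B : ℤ) * ((R₁ \ R).card : ℤ) ≤ B * K := by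
      refine mul_le_mul_of_nonneg_left ?_ (by positivity)
      exact_mod_cast h2
    have h4 := abs_add_le (-e) (∑ i ∈ R₁ \ R, a i * sg (σ₁ i))
    rw [abs_neg, abs_of_nonneg he0] at h4
    omega
  -- the number of gadgets for the adjustment to `-e'`
  have hadj : ∀ K R₁ σ₁, K ≤ κ → Ext vs ng q A K R σ R₁ σ₁ → ∃ j : ℤ,
      lv a c R₁ σ₁ + j * g = -e' ∧ |j| ≤ ((2 * G + B * K : ℕ) : ℤ) := by
    intro K R₁ σ₁ hK h
    have h1 := hclean R₁ σ₁ (h.mono hK)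
    obtain ⟨j, hj⟩ : g ∣ -e' - lv a c R₁ σ₁ := by
      have h2 : -e' - lv a c R₁ σ₁ = -(e' - e) - (lv a c R₁ σ₁ + e) := by ring
      rw [h2]
      exact dvd_sub ((dvd_neg).mpr he'e) h1
    refine ⟨j, by linarith [hj, mul_comm g j], ?_⟩
    have h3 : |j| ≤ |g * j| := by
      rw [abs_mul]
      have h4 : 1 ≤ |g| := by
        rw [abs_of_nonneg (by omega)]
        exact hg
      nlinarith [abs_nonneg j]
    rw [← hj] at h3
    have h5 := hbd K R₁ σ₁ h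
    have h6 := abs_sub (-e') (lv a c R₁ σ₁)
    rw [abs_neg, abs_of_nonneg (by omega : (0 : ℤ) ≤ e')] at h6
    push_cast
    omega
  set d : V → ℤ := fun i => g * w i - τ * a i with hd
  set d₀ : ℤ := g * cw - τ * c with hd₀
  have hD : ∀ R₁ σ₁, lv d d₀ R₁ σ₁ = g * lv w cw R₁ σ₁ - τ * lv a c R₁ σ₁ :=
    fun R₁ σ₁ => lv_lin a w c cw g τ R₁ σ₁
  -- (2)
  have hDle : ∀ R₁ σ₁, Ext vs ng q A K₁ R σ R₁ σ₁ → lv d d₀ R₁ σ₁ ≤ τ * e' := by
    intro R₁ σ₁ h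
    obtain ⟨j, hj1, hj2⟩ := hadj K₁ R₁ σ₁ (by omega) h
    obtain ⟨R₂, σ₂, h1, -, h2, h3⟩ := hAb ι V vs ng q κ A R₁ ∅ σ₁ a w g τ j T₁ hE (hAR.trans h.1)
      h.2.1 h.2.2.1 hj2 (by simp) (by omega) hP
    have h4 := h2 c
    have h5 := h3 cw
    have h6 := hX R₂ σ₂ ((t1 _ _ _ _ _ _ _ _ h h1).mono (by omega)) (by rw [h4, hj1]; omega)
    rw [hD]
    rw [hj1] at h4
    rw [h5] at h6
    have h7 : τ * lv a c R₁ σ₁ = -(τ * e') - τ * j * g := by
      have : lv a c R₁ σ₁ = -e' - j * g := by linarith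
      rw [this]
      ring
    rw [h7]
    nlinarith
  -- (3)
  have hDq : τ * e' ≤ lv d d₀ Rq σq := by
    rw [hD, hq0]
    have h1 := hclean Rq σq hq
    have h2 : lv a c Rq σq ≤ -e' := by
      obtain ⟨k, hk⟩ := h1
      obtain ⟨l, hl⟩ := he'e
      -- lv = g (k + l) - e'
      have h3 : lv a c Rq σq = g * (k + l) - e' := by
        rw [mul_add]
        linarith
      by_contra hcon
      rw [not_le, h3] at hcon
      have h4 : 0 < g * (k + l) := by linarith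
      have h5 : 0 < k + l := by
        by_contra h6
        rw [not_lt] at h6
        nlinarith
      have h7 : g ≤ g * (k + l) := by nlinarith
      rw [h3] at hq1
      omega
    nlinarith
  -- (4)
  have hdabs : ∀ i, |d i| ≤ ((G * B + B * m * B : ℕ) : ℤ) := by
    intro i
    have h1 : |g * w i| ≤ G * B := by
      rw [abs_mul, abs_of_nonneg (by omega : (0 : ℤ) ≤ g)]
      have := hw i
      have := abs_nonneg (w i)
      nlinarith
    have h2 : |τ * a i| ≤ B * m * B := by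
      rw [abs_mul]
      exact mul_le_mul hτ (ha i) (abs_nonneg _) (by positivity)
    have h3 := abs_sub (g * w i) (τ * a i)
    push_cast
    simp only [hd]
    linarith
  have hDR : -((G * C : ℕ) : ℤ) ≤ lv d d₀ R σ := by
    rw [hD, hlv]
    push_cast
    have h1 : 0 ≤ τ * e := mul_nonneg hτ0 he0
    have h2 : (0 : ℤ) ≤ C := Int.natCast_nonneg C
    have h3 : g * (C : ℤ) ≤ G * C := mul_le_mul_of_nonneg_right hgG h2
    nlinarith
  have hμ : |τ * e'| ≤ ((B * m * G : ℕ) : ℤ) := by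
    rw [abs_mul, abs_of_nonneg (by omega : (0 : ℤ) ≤ e')]
    push_cast
    exact mul_le_mul hτ (by omega) (by omega) (by positivity)
  obtain ⟨R₀, σ₀, hE₀, hall⟩ := hT ι V vs ng q κ A R Rq σ σq d d₀ (τ * e') hE (by omega) hAR hRc hRM
    hdabs hμ hDR hDle hq hDq
  -- (5)
  obtain ⟨j, hj1, hj2⟩ := hadj K₀ R₀ σ₀ (by omega) hE₀
  obtain ⟨R', σ', h1, -, h2, h3⟩ := hAc ι V vs ng q κ A R₀ ∅ σ₀ a w g τ j T₁ hE (hAR.trans hE₀.1)
    hE₀.2.1 hE₀.2.2.1 hj2 (by simp) (by omega) hP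
  have hlv' : lv a c R' σ' = -e' := by
    rw [h2 c, hj1]
  have hext' : Ext vs ng q A (K₀ + J₀ * m) R σ R' σ' := t1 _ _ _ _ _ _ _ _ hE₀ h1
  have hD' : ∀ K' R₂ σ₂, K' ≤ κ → Ext vs ng q A K' R' σ' R₂ σ₂ → lv d d₀ R₂ σ₂ = τ * e' :=
    fun K' R₂ σ₂ hK' h => hall K' R₂ σ₂ hK' (t1 _ _ _ _ _ _ _ _ h1 h)
  have hM'κ : K₀ + J₀ * m ≤ κ := by omega
  have hw' : lv w cw R' σ' = 0 := by
    have h4 := hD' _ R' σ' hM'κ (Ext.rfl' h1.2.1 h1.2.2.1)
    rw [hD, hlv'] at h4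
    have h5 : g * lv w cw R' σ' = 0 := by linarith
    rcases mul_eq_zero.mp h5 with h | h
    · omega
    · exact h
  -- values at the extensions of (R', σ')
  have hval : ∀ K' R₂ σ₂, K' ≤ κ → Ext vs ng q A K' R' σ' R₂ σ₂ →
      ∃ t : ℤ, lv a c R₂ σ₂ = -e' + g * t ∧ lv w cw R₂ σ₂ = τ * t := by
    intro K' R₂ σ₂ hK' h
    have h4 := hD' K' R₂ σ₂ hK' h
    obtain ⟨k, hk⟩ := hclean R₂ σ₂ ((t1 _ _ _ _ _ _ _ _ hext' h).mono hK')
    obtain ⟨l, hl⟩ := he'e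
    have h5 : lv a c R₂ σ₂ = -e' + g * (k + l) := by
      rw [mul_add]
      linarith
    refine ⟨k + l, h5, ?_⟩
    rw [hD, h5] at h4
    have h6 : g * (lv w cw R₂ σ₂ - τ * (k + l)) = 0 := by
      have : g * (lv w cw R₂ σ₂ - τ * (k + l)) =
        g * lv w cw R₂ σ₂ - τ * (-e' + g * (k + l)) - τ * e' := by ring
      rw [this, h4]
      ring
    rcases mul_eq_zero.mp h6 with h | h
    · omega
    · linarith
  -- (6)
  obtain ⟨N, hN1, hN2⟩ := hM3 ι V vs ng q D κ A R' σ' (3 * (K₀ + J₀ * m + 1)) a w c cw g τ hE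
    (hAR.trans hext'.1) h1.2.1 (by have := h1.2.2.1; omega) (by omega) hc hcw (by
      intro i _ σ₁ hσ₁
      obtain ⟨t, ht1, ht2⟩ := hval _ _ _ (by omega) hσ₁
      rw [(t5 _ _ _ _ _ a c hσ₁).1, hlv'] at ht1
      rw [(t5 _ _ _ _ _ w cw hσ₁).1, hw'] at ht2
      exact ⟨t, by linarith, by linarith⟩)
  rw [hlv'] at hN1
  rw [hw'] at hN2
  have hτN : Odd (τ * N) := by
    rw [zero_add] at hN2
    rcases Int.even_or_odd (τ * N) with h | h
    · exfalso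
      have : Odd (1 + τ * N) := by
        rw [add_comm]
        exact h.add_one
      exact (Int.not_even_iff_odd.mpr this) hN2
    · exact h
  have hτodd : Odd τ := (Int.odd_mul.mp hτN).1
  have hNodd : Odd N := (Int.odd_mul.mp hτN).2
  have hτ1 : 1 ≤ τ := by
    obtain ⟨r, hr⟩ := hτodd
    omega
  have he1 : 1 ≤ e := by
    by_contra hcon
    have he : e = 0 := by omega
    rw [he'0 he] at hN1
    obtain ⟨r, hr⟩ := hNodd
    rw [hr] at hN1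
    have h4 : -g + 1 + g * (2 * r + 1) = 2 * (g * r) + 1 := by ring
    rw [h4] at hN1
    have h5 : Odd (2 * (g * r) + 1) := ⟨g * r, rfl⟩
    exact (Int.not_even_iff_odd.mpr h5) hN1
  refine ⟨he1, τ, R', σ', hτ1, hτ2, hext', hw', ?_, ?_⟩
  · intro R₂ σ₂ h
    obtain ⟨t, -, ht⟩ := hval κ R₂ σ₂ le_rfl h
    exact ⟨t, ht⟩
  · exact (hP.snd).sub (by omega)

end Helper3.TL
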