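import Pool.Agent.Helper3.TL.M_PATH

/-!
The global induction for the path form.
-/

open Finset
open MP86d903 (Valid Lit inside mem_inside pt flip Clause Ineq clauseIneq vsF ngF)
open Helper80.SR (Exp Closed Cl Sm)

namespace Helper3.TL

section
variable {n m : ℕ} {F : Fin m → Clause n}

open Classical in
/-- The largest number of division steps of the kind `E` on a branch of a derivation. -/
noncomputable def Tree.most (E : ℕ → Tree n m → Prop) : Tree n m → ℕ
  | .clause _ => 0
  | .lower _ => 0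
  | .upper _ => 0
  | .comb _ _ s t => max (s.most E) (t.most E)
  | .div c t => t.most E + if E c t then 1 else 0

theorem Tree.Sub.most_le {E : ℕ → Tree n m → Prop} {s t : Tree n m} (h : Tree.Sub s t) :
    s.most E ≤ t.most E := by
  induction h with
  | refl => exact le_rfl
  | left α β s t _ ih => exact ih.trans (le_max_left _ _)
  | right α β s t _ ih => exact ih.trans (le_max_right _ _)
  | down c t _ ih => exact ih.trans (Nat.le_add_right _ _)

theorem Tree.Sub.most_lt {E : ℕ → Tree n m → Prop} {c : ℕ} {s t : Tree n m} (hE : E c s)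
    (h : Tree.Sub (.div c s) t) : s.most E + 1 ≤ t.most E := by
  have h1 := h.most_le (E := E)
  have h2 : (Tree.div c s).most E = s.most E + 1 := by
    classical
    change s.most E + (if E c s then 1 else 0) = s.most E + 1
    rw [if_pos hE]
  omega

/-- A division step costs one class. -/
theorem div_step (hM1 : StFam1) (hM3 : StFam3) (hT2 : StTree2) {q D κ κ' : ℕ}
    (hκ : 3 * (κ + 1) ≤ κ') {A : Finset (Fin n)} (hE : Env (vsF F) q D κ' A)
    {ρ : Fin n → Bool} {c : ℕ} {s : Tree n m} (hleg : (Tree.div c s).Legal F)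
    {R : Finset (Fin n)} {σ : Fin n → Bool} (hP : Pt F q κ A ρ R σ)
    (hv : Viol ((Tree.div c s).line F) (pt R σ)) :
    ∃ R' σ', Pt F q κ' A ρ R' σ' ∧ Viol (s.line F) (pt R' σ') := by
  classical
  obtain ⟨t1, t2, t3, t4, t5, t6⟩ := hM1 (Fin m) (Fin n) (vsF F) (ngF F) q D κ' A hE
  obtain ⟨u1, u2, u3, u4, u5, u6, u7⟩ := hT2 n m F
  obtain ⟨g1, g2, g3, g4, g5⟩ := hP
  by_cases hs : Viol (s.line F) (pt R σ)
  · exact ⟨R, σ, ⟨g1, g2, by omega, g4, g5⟩, hs⟩
  have h0 : lv ((Tree.div c s).line F).coef (1 - 2 * ((Tree.div c s).line F).rhs) R σ = 0 :=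
    u6 c s (pt R σ) hleg hv hs
  set a := ((Tree.div c s).line F).coef with ha
  set d := 1 - 2 * ((Tree.div c s).line F).rhs with hd
  have hodd : Odd d := ⟨-((Tree.div c s).line F).rhs, by ring⟩
  obtain ⟨i, hi, σ₁, hσ₁, hne⟩ : ∃ i, i ∉ R ∧ ∃ σ₁, Ext (vsF F) (ngF F) q A κ' R σ
      (Cl (vsF F) q (insert i R)) σ₁ ∧
      ∑ j ∈ Cl (vsF F) q (insert i R) \ R, a j * sg (σ₁ j) ≠ 0 := by
    by_contra hno
    push Not at hno
    obtain ⟨N, hN, -⟩ := hM3 (Fin m) (Fin n) (vsF F) (ngF F) q D κ' A R σ κ' a a d d 0 0 hE g1 g2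
      (by omega) le_rfl hodd hodd (by
        intro i hi σ₁ hσ₁
        have := hno i hi σ₁ hσ₁
        exact ⟨0, by rw [this]; simp, by rw [this]; simp⟩)
    rw [h0] at hN
    simp at hN
  obtain ⟨σ₂, hσ₂, hlt⟩ : ∃ σ₂, Ext (vsF F) (ngF F) q A κ' R σ
      (Cl (vsF F) q (insert i R)) σ₂ ∧ lv a d (Cl (vsF F) q (insert i R)) σ₂ ≤ -1 := by
    have h5 := t5 _ _ _ _ _ a d hσ₁
    rw [h0] at h5
    by_cases hs' : ∑ j ∈ Cl (vsF F) q (insert i R) \ R, a j * sg (σ₁ j) < 0
    · exact ⟨σ₁, hσ₁, by rw [h5.1]; omega⟩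
    · exact ⟨MP86d903.flip R σ₁, t2 _ _ _ _ _ hσ₁, by rw [h5.2]; omega⟩
  refine ⟨Cl (vsF F) q (insert i R), σ₂, ⟨g1.trans hσ₂.1, hσ₂.2.1, hσ₂.2.2.1,
    t6 _ _ _ _ _ hσ₂ g4, fun j hj => ?_⟩, u7 c s _ hleg hlt⟩
  rw [hσ₂.2.2.2.1 j (g1 hj), g5 j hj]

end

/-- The global statement in the path form. -/
def StIndG : Prop := ∀ B D : ℕ, ∃ κ : ℕ, ∀ (n m : ℕ) (F : Fin m → Clause n)
    (q R₀ M₀ P w l kmax : ℕ) (A₀ Hd : Finset (Fin n)) (ρ₀ : Fin n → Bool) (t : Tree n m)
    (E : ℕ → Tree n m → Prop),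
    Exp (vsF F) R₀ → 2 * (M₀ + 1) ≤ q → 2 * (M₀ + 1) + q ≤ R₀ →
    3 * (P + 4 * κ * kmax) + w + κ ≤ M₀ → 2 * (3 * (l + w) + Hd.card) ≤ P →
    2 * (P + 4 * κ * kmax) + q < R₀ →
    Closed (vsF F) q A₀ → Sm (vsF F) l A₀ → Valid (vsF F) (ngF F) ρ₀ A₀ →
    (∀ i ∉ Hd, (univ.filter (fun c => i ∈ vsF F c)).card ≤ D) →
    t.Legal F → t.line F = ⟨fun _ => 0, 1⟩ →
    (∀ c s, Tree.Sub (.div c s) t →
      (univ.filter (fun v => ((Tree.div c s).line F).coef v ≠ 0)).card ≤ w ∨ E c s ∨
      (∀ v, |((Tree.div c s).line F).coef v| ≤ B) ∨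
      (∀ R σ, A₀ ⊆ R → Closed (vsF F) q R → R.card ≤ M₀ → Valid (vsF F) (ngF F) σ R →
        (∀ i ∈ A₀, σ i = ρ₀ i) → ¬ Viol (s.line F) (pt R σ) →
        ¬ Viol ((Tree.div c s).line F) (pt R σ))) →
    t.most E ≤ kmax → 2 ^ kmax ≤ t.divs

theorem Env.mono' {ι V : Type} [DecidableEq ι] [Fintype ι] [DecidableEq V] [Fintype V]
    {vs : ι → Finset V} {q D κ κ' : ℕ} {A : Finset V} (h : κ' ≤ κ) (hE : Env vs q D κ A) :
    Env vs q D κ' A := by
  obtain ⟨M₀, R₀, h1, h2, h3, h4⟩ := hE.big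
  exact ⟨hE.three, ⟨M₀, R₀, h1, h2, h3, by omega⟩, hE.closed, hE.deg⟩

theorem hIndG (hL : StLocalG) (hC2 : StClo2) (hM1 : StFam1) (hM3 : StFam3)
    (hRe : StReset) (hT2 : StTree2) (hAx : StAx) : StIndG := by
  intro B D
  obtain ⟨κ₁, hL⟩ := hL B D
  refine ⟨3 * (κ₁ + 1), ?_⟩
  intro n m F q R₀ M₀ P w l kmax A₀ Hd ρ₀ t E hExp hq hqR hM₀ hP hPR hA₀ hl hval₀ hdeg hleg hroot
    hdiv hmost
  set κ := 3 * (κ₁ + 1) with hκ
  obtain ⟨u1, u2, u3, u4, u5, u6, u7⟩ := hT2 n m F
  have hψle : ∀ k j, P + 2 * κ * ((kmax - k) + (kmax - j)) ≤ P + 4 * κ * kmax := by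
    intro k j
    have h1 : 2 * κ * ((kmax - k) + (kmax - j)) ≤ 2 * κ * (kmax + kmax) :=
      Nat.mul_le_mul_left _ (by omega)
    have h2 : 2 * κ * (kmax + kmax) = 4 * κ * kmax := by ring
    omega
  have hq1 : 1 ≤ q := by omega
  -- the claim
  have claim : ∀ N k, k ≤ kmax → ∀ j, j ≤ kmax → ∀ (s : Tree n m) (A : Finset (Fin n))
      (ρ : Fin n → Bool), s.divs ≤ N → s.most E ≤ j → Tree.Sub s t →
      State F q (P + 2 * κ * ((kmax - k) + (kmax - j))) A₀ Hd ρ₀ A ρ →
      Viol (s.line F) (pt A ρ) → 2 ^ k ≤ s.divs := by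
    have hone : ∀ ψ (s : Tree n m) (A : Finset (Fin n)) (ρ : Fin n → Bool),
        State F q ψ A₀ Hd ρ₀ A ρ → Viol (s.line F) (pt A ρ) → 1 ≤ s.divs := by
      intro ψ s A ρ hst hv
      obtain ⟨c, s', h1, -, -⟩ := u1 s (pt A ρ) (hAx n m F q A ρ hq1 hst.sc.closed' hst.val) hv
      have h2 := u4 _ _ h1
      have h3 : (Tree.div c s').divs = s'.divs + 1 := rfl
      omega
    intro N
    induction N with
    | zero =>
      intro k _ j _ s A ρ hN _ _ hst hv
      have := hone _ s A ρ hst hv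
      omega
    | succ N ihN =>
      intro k
      induction k with
      | zero =>
        intro _ j _ s A ρ _ _ _ hst hv
        exact hone _ s A ρ hst hv
      | succ k ihk =>
        intro hk j hj s A ρ hN hmo hsub hst hv
        have h0 := hψle (k + 1) j
        have h1 := hst.card
        have hψk : P + 2 * κ * ((kmax - k) + (kmax - j)) =
            P + 2 * κ * ((kmax - (k + 1)) + (kmax - j)) + 2 * κ := by
          have e1 : (kmax - k) + (kmax - j) = ((kmax - (k + 1)) + (kmax - j)) + 1 := by omega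
          rw [e1]
          ring
        have hAκ : A.card + κ ≤ M₀ := by omega
        have hcardR : ∀ R : Finset (Fin n), A ⊆ R → (R \ A).card ≤ κ → R.card ≤ A.card + κ := by
          intro R hAR hR
          have := card_sdiff_add_card_eq_card hAR
          omega
        have hEnv : Env (vsF F) q D κ A := ⟨MP86d903.vsF_card F, ⟨M₀, R₀, hExp, hq, hqR, hAκ⟩,
          hst.sc, fun i hi => hdeg i (fun h => hi (hst.subH h))⟩
        -- a point close to `(A, ρ)` gives a new state
        have hnew : ∀ ψ, P + 2 * κ * ((kmax - (k + 1)) + (kmax - j)) + 2 * κ ≤ ψ →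
            ψ ≤ P + 4 * κ * kmax → ∀ (s' : Tree n m) R σ, Pt F q κ A ρ R σ →
            Viol (s'.line F) (pt R σ) → ∃ A' ρ', State F q ψ A₀ Hd ρ₀ A' ρ' ∧
              Viol (s'.line F) (pt A' ρ') := by
          rintro ψ hψ1 hψ2 s' R σ ⟨g1, g2, g3, g4, g5⟩ hv'
          have g6 := hcardR R g1 g3
          have g7 : (inside (vsF F) A).card ≤ (inside (vsF F) R).card :=
            card_le_card (Helper80.SR.inside_mono g1)
          have g8 := hst.dens
          exact exists_state hC2 (ψ := ψ)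
            (A₀ := A₀) (Hd := Hd) (ρ₀ := ρ₀) hExp (by omega) (by omega) (subset_refl R)
            (hst.subH.trans g1) (hst.sub₀.trans g1) g2 g4
            (fun i hi => by rw [g5 i (hst.sub₀ hi), hst.eq₀ i hi]) (by omega) (by omega)
            (s'.line F) hv'
        have hPt : ∀ {R σ}, Pt F q κ₁ A ρ R σ → Pt F q κ A ρ R σ := fun h =>
          ⟨h.1, h.2.1, by have := h.2.2.1; omega, h.2.2.2⟩
        rcases hL n m F q
          (fun c s => (univ.filter (fun v => ((Tree.div c s).line F).coef v ≠ 0)).card ≤ w ∨ E c s)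
          A ρ s (hEnv.mono' (by omega)) hst.val (u3 _ _ hsub hleg) hv
          (by
            intro c s' hs'
            rcases hdiv c s' (u2 _ _ _ hs' hsub) with h | h | h | h
            · exact Or.inl (Or.inl h)
            · exact Or.inl (Or.inr h)
            · exact Or.inr (Or.inl h)
            · refine Or.inr (Or.inr ?_)
              rintro R σ ⟨g1, g2, g3, g4, g5⟩
              exact h R σ (hst.sub₀.trans g1) g2 ((hcardR R g1 (by omega)).trans hAκ) g4
                (fun i hi => by rw [g5 i (hst.sub₀ hi), hst.eq₀ i hi]))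
          with ⟨α, β, s₁, s₂, hs, ⟨R₁, σ₁, p1, v1⟩, R₂, σ₂, p2, v2⟩ | ⟨c, s', hs, hnar | hexc,
            R, σ, p, v⟩
        · -- branching
          have hsubb := u2 _ _ _ hs hsub
          have hb : (Tree.comb α β s₁ s₂).divs = s₁.divs + s₂.divs := rfl
          have hb' := u4 _ _ hs
          have hm' := hs.most_le (E := E)
          have hm1 : s₁.most E ≤ (Tree.comb α β s₁ s₂).most E := le_max_left _ _
          have hm2 : s₂.most E ≤ (Tree.comb α β s₁ s₂).most E := le_max_right _ _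
          have hsub1 : Tree.Sub s₁ t := u2 _ _ _ (.left α β s₁ s₂ (.refl _)) hsubb
          have hsub2 : Tree.Sub s₂ t := u2 _ _ _ (.right α β s₁ s₂ (.refl _)) hsubb
          obtain ⟨A₁, ρ₁, hst₁, hv₁⟩ := hnew _ hψk.symm.le (hψle k j) s₁ R₁ σ₁ (hPt p1) v1
          obtain ⟨A₂, ρ₂, hst₂, hv₂⟩ := hnew _ hψk.symm.le (hψle k j) s₂ R₂ σ₂ (hPt p2) v2
          have k1 := ihk (by omega) j hj s₁ A₁ ρ₁ (by omega) (by omega) hsub1 hst₁ hv₁
          have k2 := ihk (by omega) j hj s₂ A₂ ρ₂ (by omega) (by omega) hsub2 hst₂ hv₂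
          rw [pow_succ]
          omega
        · -- narrow
          obtain ⟨g1, g2, g3, g4, g5⟩ := p
          have g6 := hcardR R g1 (by omega)
          have hsubd := u2 _ _ _ hs hsub
          have hlegd := u3 _ _ hsubd hleg
          have hin : 19 * (inside (vsF F) R).card ≤ 10 * R.card :=
            Helper80.SR.card_inside_le hExp R (by omega)
          obtain ⟨R', σ', r1, r2, r3, r4, r5, r6⟩ := hRe n m F q R₀ M₀ w (R.card + l) l A₀ ρ₀ c s'
            R σ hExp (by omega) (by omega) hA₀ hl (by omega) (by omega) hlegd hnar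
            (hst.sub₀.trans g1) g2 ⟨by omega, hin⟩ g4
            (fun i hi => by rw [g5 i (hst.sub₀ hi), hst.eq₀ i hi]) v
          have r7 := r3.card_le
          have r8 : (R' ∪ Hd).card ≤ R'.card + Hd.card := card_union_le _ _
          have e2 := hψle kmax j
          obtain ⟨A', ρ', hst', hv''⟩ := exists_state hC2
              (ψ := P + 2 * κ * ((kmax - kmax) + (kmax - j)))
              (A₀ := A₀) (Hd := Hd) (ρ₀ := ρ₀) hExp (by omega) (by omega)
              (subset_union_left (s₁ := R') (s₂ := Hd)) subset_union_right r1 r2 r4 r5 (by omega)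
              (by omega) (s'.line F) r6
          have hd1 : (Tree.div c s').divs = s'.divs + 1 := rfl
          have hd2 := u4 _ _ hs
          have hsub'' : Tree.Sub s' s := u2 _ _ _ (.down c s' (.refl _)) hs
          have hm' := hsub''.most_le (E := E)
          have := ihN kmax le_rfl j hj s' A' ρ' (by omega) (by omega) (u2 _ _ _ hsub'' hsub) hst'
            hv''
          have hpow : 2 ^ (k + 1) ≤ 2 ^ kmax := Nat.pow_le_pow_right (by norm_num) hk
          omega
        · -- exceptional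
          have hsubd := u2 _ _ _ hs hsub
          have hlegd := u3 _ _ hsubd hleg
          obtain ⟨R', σ', p', v'⟩ := div_step hM1 hM3 hT2 le_rfl hEnv hlegd p v
          have hm' := hs.most_lt (E := E) hexc
          have hψj : P + 2 * κ * ((kmax - (k + 1)) + (kmax - (j - 1))) =
              P + 2 * κ * ((kmax - (k + 1)) + (kmax - j)) + 2 * κ := by
            have e1 : (kmax - (k + 1)) + (kmax - (j - 1)) =
              ((kmax - (k + 1)) + (kmax - j)) + 1 := by omega
            rw [e1]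
            ring
          obtain ⟨A', ρ', hst', hv''⟩ := hnew _ hψj.symm.le (hψle (k + 1) (j - 1)) s' R' σ' p' v'
          have hd1 : (Tree.div c s').divs = s'.divs + 1 := rfl
          have hd2 := u4 _ _ hs
          have hsub'' : Tree.Sub s' s := u2 _ _ _ (.down c s' (.refl _)) hs
          have := ihN (k + 1) hk (j - 1) (by omega) s' A' ρ' (by omega) (by omega)
            (u2 _ _ _ hsub'' hsub) hst' hv''
          omega
  -- the root
  have r7 := hl.card_le
  have r8 : (A₀ ∪ Hd).card ≤ A₀.card + Hd.card := card_union_le _ _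
  have e0 : P + 2 * κ * ((kmax - kmax) + (kmax - kmax)) = P := by simp
  have e1 : P ≤ P + 4 * κ * kmax := Nat.le_add_right _ _
  have hvr : ∀ y : Fin n → ℤ, Viol (t.line F) y := by
    intro y
    rw [hroot]
    unfold Viol
    simp
  obtain ⟨A', ρ', hst', hv''⟩ := exists_state hC2 (ψ := P)
      (A₀ := A₀) (Hd := Hd) (ρ₀ := ρ₀) hExp (by omega) (by omega)
      (subset_union_left (s₁ := A₀) (s₂ := Hd)) subset_union_right (subset_refl _) hA₀ hval₀
      (fun _ _ => rfl) (by omega) (by omega) (t.line F) (hvr _)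
  exact claim t.divs kmax le_rfl kmax le_rfl t A' ρ' le_rfl hmost (.refl _)
    (by rw [e0]; exact hst') hv''

end Helper3.TL
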