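import Pool.Agent.Helper3.TL.M_ADJ2
import Pool.Agent.Helper3.TL.M_EVENT
import Pool.Agent.Helper3.TL.M_NARR
import Pool.Agent.Helper3.TL.M_TIGHT
import Pool.Agent.Helper3.TL.M_START1
import Pool.Agent.Helper3.TL.M_START2
import Pool.Agent.Helper3.TL.M_PATH2
import Pool.Agent.Helper80.TL.M_FAR2
import Pool.Agent.Helper80.TL.M_FAM3
import Pool.Agent.Helper80.TL.M_FAM4
import Pool.Agent.Helper80.TL.M_AX
import Pool.Agent.Helper80.SR.Det

/-!
The deterministic part of the theorem on tree-like refutations.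
-/

open Finset
open MP86d903 (Valid Lit inside mem_inside pt flip Clause Ineq clauseIneq vsF ngF IsLight falsity
  hits)
open Helper80.SR (Exp Closed Cl Sm IsWide CutOff)

namespace Helper3.TL

theorem hTight' : StTight :=
  hTight hClo1 Helper80.TL.hFar1 Helper80.TL.hFam1 Helper80.TL.hFam2 Helper80.TL.hFam4
    Helper80.TL.hAdj1

theorem hAdj2' : StAdj2 := hAdj2 Helper80.TL.hFar1 Helper80.TL.hFam1 Helper80.TL.hAdj1

theorem hNarr' : StNarr := hNarr hTight' Helper80.TL.hFam1 Helper80.TL.hFam3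

theorem hEvent' : StEvent :=
  hEvent hTight' Helper80.TL.hFam1 Helper80.TL.hFam3 hAdj2' hPool

theorem hStart3' : StStart3 :=
  hStart3 hClo1 Helper80.TL.hFam1 hAdj2'
    (hStart1 hClo1 Helper80.TL.hFam1 Helper80.TL.hFam2 hAdj2')
    (hStart2 hClo1 Helper80.TL.hFam1 Helper80.TL.hFam2)

theorem hLocalG' : StLocalG :=
  hLocalG Helper80.TL.hFam1 hAdj2' hNarr' hEvent' hStart3' hTree1 hTree2 Helper80.TL.hAx

theorem hIndG' : StIndG :=
  hIndG hLocalG' hClo2 Helper80.TL.hFam1 Helper80.TL.hFam3 Helper80.TL.hReset hTree2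
    Helper80.TL.hAx

variable {n m : ℕ}

/-- A division step (division of the inequality derived by `t` by `c`) is critical: its
conclusion is wide, and it cuts off a half-integral point with at most `η n` integral
coordinates. -/
def IsCritical (F : Fin m → Clause n) (ε η : ℝ) (c : ℕ) (t : Tree n m) : Prop :=
  IsWide ε ((Tree.div c t).line F) ∧ ∃ y, CutOff η (t.line F) ((Tree.div c t).line F) y

/-- A division step is rough: it is critical, and its conclusion is not light and has a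
coefficient larger than `B` in absolute value. -/
def IsRough (F : Fin m → Clause n) (ε δ η : ℝ) (B : ℕ) (c : ℕ) (t : Tree n m) : Prop :=
  IsCritical F ε η c t ∧ ¬ IsLight ε δ ((Tree.div c t).line F) ∧
    ∃ v, (B : ℤ) < |((Tree.div c t).line F).coef v|

theorem exists_list (t : Tree n m) : ∃ S : List (ℕ × Tree n m), S.length = t.divs ∧
    ∀ c s, Tree.Sub (.div c s) t → (c, s) ∈ S := by
  induction t with
  | clause k =>
    refine ⟨[], rfl, ?_⟩
    intro c s h
    cases h
  | lower v =>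
    refine ⟨[], rfl, ?_⟩
    intro c s h
    cases h
  | upper v =>
    refine ⟨[], rfl, ?_⟩
    intro c s h
    cases h
  | comb α β s₁ s₂ ih₁ ih₂ =>
    obtain ⟨S₁, h1, h2⟩ := ih₁
    obtain ⟨S₂, h3, h4⟩ := ih₂
    refine ⟨S₁ ++ S₂, ?_, ?_⟩
    · rw [List.length_append, h1, h3]
      rfl
    · intro c s h
      cases h with
      | left _ _ _ _ h => exact List.mem_append_left _ (h2 c s h)
      | right _ _ _ _ h => exact List.mem_append_right _ (h4 c s h)
  | div c' s' ih =>
    obtain ⟨S, h1, h2⟩ := ih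
    refine ⟨(c', s') :: S, ?_, ?_⟩
    · rw [List.length_cons, h1]
      rfl
    · intro c s h
      cases h with
      | refl => exact List.mem_cons_self
      | down _ _ h => exact List.mem_cons_of_mem _ (h2 c s h)

theorem det (F : Fin m → Clause n) {D B κ : ℕ}
    (hκ : ∀ (q R₀ M₀ P w l kmax : ℕ) (A₀ Hd : Finset (Fin n)) (ρ₀ : Fin n → Bool)
      (t : Tree n m) (E : ℕ → Tree n m → Prop),
      Exp (vsF F) R₀ → 2 * (M₀ + 1) ≤ q → 2 * (M₀ + 1) + q ≤ R₀ →
      3 * (P + 4 * κ * kmax) + w + κ ≤ M₀ → 2 * (3 * (l + w) + Hd.card) ≤ P →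
      2 * (P + 4 * κ * kmax) + q < R₀ →
      Closed (vsF F) q A₀ → Sm (vsF F) l A₀ → Valid (vsF F) (ngF F) ρ₀ A₀ →
      (∀ i ∉ Hd, (univ.filter (fun c => i ∈ vsF F c)).card ≤ D) →
      t.Legal F → t.line F = ⟨fun _ => 0, 1⟩ →
      (∀ c s, Tree.Sub (.div c s) t →
        (univ.filter (fun v => ((Tree.div c s).line F).coef v ≠ 0)).card ≤ w ∨ E c s ∨
        (∀ v, |((Tree.div c s).line F).coef v| ≤ B) ∨
        (∀ R σ, A₀ ⊆ R → Closed (vsF F) q R → R.card ≤ M₀ → Valid (vsF F) (ngF F) σ R →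
          (∀ i ∈ A₀, σ i = ρ₀ i) → ¬ Viol (s.line F) (pt R σ) →
          ¬ Viol ((Tree.div c s).line F) (pt R σ))) →
      t.most E ≤ kmax → 2 ^ kmax ≤ t.divs)
    {R₀ M₀ P w l h K : ℕ} {ε δ η : ℝ} (hExp : Exp (vsF F) R₀) (h4 : 4 * (M₀ + 1) ≤ R₀)
    (hη : (M₀ : ℝ) ≤ η * n) (hP : 3 * (P + 4 * κ * K) + w + κ ≤ M₀)
    (Hd : Finset (Fin n)) (hH : 2 * (3 * (l + w) + Hd.card) ≤ P)
    (hdeg : ∀ i ∉ Hd, (univ.filter (fun c => i ∈ vsF F c)).card ≤ D)
    (hw1 : ε * n ≤ w) (hw2 : ∀ k : ℕ, ε * n ≤ k → w ≤ k) (hwn : w ≤ n) (h74 : 74 * l ≤ w)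
    (hn : 0 < n) (hδ1 : 1 ≤ δ * n) (hδh : δ * n ≤ h) (hδK : δ * n + 1 ≤ K)
    (hsmall : (2 : ℝ) ^ (δ * n) * (1 - w / (8 * n)) ^ l * 2 ^ h < 2)
    (t : Tree n m) (hleg : t.Legal F) (hroot : t.line F = ⟨fun _ => 0, 1⟩)
    (hdivs : (t.divs : ℝ) ≤ 2 ^ (δ * n)) : δ * n ≤ t.most (IsRough F ε δ η B) := by
  classical
  by_contra hcon
  rw [not_le] at hcon
  set q := 2 * (M₀ + 1) with hq
  obtain ⟨S, hSlen, hS⟩ := exists_list t
  set 𝓔 : Finset (Fin S.length) := univ.filter
    (fun i => IsLight ε δ ((Tree.div (S.get i).1 (S.get i).2).line F)) with h𝓔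
  have h𝓔card : (𝓔.card : ℝ) ≤ 2 ^ (δ * n) := by
    have h1 : 𝓔.card ≤ S.length := by
      have := card_le_univ 𝓔
      rwa [Fintype.card_fin] at this
    refine le_trans ?_ hdivs
    rw [← hSlen]
    exact_mod_cast h1
  set L : Fin S.length → Ineq n := fun i => (Tree.div (S.get i).1 (S.get i).2).line F with hL
  set Z : Fin S.length → Finset (Fin n) := fun i =>
    univ.filter (fun v => (falsity (L i) : ℝ) ≤ δ * n * |((L i).coef v : ℝ)|) with hZ
  have hZcard : ∀ i ∈ 𝓔, w ≤ (Z i).card := by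
    intro i hi
    have h1 : IsLight ε δ (L i) := (mem_filter.mp hi).2
    apply hw2
    unfold IsLight at h1
    rw [← Set.ncard_coe_finset]
    refine h1.trans (le_of_eq ?_)
    congr 2
    ext v
    simp [hZ]
  have hw8 : 0 ≤ 1 - (w : ℝ) / (8 * n) := by
    have h1 : (w : ℝ) ≤ n := by exact_mod_cast hwn
    have h2 : (0 : ℝ) < n := by exact_mod_cast hn
    rw [sub_nonneg, div_le_one (by positivity)]
    linarith
  obtain ⟨A₀, ρ₀, hcl₀, hsm₀, hval₀, hhits⟩ := Helper80.SR.exists_root (ng := ngF F)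
    (κ := Fin S.length) (M := M₀)
    (q := q) (fun c => MP86d903.vsF_card F c) hExp (by omega) (by omega) 𝓔 Z
    (fun i v => decide (0 ≤ (L i).coef v)) (w := w) (h := h) (t := l)
    hZcard (by rw [Fintype.card_fin]; exact hwn) (by rw [Fintype.card_fin]; exact hn)
    (by omega) h74 (by
      rw [Fintype.card_fin]
      refine lt_of_le_of_lt ?_ hsmall
      refine mul_le_mul_of_nonneg_right ?_ (by positivity)
      exact mul_le_mul_of_nonneg_right h𝓔card (pow_nonneg hw8 _))
  -- the light lines hold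
  have hkill : ∀ c s, Tree.Sub (.div c s) t → IsLight ε δ ((Tree.div c s).line F) →
      ∀ R σ, A₀ ⊆ R → Closed (vsF F) q R → R.card ≤ M₀ → Valid (vsF F) (ngF F) σ R →
      (∀ i ∈ A₀, σ i = ρ₀ i) → ¬ Viol ((Tree.div c s).line F) (pt R σ) := by
    intro c s hsub hlight R σ g1 g2 g3 g4 g5
    obtain ⟨i, hi⟩ := List.mem_iff_get.mp (hS c s hsub)
    have hLi : L i = (Tree.div c s).line F := by
      simp only [hL, hi]
    have hmem : i ∈ 𝓔 := by
      refine mem_filter.mpr ⟨mem_univ _, ?_⟩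
      change IsLight ε δ (L i)
      rw [hLi]
      exact hlight
    have h1 := hhits i hmem
    have h2 := Helper80.SR.holds_light (k := R.card) (vs := vsF F) (ng := ngF F) (q := q)
      (A₀ := A₀) (ρ₀ := ρ₀) (δ := δ) (by linarith) hδh (L i) (Z i)
      (fun v hv => (mem_filter.mp hv).2) h1
    have hin : 19 * (inside (vsF F) R).card ≤ 10 * R.card :=
      Helper80.SR.card_inside_le hExp R (by omega)
    have h3 := h2 R σ ⟨g2, g1, ⟨by omega, hin⟩, g4, g5⟩
    rw [hLi] at h3
    unfold Viol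
    omega
  have hmain := hκ q R₀ M₀ P w l K A₀ Hd ρ₀ t (IsRough F ε δ η B) hExp le_rfl (by omega) hP hH
    (by omega) hcl₀ hsm₀ hval₀ hdeg hleg hroot (by
      intro c s hsub
      by_cases hwide : IsWide ε ((Tree.div c s).line F)
      swap
      · left
        unfold IsWide at hwide
        rw [not_le] at hwide
        have h3 : ({v | ((Tree.div c s).line F).coef v ≠ 0}.ncard : ℝ) ≤ w :=
          hwide.le.trans hw1
        have h4 : {v | ((Tree.div c s).line F).coef v ≠ 0}.ncard ≤ w := by exact_mod_cast h3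
        rw [← Set.ncard_coe_finset]
        refine le_trans (le_of_eq ?_) h4
        congr 1
        ext v
        simp
      right
      by_cases hbd : ∀ v, |((Tree.div c s).line F).coef v| ≤ B
      · exact Or.inr (Or.inl hbd)
      push Not at hbd
      by_cases hlight : IsLight ε δ ((Tree.div c s).line F)
      · right
        right
        intro R σ g1 g2 g3 g4 g5 _
        exact hkill c s hsub hlight R σ g1 g2 g3 g4 g5
      by_cases hcrit : IsCritical F ε η c s
      · exact Or.inl ⟨hcrit, hlight, hbd⟩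
      right
      right
      intro R σ g1 g2 g3 g4 g5 h6 h7
      apply hcrit
      refine ⟨hwide, pt R σ, ?_, ?_, ?_, h7⟩
      · intro v
        unfold pt
        split_ifs <;> simp
      · have h3 : {v | pt R σ v ≠ 1}.ncard ≤ M₀ := by
          have h4 : {v | pt R σ v ≠ 1} ⊆ (R : Set (Fin n)) := by
            intro v hv
            by_contra hvA
            exact hv (by
              unfold pt
              exact if_neg (fun hva => hvA hva))
          refine (Set.ncard_le_ncard h4 (Set.toFinite _)).trans ?_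
          rw [Set.ncard_coe_finset]
          exact g3
        refine le_trans ?_ hη
        exact_mod_cast h3
      · unfold Viol at h6
        omega)
    (by
      have h1 : ((t.most (IsRough F ε δ η B) : ℕ) : ℝ) ≤ K := by linarith
      exact_mod_cast h1)
  have h1 : ((2 : ℝ) ^ K) ≤ t.divs := by exact_mod_cast hmain
  have h2 : (2 : ℝ) ^ (δ * n + 1) ≤ 2 ^ K := by
    rw [← Real.rpow_natCast]
    exact Real.rpow_le_rpow_of_exponent_le (by norm_num) hδK
  rw [Real.rpow_add (by norm_num), Real.rpow_one] at h2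
  have h3 : (0 : ℝ) < 2 ^ (δ * n) := by positivity
  linarith

end Helper3.TL
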