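import Pool.Agent.Helper3.TL.St

open Finset
open MP86d903 (Valid Lit inside mem_inside pt flip Clause Ineq clauseIneq vsF ngF)
open Helper80.SR (Exp Closed Cl Sm)

namespace Helper3.TL

section
variable {ι V : Type} [DecidableEq ι] [Fintype ι] [DecidableEq V] [Fintype V]
  {vs : ι → Finset V}

theorem SClosed.closed' {q : ℕ} {A : Finset V} (h : SClosed vs q A) : Closed vs q A := by
  intro S hS hq hc
  have h1 := h S hS hq hc
  have h2 := card_pos.mpr hS
  omega

theorem Env.closed' {q D κ : ℕ} {A : Finset V} (h : Env vs q D κ A) : Closed vs q A :=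
  h.closed.closed'

end

theorem hClo1 : StClo1 := by
  intro ι V _ _ _ _ vs q D κ A R T hE hAR hk
  obtain ⟨M₀, R₀, hExp, hq, hR₀, hA⟩ := hE.big
  set T' := (R ∪ T) \ A with hT'
  have hT'c : T'.card ≤ (R \ A).card + T.card := by
    have h1 : T' ⊆ (R \ A) ∪ T := by
      intro v hv
      obtain ⟨h2, h3⟩ := mem_sdiff.mp hv
      rcases mem_union.mp h2 with h | h
      · exact mem_union_left _ (mem_sdiff.mpr ⟨h, h3⟩)
      · exact mem_union_right _ h
    exact (card_le_card h1).trans (card_union_le _ _)
  have hin : 19 * (inside vs A).card ≤ 10 * A.card :=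
    Helper80.SR.card_inside_le hExp A (by omega)
  set k := A.card - (inside vs A).card with hk'
  have hsm : Sm vs k A := ⟨by omega, hin⟩
  obtain ⟨B, hB, hAB, hBs⟩ := Helper80.SR.exists_closed_union (q := q) hExp T' (k := k)
    (by omega) hE.closed' hsm
  have hsub : Cl vs q (R ∪ T) ⊆ B := by
    refine Helper80.SR.Cl_subset hB ?_
    intro v hv
    by_cases h : v ∈ A
    · exact hAB (mem_union_left _ h)
    · exact hAB (mem_union_right _ (mem_sdiff.mpr ⟨hv, h⟩))
  have hAB' : A ⊆ B := subset_union_left.trans hAB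
  set S := inside vs B \ inside vs A with hS
  have hSc : S.card + (inside vs A).card = (inside vs B).card :=
    card_sdiff_add_card_eq_card (Helper80.SR.inside_mono hAB')
  have hBc : (B \ A).card + A.card = B.card := card_sdiff_add_card_eq_card hAB'
  have hBin := hBs.inside_le
  have h1 := hBs.1
  have hfin : (B \ A).card ≤ 3 * T'.card := by
    rcases S.eq_empty_or_nonempty with he | hn
    · rw [he, card_empty] at hSc
      omega
    · have h2 := hE.closed S hn (by omega) (fun c hc h =>
        (mem_sdiff.mp hc).2 (mem_inside.mpr h))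
      have h3 : S.biUnion vs \ A ⊆ B \ A := by
        refine sdiff_subset_sdiff ?_ (subset_refl _)
        intro v hv
        obtain ⟨c, hc, hvc⟩ := mem_biUnion.mp hv
        exact (mem_inside.mp (mem_sdiff.mp hc).1) hvc
      have h4 := card_le_card h3
      omega
  have h5 : (Cl vs q (R ∪ T) \ A).card ≤ (B \ A).card :=
    card_le_card (sdiff_subset_sdiff hsub (subset_refl _))
  omega

theorem hClo2 : StClo2 := by
  intro ι V _ _ _ _ vs q R₀ ψ X hExp hψ hX hX2
  classical
  set 𝒰 := (univ : Finset (Finset V)).filter (fun Y => X ⊆ Y ∧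
    2 * Y.card ≤ ψ + 3 * (inside vs Y).card ∧ 19 * (inside vs Y).card ≤ 10 * Y.card) with h𝒰
  have hne : 𝒰.Nonempty := ⟨X, mem_filter.mpr ⟨mem_univ _, subset_refl _, hX2,
    Helper80.SR.card_inside_le hExp X (by omega)⟩⟩
  obtain ⟨Y, hY, hmax⟩ := exists_max_image 𝒰 card hne
  obtain ⟨-, hXY, hY2, hY3⟩ := mem_filter.mp hY
  refine ⟨Y, ?_, hXY, hY2, by omega⟩
  intro S hS hq hc
  by_contra hcon
  rw [not_le] at hcon
  set Y' := Y ∪ S.biUnion vs with hY'
  have h1 : Y'.card = (S.biUnion vs \ Y).card + Y.card := by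
    rw [hY', union_comm, ← sdiff_union_self_eq_union, card_union_of_disjoint sdiff_disjoint]
  have h2 : (inside vs Y).card + S.card ≤ (inside vs Y').card := by
    have hdisj : Disjoint (inside vs Y) S := by
      rw [Finset.disjoint_left]
      intro c hc1 hc2
      exact hc c hc2 (mem_inside.mp hc1)
    rw [← card_union_of_disjoint hdisj]
    refine card_le_card ?_
    intro c hc'
    rcases mem_union.mp hc' with h | h
    · exact mem_inside.mpr ((mem_inside.mp h).trans subset_union_left)
    · exact mem_inside.mpr ((subset_biUnion_of_mem vs h).trans subset_union_right)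
  have h3 : 0 < (S.biUnion vs \ Y).card := by
    obtain ⟨c, hcS⟩ := hS
    rw [card_pos, sdiff_nonempty]
    intro h
    exact hc c hcS ((subset_biUnion_of_mem vs hcS).trans h)
  have hmem : Y' ∈ 𝒰 := by
    rw [h𝒰, mem_filter]
    refine ⟨mem_univ _, hXY.trans subset_union_left, by omega, ?_⟩
    apply Helper80.SR.card_inside_le hExp
    omega
  have := hmax _ hmem
  omega

end Helper3.TL
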