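import Pool.Agent.Helper3.TL.M_START3
import Pool.Agent.Helper3.TL.M_TREE

open Finset
open MP86d903 (Valid Lit inside mem_inside pt flip Clause Ineq clauseIneq vsF ngF)
open Helper80.SR (Exp Closed Cl Sm)

namespace Helper3.TL

/-- The conclusion of LOCAL. -/
def LConcl {n m : ℕ} (F : Fin m → Clause n) (q κ w : ℕ) (A : Finset (Fin n)) (ρ : Fin n → Bool)
    (t : Tree n m) : Prop :=
    (∃ α β s₁ s₂, Tree.Sub (.comb α β s₁ s₂) t ∧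
      (∃ R σ, Pt F q κ A ρ R σ ∧ Viol (s₁.line F) (pt R σ)) ∧
      ∃ R σ, Pt F q κ A ρ R σ ∧ Viol (s₂.line F) (pt R σ)) ∨
    ∃ c s, Tree.Sub (.div c s) t ∧
      (univ.filter (fun v => ((Tree.div c s).line F).coef v ≠ 0)).card ≤ w ∧
      ∃ R σ, Pt F q κ A ρ R σ ∧ Viol ((Tree.div c s).line F) (pt R σ)

/-- One step up the tree. -/
theorem local_step (hT1 : StTree1) (hT2 : StTree2) (hAx : StAx) {n m B : ℕ}
    {F : Fin m → Clause n} {q κ w : ℕ} (hq1 : 1 ≤ q) {A : Finset (Fin n)} {ρ : Fin n → Bool}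
    {t s : Tree n m} (hleg : t.Legal F) (hst : Tree.Sub s t)
    (hdiv : ∀ c s, Tree.Sub (.div c s) t →
      (univ.filter (fun v => ((Tree.div c s).line F).coef v ≠ 0)).card ≤ w ∨
      (∀ v, |((Tree.div c s).line F).coef v| ≤ B) ∨
      (∀ R σ, Pt F q κ A ρ R σ → ¬ Viol (s.line F) (pt R σ) →
        ¬ Viol ((Tree.div c s).line F) (pt R σ)))
    (Q : Finset (Fin n) → (Fin n → Bool) → Prop) (hQ : ∀ R σ, Q R σ → Pt F q κ A ρ R σ)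
    (hne : ∃ R σ, Q R σ) (hv : ∀ R σ, Q R σ → Viol (s.line F) (pt R σ)) :
    LConcl F q κ w A ρ t ∨ ∃ c s', Tree.Sub (.div c s') s ∧
      (∀ v, |((Tree.div c s').line F).coef v| ≤ B) ∧
      (∀ R σ, Q R σ → lv ((Tree.div c s').line F).coef (1 - 2 * ((Tree.div c s').line F).rhs)
        R σ ≤ 0) ∧
      ∃ Rq σq, Q Rq σq ∧ lv ((Tree.div c s').line F).coef
        (1 - 2 * ((Tree.div c s').line F).rhs) Rq σq = 0 := by
  obtain ⟨u1, u2, u3, u4, u5, u6, u7⟩ := hT2 n m F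
  set X : Set (Fin n → ℤ) := {y | ∃ R σ, Q R σ ∧ y = pt R σ} with hX
  have hXne : X.Nonempty := by
    obtain ⟨R, σ, h⟩ := hne
    exact ⟨pt R σ, R, σ, h, rfl⟩
  have hXax : ∀ y ∈ X, AxOK F y := by
    rintro y ⟨R, σ, h, rfl⟩
    have h1 := hQ R σ h
    exact hAx n m F q R σ hq1 h1.2.1 h1.2.2.2.1
  have hXv : ∀ y ∈ X, Viol (s.line F) y := by
    rintro y ⟨R, σ, h, rfl⟩
    exact hv R σ h
  rcases hT1 n m F s X hXne hXax hXv with ⟨α, β, s₁, s₂, h1, ⟨y₁, h2, h3⟩, y₂, h4, h5⟩ |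
    ⟨c, s', h1, h2, y, h3, h4⟩
  · left
    left
    obtain ⟨R₁, σ₁, hq₁, rfl⟩ := h2
    obtain ⟨R₂, σ₂, hq₂, rfl⟩ := h4
    exact ⟨α, β, s₁, s₂, u2 _ _ _ h1 hst, ⟨R₁, σ₁, hQ _ _ hq₁, h3⟩, R₂, σ₂, hQ _ _ hq₂, h5⟩
  · obtain ⟨Rq, σq, hqq, rfl⟩ := h3
    have hsub := u2 _ _ _ h1 hst
    rcases hdiv c s' hsub with hna | hbd | hcr
    · left
      right
      exact ⟨c, s', hsub, hna, Rq, σq, hQ _ _ hqq, h2 _ ⟨Rq, σq, hqq, rfl⟩⟩
    · right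
      refine ⟨c, s', h1, hbd, ?_, Rq, σq, hqq, ?_⟩
      · intro R σ h
        exact (u5 _ _).mp (h2 _ ⟨R, σ, h, rfl⟩)
      · exact u6 c s' (pt Rq σq) (u3 _ _ hsub hleg) (h2 _ ⟨Rq, σq, hqq, rfl⟩) h4
    · exact absurd (h2 _ ⟨Rq, σq, hqq, rfl⟩) (hcr Rq σq (hQ _ _ hqq) h4)

theorem hLocal (hM1 : StFam1) (hA2 : StAdj2) (hNa : StNarr) (hEv : StEvent) (hS3 : StStart3)
    (hT1 : StTree1) (hT2 : StTree2) (hAx : StAx) : StLocal := by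
  intro B D
  have hEv' := hEv B D
  choose E1 hE1 using hEv'
  choose E2 E3 hE23 using hE1
  choose AT hAT using hA2
  set M' : ℕ → ℕ → ℕ := fun M m => E1 m M (B * M) (3 * B) with hM'
  set K2 : ℕ → ℕ → ℕ := fun M m => E2 m (M' M m) (B * M' M m) (B * m) 0 with hK2
  set T2 : ℕ → ℕ → ℕ := fun M m => E3 m (M' M m) (B * M' M m) (B * m) 0 with hT2'
  set Tb : ℕ → ℕ → ℕ := fun M m => AT D m (M' M m) 1 0 with hTb
  set K1 : ℕ → ℕ → ℕ := fun M m => E2 m M (B * M) (3 * B) (T2 M m + Tb M m) with hK1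
  set T1 : ℕ → ℕ → ℕ := fun M m => E3 m M (B * M) (3 * B) (T2 M m + Tb M m) with hT1'
  set Ta : ℕ → ℕ → ℕ := fun M m => AT D m M 1 0 with hTa
  obtain ⟨K0, hS3⟩ := hS3 B D (fun _ M m => T1 M m + Ta M m)
  obtain ⟨Kn, hNa⟩ := hNa B D K0 (B * K0)
  set S := ∑ p ∈ range (K0 + 1) ×ˢ range (K0 + 1),
    (K1 p.1 p.2 + K2 p.1 p.2 + M' p.1 p.2 + 2 * p.2 + p.1) with hS
  refine ⟨K0 + Kn + S, ?_⟩
  intro n m F q w A ρ t hE hval hleg hviol hdiv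
  set κ := K0 + Kn + S with hκ
  change LConcl F q κ w A ρ t
  obtain ⟨t1, t2, t3, t4, t5, t6⟩ := hM1 (Fin m) (Fin n) (vsF F) (ngF F) q D κ A hE
  obtain ⟨u1, u2, u3, u4, u5, u6, u7⟩ := hT2 n m F
  have hq1 : 1 ≤ q := by
    obtain ⟨M₀, R₀, -, h, -, -⟩ := hE.big
    omega
  have hAc : Closed (vsF F) q A := hE.closed'
  have hPtA : Pt F q κ A ρ A ρ := ⟨subset_refl _, hAc, by simp, hval, fun _ _ => rfl⟩
  have hPt : ∀ R σ, Ext (vsF F) (ngF F) q A κ A ρ R σ → Pt F q κ A ρ R σ := fun R σ h =>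
    ⟨h.1, h.2.1, h.2.2.1, t6 _ _ _ _ _ h hval, h.2.2.2.1⟩
  obtain ⟨c₀, s₀, hsub₀, hv₀, hsat⟩ := u1 t (pt A ρ) (hAx n m F q A ρ hq1 hAc hval) hviol
  have hleg₀ := u3 _ _ hsub₀ hleg
  have hs₀ : Tree.Sub s₀ t := u2 _ _ _ (Tree.Sub.down c₀ s₀ (Tree.Sub.refl s₀)) hsub₀
  have hnv₀ : ¬ Viol (s₀.line F) (pt A ρ) := hsat s₀ (Tree.Sub.refl s₀)
  rcases hdiv c₀ s₀ hsub₀ with hna | hbd | hcr
  · right
    exact ⟨c₀, s₀, hsub₀, hna, A, ρ, hPtA, hv₀⟩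
  swap
  · exact absurd hv₀ (hcr A ρ hPtA hnv₀)
  set v := (Tree.div c₀ s₀).line F with hvdef
  have hlv0 : lv v.coef (1 - 2 * v.rhs) A ρ = 0 := u6 c₀ s₀ (pt A ρ) hleg₀ hv₀ hnv₀
  have hodd : ∀ L : Ineq n, Odd (1 - 2 * L.rhs) := fun L => ⟨-L.rhs, by ring⟩
  -- values of the lines below `s₀` at small extensions of `(A, ρ)`
  have hlow : ∀ s, Tree.Sub s s₀ → (∀ i, |(s.line F).coef i| ≤ B) → ∀ (M : ℕ) R σ,
      Ext (vsF F) (ngF F) q A M A ρ R σ →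
      -((B * M : ℕ) : ℤ) ≤ lv (s.line F).coef (1 - 2 * (s.line F).rhs) R σ := by
    intro s hs hb M R σ h
    have h1 := hsat s hs
    rw [u5, not_le] at h1
    have h2 : 0 < lv (s.line F).coef (1 - 2 * (s.line F).rhs) A ρ := h1
    rw [(t5 _ _ _ _ _ (s.line F).coef (1 - 2 * (s.line F).rhs) h).1]
    have h3 : |∑ i ∈ R \ A, (s.line F).coef i * sg (σ i)| ≤ B * (R \ A).card := sum_sg_le hb σ
    have h4 : (B : ℤ) * ((R \ A).card : ℤ) ≤ B * M := by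
      refine mul_le_mul_of_nonneg_left ?_ (Int.natCast_nonneg B)
      exact_mod_cast h.2.2.1
    have h5 := (abs_le.mp h3).1
    push_cast
    linarith
  rcases hS3 (Fin m) (Fin n) (vsF F) (ngF F) q κ A ρ v.coef (1 - 2 * v.rhs) hE (by omega) hbd
    (hodd v) hlv0 with ⟨R, σ, hext, hall⟩ | ⟨g, M, mm, e, R, σ, hg1, hg3, hMK, hmK, hext, heg,
      hlvR, hclean, hpool⟩
  · -- (N)
    rcases local_step hT1 hT2 hAx hq1 hleg hs₀ hdiv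
      (fun R₁ σ₁ => Ext (vsF F) (ngF F) q A κ R σ R₁ σ₁)
      (fun R₁ σ₁ h => hPt _ _ (t1 _ _ _ _ _ _ _ _ hext h))
      ⟨R, σ, Ext.rfl' hext.2.1 (by have := hext.2.2.1; omega)⟩
      (fun R₁ σ₁ h => u7 c₀ s₀ _ hleg₀ (hall R₁ σ₁ h)) with h | ⟨c₁, s₁, hsub₁, hbd₁, hle, Rq, σq,
        hq, hq0⟩
    · exact h
    · exfalso
      exact hNa (Fin m) (Fin n) (vsF F) (ngF F) q κ A R Rq σ σq _ _ hE (by omega) hext.1
        hext.2.1 hext.2.2.1 hbd₁ (hodd _) (hlow _ hsub₁ hbd₁ K0 R σ hext)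
        (fun R₁ σ₁ h => hle R₁ σ₁ (h.mono (by omega))) hq hq0
  · -- (W)
    have hSle : K1 M mm + K2 M mm + M' M mm + 2 * mm + M ≤ S := by
      have hmem : (M, mm) ∈ range (K0 + 1) ×ˢ range (K0 + 1) := by
        rw [mem_product, Finset.mem_range, Finset.mem_range]
        constructor
        · change M < K0 + 1
          omega
        · change mm < K0 + 1
          omega
      exact single_le_sum (f := fun p : ℕ × ℕ =>
        K1 p.1 p.2 + K2 p.1 p.2 + M' p.1 p.2 + 2 * p.2 + p.1) (fun i _ => Nat.zero_le _) hmem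
    have hMκ : M ≤ κ := by omega
    rcases local_step hT1 hT2 hAx hq1 hleg hs₀ hdiv
      (fun R₁ σ₁ => Ext (vsF F) (ngF F) q A κ R σ R₁ σ₁ ∧ lv v.coef (1 - 2 * v.rhs) R₁ σ₁ ≤ -1)
      (fun R₁ σ₁ h => hPt _ _ (t1 _ _ _ _ _ _ _ _ hext h.1))
      (by
        obtain ⟨R₂, σ₂, h1, -, h2, -⟩ := hAT D mm M 1 0 (Fin m) (Fin n) (vsF F) (ngF F) q κ A R ∅ σ
          v.coef v.coef g g (-1) (T1 M mm + Ta M mm) hE hext.1 hext.2.1 hext.2.2.1 (by simp)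
          (by simp) (by simp only [hTa]; omega) hpool
        refine ⟨R₂, σ₂, h1.mono (by omega), ?_⟩
        rw [h2, hlvR]
        omega)
      (fun R₁ σ₁ h => u7 c₀ s₀ _ hleg₀ h.2) with h | ⟨c₁, s₁, hsub₁, hbd₁, hle, Rq, σq,
        hq, hq0⟩
    · exact h
    set w₁ := (Tree.div c₁ s₁).line F with hw₁
    obtain ⟨he1, τ, R', σ', hτ1, hτ2, hext', hw0, hτd, hpool'⟩ := hE23 mm M (B * M) (3 * B)
      (T2 M mm + Tb M mm) (Fin m) (Fin n) (vsF F) (ngF F) q κ A R Rq σ σq v.coef w₁.coef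
      (1 - 2 * v.rhs) (1 - 2 * w₁.rhs) g e hE (by
        have : E2 mm M (B * M) (3 * B) (T2 M mm + Tb M mm) = K1 M mm := rfl
        omega) hext.1 hext.2.1 hext.2.2.1 hbd hbd₁ (hodd _) (hodd _) (by omega)
        (by exact_mod_cast hg3) (by omega) (by omega) hlvR hclean
        (hpool.sub (by
          have : E3 mm M (B * M) (3 * B) (T2 M mm + Tb M mm) = T1 M mm := rfl
          omega))
        (hlow _ hsub₁ hbd₁ M R σ hext) (fun R₁ σ₁ h h' => hle R₁ σ₁ ⟨h, h'⟩) hq.1 hq.2 hq0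
    have hsubw : Tree.Sub (.div c₁ s₁) t := u2 _ _ _ hsub₁ hs₀
    have hlegw := u3 _ _ hsubw hleg
    have hs₁ : Tree.Sub s₁ s₀ := u2 _ _ _ (Tree.Sub.down c₁ s₁ (Tree.Sub.refl s₁)) hsub₁
    have hs₁t : Tree.Sub s₁ t := u2 _ _ _ hs₁ hs₀
    have hextA : Ext (vsF F) (ngF F) q A (M' M mm) A ρ R' σ' := t1 _ _ _ _ _ _ _ _ hext hext'
    rcases local_step hT1 hT2 hAx hq1 hleg hs₁t hdiv
      (fun R₁ σ₁ => Ext (vsF F) (ngF F) q A κ R' σ' R₁ σ₁ ∧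
        lv w₁.coef (1 - 2 * w₁.rhs) R₁ σ₁ ≤ -1)
      (fun R₁ σ₁ h => hPt _ _ (t1 _ _ _ _ _ _ _ _ hextA h.1))
      (by
        obtain ⟨R₂, σ₂, h1, -, h2, -⟩ := hAT D mm (M' M mm) 1 0 (Fin m) (Fin n) (vsF F) (ngF F) q κ
          A R' ∅ σ' w₁.coef w₁.coef τ τ (-1) (T2 M mm + Tb M mm) hE hextA.1 hextA.2.1 hextA.2.2.1
          (by simp) (by simp) (by simp only [hTb]; omega) hpool'
        refine ⟨R₂, σ₂, h1.mono (by omega), ?_⟩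
        rw [h2, hw0]
        omega)
      (fun R₁ σ₁ h => u7 c₁ s₁ _ hlegw h.2) with h | ⟨c₂, s₂, hsub₂, hbd₂, hle₂, Rq', σq',
        hq', hq0'⟩
    · exact h
    exfalso
    obtain ⟨h0, -⟩ := hE23 mm (M' M mm) (B * M' M mm) (B * mm) 0 (Fin m) (Fin n) (vsF F) (ngF F) q κ
      A R' Rq' σ' σq' w₁.coef ((Tree.div c₂ s₂).line F).coef
      (1 - 2 * w₁.rhs) (1 - 2 * ((Tree.div c₂ s₂).line F).rhs) τ 0 hE (by
        have : E2 mm (M' M mm) (B * M' M mm) (B * mm) 0 = K2 M mm := rfl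
        omega) hextA.1 hextA.2.1 hextA.2.2.1 hbd₁ hbd₂ (hodd _) (hodd _) hτ1
        (by exact_mod_cast hτ2) le_rfl (by omega) (by rw [hw0, neg_zero])
        (fun R₁ σ₁ h => by rw [add_zero]; exact hτd R₁ σ₁ h)
        (hpool'.sub (by
          have : E3 mm (M' M mm) (B * M' M mm) (B * mm) 0 = T2 M mm := rfl
          omega))
        (hlow _ (u2 _ _ _ hsub₂ hs₁) hbd₂ (M' M mm) R' σ' hextA)
        (fun R₁ σ₁ h h' => hle₂ R₁ σ₁ ⟨h, h'⟩) hq'.1 hq'.2 hq0'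
    omega

end Helper3.TL
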