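import Pool.Agent.Helper3.TL.M_EVENT

open Finset
open MP86d903 (Valid Lit inside mem_inside pt flip Clause Ineq clauseIneq vsF ngF)
open Helper80.SR (Exp Closed Cl Sm)

namespace Helper3.TL

/-- The conclusion of START3. -/
def Concl {ι V : Type} [DecidableEq ι] [Fintype ι] [DecidableEq V] [Fintype V]
    (F : ℕ → ℕ → ℕ → ℕ) (B K₀ : ℕ) (vs ng : ι → Finset V) (q κ : ℕ)
    (A : Finset V) (ρ : V → Bool) (a : V → ℤ) (c : ℤ) : Prop :=
    (∃ R σ, Ext vs ng q A K₀ A ρ R σ ∧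
      ∀ R₁ σ₁, Ext vs ng q A κ R σ R₁ σ₁ → lv a c R₁ σ₁ ≤ -1) ∨
    ∃ (g M m e : ℕ) (R : Finset V) (σ : V → Bool), 1 ≤ g ∧ g ≤ 3 * B ∧ M ≤ K₀ ∧ m ≤ K₀ ∧
      Ext vs ng q A M A ρ R σ ∧ e < g ∧ lv a c R σ = -(e : ℤ) ∧
      (∀ R₁ σ₁, Ext vs ng q A κ R σ R₁ σ₁ → (g : ℤ) ∣ lv a c R₁ σ₁ + e) ∧
      Pool vs ng q A (F g M m) m a a g g

theorem Concl.mono {ι V : Type} [DecidableEq ι] [Fintype ι] [DecidableEq V] [Fintype V]
    {F : ℕ → ℕ → ℕ → ℕ} {B K₀ K₁ : ℕ} (hK : K₀ ≤ K₁) {vs ng : ι → Finset V} {q κ : ℕ}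
    {A : Finset V} {ρ : V → Bool} {a : V → ℤ} {c : ℤ} (h : Concl F B K₀ vs ng q κ A ρ a c) :
    Concl F B K₁ vs ng q κ A ρ a c := by
  rcases h with ⟨R, σ, h1, h2⟩ | ⟨g, M, m, e, R, σ, h1, h2, h3, h4, h5⟩
  · exact Or.inl ⟨R, σ, h1.mono hK, h2⟩
  · exact Or.inr ⟨g, M, m, e, R, σ, h1, h2, h3.trans hK, h4.trans hK, h5⟩

/-- The inductive claim. -/
def PG (F : ℕ → ℕ → ℕ → ℕ) (B D g : ℕ) : Prop := ∀ m : ℕ, ∃ T K : ℕ, ∀ (ι V : Type)
    [DecidableEq ι] [Fintype ι] [DecidableEq V] [Fintype V] (vs ng : ι → Finset V) (q κ : ℕ)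
    (A : Finset V) (ρ : V → Bool) (a : V → ℤ) (c : ℤ),
    Env vs q D κ A → K ≤ κ → (∀ i, |a i| ≤ B) → Odd c → lv a c A ρ = 0 →
    ((g : ℤ) = 0 ∨ Pool vs ng q A T m a a g g) → Concl F B K vs ng q κ A ρ a c

theorem pg_step (hC : StClo1) (hM1 : StFam1) (hA2 : StAdj2) (hS1 : StStart1) (hS2 : StStart2)
    (F : ℕ → ℕ → ℕ → ℕ) (B D g : ℕ) (hg3 : g ≤ 3 * B)
    (hsucc : ∀ g', 1 ≤ g' → g' ≤ 3 * B → ((g : ℤ) = 0 ∨ g' < g) → PG F B D g') :
    PG F B D g := by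
  intro m
  set m' := 3 + 3 * B * m with hm'
  have hex : ∀ g', ∃ T K : ℕ, (1 ≤ g' → g' ≤ 3 * B → ((g : ℤ) = 0 ∨ g' < g) → ∀ (ι V : Type)
    [DecidableEq ι] [Fintype ι] [DecidableEq V] [Fintype V] (vs ng : ι → Finset V) (q κ : ℕ)
    (A : Finset V) (ρ : V → Bool) (a : V → ℤ) (c : ℤ),
    Env vs q D κ A → K ≤ κ → (∀ i, |a i| ≤ B) → Odd c → lv a c A ρ = 0 →
    ((g' : ℤ) = 0 ∨ Pool vs ng q A T m' a a g' g') → Concl F B K vs ng q κ A ρ a c) := by
    intro g'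
    by_cases h : 1 ≤ g' ∧ g' ≤ 3 * B ∧ ((g : ℤ) = 0 ∨ g' < g)
    · obtain ⟨T, K, hTK⟩ := hsucc g' h.1 h.2.1 h.2.2 m'
      exact ⟨T, K, fun _ _ _ => hTK⟩
    · exact ⟨0, 0, fun h1 h2 h3 => absurd ⟨h1, h2, h3⟩ h⟩
  choose Tf Kf hTK using hex
  set T' := ∑ i ∈ range (3 * B + 1), Tf i with hT'
  set K' := ∑ i ∈ range (3 * B + 1), Kf i with hK'
  obtain ⟨N, T₁, κ₀, hS1⟩ := hS1 B D m T'
  obtain ⟨T₂, hA2⟩ := hA2 D m (3 * N) (3 * B * N) 0
  set M := 3 * N + 3 * B * N * m with hM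
  refine ⟨T₁ + T₂ + F g M m, κ₀ + K' + M + m + 3 * N + 3, ?_⟩
  intro ι V _ _ _ _ vs ng q κ A ρ a c hE hκ ha hc h0 hP
  classical
  obtain ⟨t1, t2, t3, t4, t5, t6⟩ := hM1 ι V vs ng q D κ A hE
  have hAc : Closed vs q A := hE.closed'
  set Bad := univ.filter (fun i => i ∉ A ∧ ∃ σ₁, Ext vs ng q A 3 A ρ (Cl vs q (insert i A)) σ₁ ∧
      ¬ (g : ℤ) ∣ ∑ j ∈ Cl vs q (insert i A) \ A, a j * sg (σ₁ j)) with hBad
  by_cases hN : N < Bad.card
  · obtain ⟨g', h1, h2, h3, h4⟩ := hS1 ι V vs ng q κ A ρ a g Bad hE (by omega) ha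
      (Int.natCast_nonneg g) (by exact_mod_cast hg3) (by
        intro i hi
        exact (mem_filter.mp hi).2) hN (by
        rcases hP with h | h
        · exact Or.inl h
        · exact Or.inr (h.sub (by omega)))
    obtain ⟨g'', rfl⟩ := Int.eq_ofNat_of_zero_le (by omega : 0 ≤ g')
    have h1' : 1 ≤ g'' := by exact_mod_cast h1
    have h2' : g'' ≤ 3 * B := by exact_mod_cast h2
    have hmem : g'' ∈ range (3 * B + 1) := by
      rw [Finset.mem_range]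
      omega
    have hT'' : Tf g'' ≤ T' := single_le_sum (f := Tf) (fun i _ => Nat.zero_le _) hmem
    have hK'' : Kf g'' ≤ K' := single_le_sum (f := Kf) (fun i _ => Nat.zero_le _) hmem
    refine (hTK g'' h1' h2' (by
      rcases h3 with h | h
      · exact Or.inl h
      · exact Or.inr (by exact_mod_cast h)) ι V vs ng q κ A ρ a c hE (by omega) ha hc h0
      (Or.inr (h4.sub hT''))).mono (by omega)
  · rw [not_lt] at hN
    set C := Cl vs q (A ∪ Bad) with hCdef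
    have hCc : Closed vs q C := Helper80.SR.closed_Cl q _
    have hAC : A ⊆ C := subset_union_left.trans (Helper80.SR.subset_Cl q _)
    have hBC : Bad ⊆ C := subset_union_right.trans (Helper80.SR.subset_Cl q _)
    have hCcard : (C \ A).card ≤ 3 * N := by
      have hAA : (A \ A).card = 0 := by simp
      have h1 := hC ι V vs q D κ A A Bad hE (subset_refl A) (by
        rw [hAA]
        omega)
      rw [hAA] at h1
      rw [hCdef]
      omega
    obtain ⟨σ₁, hσ₁⟩ := t4 (3 * N) A ρ C (subset_refl A) hAc hAC hCc hCcard (by omega)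
    -- the extension with a nonpositive value
    obtain ⟨σ₂, hσ₂, hle, hge⟩ : ∃ σ₂, Ext vs ng q A (3 * N) A ρ C σ₂ ∧ lv a c C σ₂ ≤ 0 ∧
        -((3 * B * N : ℕ) : ℤ) ≤ lv a c C σ₂ := by
      have h5 := t5 _ _ _ _ _ a c hσ₁
      rw [h0] at h5
      have h6 : |∑ i ∈ C \ A, a i * sg (σ₁ i)| ≤ B * (C \ A).card := sum_sg_le ha σ₁
      have h7 : (B : ℤ) * ((C \ A).card : ℤ) ≤ B * (3 * N) := by
        refine mul_le_mul_of_nonneg_left ?_ (Int.natCast_nonneg B)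
        exact_mod_cast hCcard
      have h8 := abs_le.mp (h6.trans h7)
      by_cases hs : ∑ i ∈ C \ A, a i * sg (σ₁ i) ≤ 0
      · refine ⟨σ₁, hσ₁, by rw [h5.1]; omega, ?_⟩
        rw [h5.1]
        push_cast
        linarith [h8.1]
      · refine ⟨flip A σ₁, t2 _ _ _ _ _ hσ₁, by rw [h5.2]; omega, ?_⟩
        rw [h5.2]
        push_cast
        linarith [h8.2]
    have hgood : ∀ R : Finset V, C ⊆ R → ∀ i ∉ R, ∀ σ₁,
        Ext vs ng q A 3 A ρ (Cl vs q (insert i A)) σ₁ →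
        (g : ℤ) ∣ ∑ j ∈ Cl vs q (insert i A) \ A, a j * sg (σ₁ j) := by
      intro R hCR i hi σ₁ h
      by_contra hcon
      exact hi (hCR (hBC (mem_filter.mpr ⟨mem_univ _, fun h' => hi (hCR (hAC h')), σ₁, h, hcon⟩)))
    by_cases hg : g = 0
    · -- constant
      left
      obtain ⟨h1, h2⟩ := hS2 ι V vs ng q D κ A C ρ σ₂ a c g hE (by omega) (hσ₂.mono (by omega)) hc
        (hgood C (subset_refl C))
      refine ⟨C, σ₂, hσ₂.mono (by omega), ?_⟩
      intro R₁ σ₁ h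
      have h3 := h1 R₁ σ₁ h
      rw [hg, Nat.cast_zero, zero_dvd_iff] at h3
      obtain ⟨r, hr⟩ := h2 (by exact_mod_cast hg)
      omega
    · right
      have hP' : Pool vs ng q A (T₁ + T₂ + F g M m) m a a g g := hP.resolve_left (by
        intro h
        exact hg (by exact_mod_cast h))
      set x := -lv a c C σ₂ with hx
      have hx0 : 0 ≤ x := by omega
      have hg1 : 0 < (g : ℤ) := by omega
      have hdm : (g : ℤ) * (x / g) + x % g = x := Int.mul_ediv_add_emod x g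
      have hmod1 : 0 ≤ x % g := Int.emod_nonneg x (by omega)
      have hmod2 : x % g < g := Int.emod_lt_of_pos x hg1
      have ht0 : 0 ≤ x / g := Int.ediv_nonneg hx0 hg1.le
      have ht1 : x / g ≤ ((3 * B * N : ℕ) : ℤ) := by
        have h2 : 1 * (x / g) ≤ g * (x / g) := mul_le_mul_of_nonneg_right (by omega) ht0
        omega
      obtain ⟨R, σ, h1, -, h2, -⟩ := hA2 ι V vs ng q κ A C ∅ σ₂ a a g g (x / g)
        (T₁ + T₂ + F g M m) hE hAC hCc hCcard (by rw [abs_of_nonneg ht0]; exact ht1) (by simp)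
        (by omega) hP'
      have hext : Ext vs ng q A M A ρ R σ := t1 _ _ _ _ _ _ _ _ hσ₂ h1
      have hlv : lv a c R σ = -(x % g) := by
        rw [h2 c]
        have : lv a c C σ₂ = -x := by omega
        rw [this]
        have h7 : x / g * g = g * (x / g) := by ring
        rw [h7]
        omega
      obtain ⟨e, he⟩ := Int.eq_ofNat_of_zero_le hmod1
      obtain ⟨h3, -⟩ := hS2 ι V vs ng q D κ A R ρ σ a c g hE (by omega) (hext.mono (by omega)) hc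
        (hgood R h1.1)
      refine ⟨g, M, m, e, R, σ, by omega, hg3, by omega, by omega, hext, by omega, ?_, ?_,
        hP'.sub (by omega)⟩
      · rw [hlv, he]
      · intro R₁ σ₁ h
        have h4 := h3 R₁ σ₁ h
        rw [hlv, he, sub_neg_eq_add] at h4
        exact h4

theorem hStart3 (hC : StClo1) (hM1 : StFam1) (hA2 : StAdj2) (hS1 : StStart1) (hS2 : StStart2) :
    StStart3 := by
  intro B D F
  have h1 : ∀ g, 1 ≤ g → g ≤ 3 * B → PG F B D g := by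
    intro g
    induction g using Nat.strong_induction_on with
    | _ g ih =>
      intro hg1 hg3
      refine pg_step hC hM1 hA2 hS1 hS2 F B D g hg3 ?_
      intro g' h1 h2 h3
      rcases h3 with h | h
      · omega
      · exact ih g' h h1 h2
  have h0 : PG F B D 0 := pg_step hC hM1 hA2 hS1 hS2 F B D 0 (Nat.zero_le _)
    (fun g' h2 h3 _ => h1 g' h2 h3)
  obtain ⟨T, K, hTK⟩ := h0 0
  refine ⟨K, ?_⟩
  intro ι V _ _ _ _ vs ng q κ A ρ a c hE hκ ha hc hlv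
  exact hTK ι V vs ng q κ A ρ a c hE hκ ha hc hlv (Or.inl rfl)

end Helper3.TL
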