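import Pool.Agent.Helper3.TL.Defs
import Pool.Agent.Helper80.SR.Fam
import Pool.Agent.Helper80.CP.Det

/-!
# Project TL: tree-like cutting planes with bounded rounding coefficients (MP_86d903_lc)

Statements of the modules, with proofs on paper in the docstrings.

GOAL. For all `Δ, B` there is `δ > 0` such that whp every tree-like cutting planes refutation of a
random 3-CNF formula, whose (wide, not light, critical) division steps have conclusions with all
coefficients in `[-B, B]`, has at least `2 ^ (δ n)` division steps.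

SET-UP. `vs c` = the three variables of the clause `c`, `ng c` = the negated ones. `Closed vs q R`
(Helper80.SR): every set `S` of at most `q` clauses, none of them inside `R`, has `|N(S) \ R| > |S|`.
`SClosed`: even `|N(S) \ A| ≥ (3/2) |S|`. A point is a pair `(R, σ)`, `R` closed, `σ` an assignment on `R`;
`pt R σ` is the doubled half-integral point (0, 2 on `R`, 1 outside). `Ext K R σ R' σ'`: `R ⊆ R'` closed,
`|R' \ A| ≤ K`, `σ' = σ` on `R` and every clause inside `R'` and not inside `R` has a true and a false literal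
OUTSIDE `R` (so `(R', flip R σ')` is again an extension). `A` is strongly closed and fixed in all local
modules; outside `A` every variable lies in at most `D` clauses.
A line `a x ≥ b` has the form `lv a c R σ = ∑ a i * pt R σ i + c` with `c = 1 - 2 b` ODD: it is violated iff
`lv ≤ 0`, and if the line is the conclusion of a division and the premise is not violated then `lv = 0`; if
`lv ≤ -1` then the premise is violated too.
-/

open Finset
open MP86d903 (Valid Lit inside mem_inside pt flip Clause Ineq clauseIneq vsF ngF)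
open Helper80.SR (Exp Closed Cl Sm)

namespace Helper3.TL

section
variable {ι V : Type} [DecidableEq ι] [Fintype V] [DecidableEq V] (vs ng : ι → Finset V)

/-- Strongly closed sets. -/
def SClosed (q : ℕ) (A : Finset V) : Prop :=
  ∀ S : Finset ι, S.Nonempty → S.card ≤ q → (∀ c ∈ S, ¬ vs c ⊆ A) →
    3 * S.card ≤ 2 * (S.biUnion vs \ A).card

/-- Every clause inside `R'` and not inside `R` has a true and a false literal outside `R`. -/
def Bal (R R' : Finset V) (σ : V → Bool) : Prop :=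
  ∀ c, vs c ⊆ R' → ¬ vs c ⊆ R → ∃ i ∈ vs c \ R, ∃ j ∈ vs c \ R, Lit ng σ c i ∧ ¬ Lit ng σ c j

/-- `(R', σ')` is a balanced extension of `(R, σ)` with `|R' \ A| ≤ K`. -/
def Ext (q : ℕ) (A : Finset V) (K : ℕ) (R : Finset V) (σ : V → Bool) (R' : Finset V)
    (σ' : V → Bool) : Prop :=
  R ⊆ R' ∧ Closed vs q R' ∧ (R' \ A).card ≤ K ∧ (∀ i ∈ R, σ' i = σ i) ∧ Bal vs ng R R' σ'

/-- The sign of a truth value. -/
def sg (b : Bool) : ℤ := if b then 1 else -1

/-- The affine form `∑ a i x i + c` at the doubled half-integral point `(R, σ)`. -/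
def lv (a : V → ℤ) (c : ℤ) (R : Finset V) (σ : V → Bool) : ℤ := ∑ i, a i * pt R σ i + c

/-- Neighbours outside `A`. -/
noncomputable def nb [Fintype ι] (A X : Finset V) : Finset V :=
  X ∪ ((univ.filter (fun c => ¬ Disjoint (vs c) X)).biUnion vs \ A)

/-- The variables at distance at most `l` from `X` outside `A`. -/
noncomputable def near [Fintype ι] (A : Finset V) (l : ℕ) (X : Finset V) : Finset V :=
  (nb vs A)^[l] X

/-- The standing assumptions on the strongly closed set `A`; the local modules use only sets with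
`|R \ A| ≤ κ`. -/
structure Env [Fintype ι] (q D κ : ℕ) (A : Finset V) : Prop where
  three : ∀ c, (vs c).card = 3
  big : ∃ M₀ R₀, Exp vs R₀ ∧ 2 * (M₀ + 1) ≤ q ∧ 2 * (M₀ + 1) + q ≤ R₀ ∧ A.card + κ ≤ M₀
  closed : SClosed vs q A
  deg : ∀ i ∉ A, (univ.filter (fun c => i ∈ vs c)).card ≤ D

/-- A gadget: a small set `U` outside `A` with `A ∪ U` closed and a balanced assignment `s` on `U`, with the
values `g` of `a` and `g'` of `a'`. -/
def Gadget (q : ℕ) (A : Finset V) (m : ℕ) (a a' : V → ℤ) (g g' : ℤ) (U : Finset V)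
    (s : V → Bool) : Prop :=
  Disjoint U A ∧ U.card ≤ m ∧ Closed vs q (A ∪ U) ∧ Bal vs ng A (A ∪ U) s ∧
    ∑ i ∈ U, a i * sg (s i) = g ∧ ∑ i ∈ U, a' i * sg (s i) = g'

/-- A pool of `T` disjoint gadgets. -/
def Pool (q : ℕ) (A : Finset V) (T m : ℕ) (a a' : V → ℤ) (g g' : ℤ) : Prop :=
  ∃ (U : Fin T → Finset V) (s : Fin T → V → Bool), (∀ i j, i ≠ j → Disjoint (U i) (U j)) ∧
    ∀ i, Gadget vs ng q A m a a' g g' (U i) (s i)

end

/-! ## Closed sets -/

/-- MODULE CLO1. Closures are small. `C := Cl (R ∪ T)`. Proof: let `T' = (R ∪ T) \ A`,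
`k = |A| - |inside A|`. `Helper80.SR.exists_closed_union` (with `Sm vs k A`, from `card_inside_le`) gives a
closed `B ⊇ A ∪ T'` with `|B| ≤ k + |T'| + |inside B|`. With `S = inside B \ inside A` (`|S| ≤ |inside B| ≤ 2 M₀ ≤ q`):
`3 |S| ≤ 2 |N(S) \ A| ≤ 2 |B \ A| ≤ 2 (|T'| + |S|)`, so `|S| ≤ 2 |T'|` and `|B \ A| ≤ 3 |T'|`; `Cl ⊆ B`. -/
def StClo1 : Prop := ∀ (ι V : Type) [DecidableEq ι] [Fintype ι] [DecidableEq V] [Fintype V]
    (vs : ι → Finset V) (q D κ : ℕ) (A R T : Finset V), Env vs q D κ A → A ⊆ R →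
    3 * ((R \ A).card + T.card) ≤ κ →
    (Cl vs q (R ∪ T) \ A).card ≤ 3 * ((R \ A).card + T.card)

/-- MODULE CLO2. Strong closure. Proof: take `Y ⊇ X` of maximal cardinality with `2 |Y| ≤ ψ + 3 e(Y)` and
`19 e(Y) ≤ 10 |Y|` (`e` = number of clauses inside; then `8 |Y| ≤ 19 ψ`). If `S` violates strong closedness,
`Y' = Y ∪ N(S)` has `|Y'| = |Y| + |N(S) \ Y|`, `e(Y') ≥ e(Y) + |S|`, so `Y'` qualifies too
(`Helper80.SR.card_inside_le` for the second condition) and is larger. -/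
def StClo2 : Prop := ∀ (ι V : Type) [DecidableEq ι] [Fintype ι] [DecidableEq V] [Fintype V]
    (vs : ι → Finset V) (q R₀ ψ : ℕ) (X : Finset V), Exp vs R₀ → 2 * ψ + q < R₀ →
    X.card ≤ R₀ → 2 * X.card ≤ ψ + 3 * (inside vs X).card →
    ∃ A, SClosed vs q A ∧ X ⊆ A ∧ 2 * A.card ≤ ψ + 3 * (inside vs A).card ∧ 8 * A.card ≤ 19 * ψ

/-- MODULE FAR1. Number of near variables: every `x ∈ X` lies in at most `D` clauses, each with at most
two other variables; `nb` keeps `X` disjoint from `A`. `near` is monotone in `X` and in `l`. -/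
def StFar1 : Prop := ∀ (ι V : Type) [DecidableEq ι] [Fintype ι] [DecidableEq V] [Fintype V]
    (vs : ι → Finset V) (q D κ : ℕ) (A X : Finset V) (l : ℕ), Env vs q D κ A → Disjoint X A →
    (near vs A l X).card ≤ X.card * (2 * D + 1) ^ l ∧ Disjoint (near vs A l X) A ∧
      X ⊆ near vs A l X ∧ ∀ Y l', X ⊆ Y → l ≤ l' → near vs A l X ⊆ near vs A l' Y

/-- MODULE FAR2. A gadget far from `R` can be added. Proof. Let `X j = near A j (R \ A)` (increasing).
(a) A clause inside `R ∪ U`, neither inside `R` nor inside `A ∪ U`, has a variable in `U` and one in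
`R \ A`, so `U` meets `X 1`. (b) Suppose `R ∪ U` is not closed: there is `S ≠ ∅`, `|S| ≤ q`, no clause of `S` inside
`R ∪ U`, `|N(S) \ (R ∪ U)| ≤ |S|`. By `SClosed`: `3 |S| ≤ 2 |N(S) \ A| ≤ 2 (|S| + |R \ A| + |U|)`, so
`|S| ≤ 2 (M + m)`. Let `S j = {c ∈ S | vs c meets X j}`, increasing, so `S j = S (j+1)` for some `j ≤ 2 (M + m)`.
`S j` does not meet `U` (its variables outside `A` are in `X (j+1)`), and `S \ S j = S \ S (j+1)` does not meet
`X (j+1) ⊇ R \ A`. So `N(S) \ (R ∪ U)` is the disjoint union of `N(S j) \ R` and `N(S \ S j) \ (A ∪ U)`, and as `R` and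
`A ∪ U` are closed it has more than `|S|` elements (one of the two parts of `S` is nonempty). -/
def StFar2 : Prop := ∀ (ι V : Type) [DecidableEq ι] [Fintype ι] [DecidableEq V] [Fintype V]
    (vs : ι → Finset V) (q D κ : ℕ) (A R U : Finset V) (M m : ℕ), Env vs q D κ A → A ⊆ R →
    Closed vs q R → (R \ A).card ≤ M → Disjoint U A → U.card ≤ m → Closed vs q (A ∪ U) →
    Disjoint U (near vs A (2 * (M + m) + 2) (R \ A)) →
    Closed vs q (R ∪ U) ∧ ∀ c, vs c ⊆ R ∪ U → vs c ⊆ R ∨ vs c ⊆ A ∪ U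

/-! ## The family of points -/

/-- MODULE FAM1. (1) transitivity, (2) complement, (3) restriction to a closed subset, (4) existence of
extensions (`Helper80.SR.seymour` as in `Helper80.SR.exists_ext`, which is to be copied with `Bal` as
conclusion; `|inside R' \ inside R| ≤ |inside R'| ≤ q` from `Env.big` as `|R'| ≤ M₀`), (5) values:
`lv R' σ' = lv R σ + ∑_{R' \ R} a i sg (σ' i)`, (6) the complement has the opposite increment,
(7) extensions of valid points are valid. -/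
def StFam1 : Prop := ∀ (ι V : Type) [DecidableEq ι] [Fintype ι] [DecidableEq V] [Fintype V]
    (vs ng : ι → Finset V) (q D κ : ℕ) (A : Finset V), Env vs q D κ A →
    (∀ K K' R σ R₁ σ₁ R₂ σ₂, Ext vs ng q A K R σ R₁ σ₁ → Ext vs ng q A K' R₁ σ₁ R₂ σ₂ →
      Ext vs ng q A K' R σ R₂ σ₂) ∧
    (∀ K R σ R₁ σ₁, Ext vs ng q A K R σ R₁ σ₁ → Ext vs ng q A K R σ R₁ (flip R σ₁)) ∧
    (∀ K K' R σ R₁ σ₁ R₂, Ext vs ng q A K R σ R₁ σ₁ → Closed vs q R₂ → R ⊆ R₂ → R₂ ⊆ R₁ →
      (R₂ \ A).card ≤ K' → Ext vs ng q A K' R σ R₂ σ₁) ∧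
    (∀ K R σ R₁, A ⊆ R → Closed vs q R → R ⊆ R₁ → Closed vs q R₁ → (R₁ \ A).card ≤ K → K ≤ κ →
      ∃ σ₁, Ext vs ng q A K R σ R₁ σ₁) ∧
    (∀ K R σ R₁ σ₁ (a : V → ℤ) (c : ℤ), Ext vs ng q A K R σ R₁ σ₁ →
      lv a c R₁ σ₁ = lv a c R σ + ∑ i ∈ R₁ \ R, a i * sg (σ₁ i) ∧
      lv a c R₁ (flip R σ₁) = lv a c R σ - ∑ i ∈ R₁ \ R, a i * sg (σ₁ i)) ∧
    (∀ K R σ R₁ σ₁, Ext vs ng q A K R σ R₁ σ₁ → Valid vs ng σ R → Valid vs ng σ₁ R₁)

/-- MODULE FAM2. Sums over classes. The class of `i ∉ R` is `Cl (insert i R) \ R`; by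
`Helper80.SR.cl_class` (with `Sm vs M₀ R`, see `Env.big`, `card_inside_le`) the classes are a partition of the
complement of `R`. If `U` is a union of classes and `g` divides the sum of `f` over each class in `U`, it divides
the sum over `U` (`Finset.sum_fiberwise_of_maps_to`, as in the proof of `Helper80.SR.holds_div`). -/
def StFam2 : Prop := ∀ (ι V : Type) [DecidableEq ι] [Fintype ι] [DecidableEq V] [Fintype V]
    (vs : ι → Finset V) (q D κ : ℕ) (A : Finset V), Env vs q D κ A →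
    (∀ R i j, A ⊆ R → Closed vs q R → (R \ A).card ≤ κ → j ∈ Cl vs q (insert i R) → j ∉ R →
      Cl vs q (insert j R) = Cl vs q (insert i R)) ∧
    ∀ (R U : Finset V) (f : V → ℤ) (g : ℤ), A ⊆ R → Closed vs q R → (R \ A).card ≤ κ →
    (∀ i ∈ U, i ∉ R ∧ Cl vs q (insert i R) \ R ⊆ U) →
    (∀ i ∈ U, g ∣ ∑ j ∈ Cl vs q (insert i R) \ R, f j) → g ∣ ∑ j ∈ U, f j

/-- MODULE FAM3. Parity. If on all classes at `R` the values of two functionals `a`, `a'` are `g y`, `g' y` with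
the same integer `y`, then with some `N` (the sum of the `y` of the classes, for one chosen extension of each
class, see FAM1 (4)) `lv a c R σ ≡ 1 + g N` and `lv a' c' R σ ≡ 1 + g' N` modulo 2. Proof:
`lv a c R σ ≡ c + ∑_{i ∉ R} a i` (`MP86d903.sum_pt_eq`), `c` odd, and modulo 2 the sum over a class is
`∑ a i sg (σ₁ i) = g y`. -/
def StFam3 : Prop := ∀ (ι V : Type) [DecidableEq ι] [Fintype ι] [DecidableEq V] [Fintype V]
    (vs ng : ι → Finset V) (q D κ : ℕ) (A R : Finset V) (σ : V → Bool) (K : ℕ)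
    (a a' : V → ℤ) (c c' g g' : ℤ), Env vs q D κ A → A ⊆ R → Closed vs q R →
    3 * ((R \ A).card + 1) ≤ K → K ≤ κ → Odd c → Odd c' →
    (∀ i ∉ R, ∀ σ₁, Ext vs ng q A K R σ (Cl vs q (insert i R)) σ₁ →
      ∃ y : ℤ, ∑ j ∈ Cl vs q (insert i R) \ R, a j * sg (σ₁ j) = g * y ∧
        ∑ j ∈ Cl vs q (insert i R) \ R, a' j * sg (σ₁ j) = g' * y) →
    ∃ N : ℤ, Even (lv a c R σ + 1 + g * N) ∧ Even (lv a' c' R σ + 1 + g' * N)

/-- MODULE FAM4. Classes far from `R` are classes of `A`: if `i ∉ R` is such that the class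
`W = Cl (insert i A) \ A` is disjoint from `near A L (R \ A)`, `L = 2 (M + 3) + 2`, then
`Cl (insert i R) = R ∪ W`, and for every extension `σ₁` of `(R, σ)` to it `(W, σ₁)` is balanced over `A`.
Proof: `|W| ≤ 3` (CLO1 with `R = A`, `T = {i}`), `R ∪ W` is closed (FAR2), so `Cl (insert i R) ⊆ R ∪ W`; and
`Cl (insert i R) ∩ (A ∪ W)` is closed and contains `insert i A`, so it contains `W`. A clause inside
`A ∪ W` and not inside `A` meets `W`, which is disjoint from `R`; so it is not inside `R`. -/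
def StFam4 : Prop := ∀ (ι V : Type) [DecidableEq ι] [Fintype ι] [DecidableEq V] [Fintype V]
    (vs ng : ι → Finset V) (q D κ : ℕ) (A R : Finset V) (σ : V → Bool) (M K : ℕ) (i : V),
    Env vs q D κ A → 3 ≤ κ → A ⊆ R → Closed vs q R → (R \ A).card ≤ M → i ∉ R →
    Disjoint (Cl vs q (insert i A) \ A) (near vs A (2 * (M + 3) + 2) (R \ A)) →
    (Cl vs q (insert i A) \ A).card ≤ 3 ∧ Disjoint (Cl vs q (insert i A) \ A) R ∧
    Cl vs q (insert i R) = R ∪ (Cl vs q (insert i A) \ A) ∧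
    ∀ σ₁, Ext vs ng q A K R σ (Cl vs q (insert i R)) σ₁ →
      Bal vs ng A (Cl vs q (insert i A)) σ₁

/-- MODULE ADJ1. Adding one far set: `σ₂ = σ₁` outside `U`, `s` on `U`; `s' i = !s i` is allowed as well
(`Bal` is symmetric). -/
def StAdj1 : Prop := ∀ (ι V : Type) [DecidableEq ι] [Fintype ι] [DecidableEq V] [Fintype V]
    (vs ng : ι → Finset V) (q D κ : ℕ) (A R₁ U : Finset V) (σ₁ s : V → Bool) (M m : ℕ),
    Env vs q D κ A → A ⊆ R₁ → Closed vs q R₁ → (R₁ \ A).card ≤ M → Disjoint U A → U.card ≤ m →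
    Closed vs q (A ∪ U) → Bal vs ng A (A ∪ U) s →
    Disjoint U (near vs A (2 * (M + m) + 2) (R₁ \ A)) → ∀ b : Bool,
    ∃ σ₂, Ext vs ng q A (M + m) R₁ σ₁ (R₁ ∪ U) σ₂ ∧ ∀ (a : V → ℤ) (c : ℤ),
      lv a c (R₁ ∪ U) σ₂ = lv a c R₁ σ₁ + sg b * ∑ i ∈ U, a i * sg (s i)

/-- MODULE ADJ2. Adjusting by gadgets: with a large pool of gadgets of values `(g, g')` the pair of values
`(lv a, lv a')` can be changed by any multiple `j (g, g')`, `|j| ≤ J`, avoiding a given set `Z`. Proof: induction on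
`J`; the gadgets are disjoint, so fewer than `T` of them meet `Z` or the near set of the current `R₁`
(FAR1); ADJ1. `T = z + (K + J m) (2 D + 1) ^ (2 (K + J m + m) + 2) + 1` works. -/
def StAdj2 : Prop := ∀ D m K J z : ℕ, ∃ T : ℕ, ∀ (ι V : Type) [DecidableEq ι] [Fintype ι]
    [DecidableEq V] [Fintype V] (vs ng : ι → Finset V) (q κ : ℕ) (A R₁ Z : Finset V)
    (σ₁ : V → Bool) (a a' : V → ℤ) (g g' j : ℤ) (T' : ℕ),
    Env vs q D κ A → A ⊆ R₁ → Closed vs q R₁ → (R₁ \ A).card ≤ K → |j| ≤ J → Z.card ≤ z →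
    T ≤ T' → Pool vs ng q A T' m a a' g g' →
    ∃ R₂ σ₂, Ext vs ng q A (K + J * m) R₁ σ₁ R₂ σ₂ ∧ Disjoint (R₂ \ R₁) Z ∧
      (∀ c, lv a c R₂ σ₂ = lv a c R₁ σ₁ + j * g) ∧ ∀ c, lv a' c R₂ σ₂ = lv a' c R₁ σ₁ + j * g'

/-- MODULE POOL. Pigeonhole: the values of `a'` on the gadgets are in `[-B m, B m]`. -/
def StPool : Prop := ∀ B m T' : ℕ, ∃ T : ℕ, ∀ (ι V : Type) [DecidableEq ι] [Fintype ι]
    [DecidableEq V] [Fintype V] (vs ng : ι → Finset V) (q : ℕ) (A : Finset V)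
    (a a₀ a' : V → ℤ) (g g₀ : ℤ), (∀ i, |a' i| ≤ B) → Pool vs ng q A T m a a₀ g g₀ →
    ∃ g' : ℤ, |g'| ≤ B * m ∧ Pool vs ng q A T' m a a' g g'

/-- MODULE TIGHT. Let `d` be a functional with `lv d ≥ -C` at `(R, σ)` and `lv d ≤ μ` at all extensions with
`|R₁ \ A| ≤ K₁`. If `lv d ≥ μ` at SOME extension `(Rq, σq)` (any size `≤ κ`) then there is a small extension
`(R₀, σ₀)` of `(R, σ)` such that `lv d = μ` at ALL extensions of `(R₀, σ₀)`.
Proof. Call `i ∉ R` bad if for some extension `σ₁` of `(R, σ)` to `Cl (insert i R)` the sum of `d j sg (σ₁ j)` over the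
class `Cl (insert i R) \ R` is not 0.
(1) The number of bad `i` is at most `N₁`: with `P = H + C + 1` build `(R_t, σ_t)`, `t ≤ P`, extending `(R, σ)` with
`|R_t \ A| ≤ M + 3 t`, `lv d (R_t) ≥ -C + t`: if there are more than `N₁` bad `i`, one of them has its `A`-class
`W = Cl (insert i A) \ A` disjoint from the near set (of radius `2 (M + 3 P + 3) + 2`) of `R_t \ A` (`W` meets it in `j` only
if `i` is in the `A`-class of `j` (FAM2 (1)), and `A`-classes have at most 3 elements, so at most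
`N₁ = 3 (M + 3 P) (2 D + 1) ^ (2 (M + 3 P + 3) + 2)` values of `i` are excluded), so FAM4 (for `R`) and ADJ1 (for `R_t`,
with the sign that increases `lv d`) give `R_{t+1} = R_t ∪ W`. At `t = P` this contradicts `lv d ≤ μ ≤ H`.
(2) `C' = Cl (R ∪ Bad)` has `|C' \ A| ≤ 3 (M + N₁) =: K₀` (CLO1). `R₀ = Rq ∩ C'`, `σ₀ = σq` (FAM1 (3),
`Helper80.SR.Closed.inter`). `lv d (R₀) = lv d (Rq)`: `U = Rq \ R₀` is a union of classes at `R` (if `i ∈ Rq`, `i ∉ C'`, its
class is inside `Rq`, and disjoint from `C'` by FAM2 (1)), none of its elements is bad, so all the sums over the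
classes are 0 (FAM1 (3)), so the sum over `U` is 0 (FAM2 with `g = 0`); use FAM1 (5) for `R₀` and for `Rq`, both over
`R`. So `lv d (R₀) = μ` (it is `≥ μ`, and `≤ μ` since `K₀ ≤ K₁`).
(3) For `i ∉ R₀` and an extension `σ₁` of `(R₀, σ₀)` to `Cl (insert i R₀)` (size `≤ 3 (K₀ + 1) ≤ K₁`): it and its
complement extend `(R, σ)` (FAM1 (1), (2)), so both increments are `≤ 0`: they are 0. For an extension `(R₂, σ₂)` of
`(R₀, σ₀)` FAM1 (3), (5) and FAM2 with `g = 0`, `U = R₂ \ R₀` give `lv d (R₂) = μ`. -/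
def StTight : Prop := ∀ B D M C H : ℕ, ∃ K₀ K₁ : ℕ, ∀ (ι V : Type)
    [DecidableEq ι] [Fintype ι] [DecidableEq V] [Fintype V] (vs ng : ι → Finset V) (q κ : ℕ)
    (A R Rq : Finset V) (σ σq : V → Bool) (d : V → ℤ) (d₀ μ : ℤ),
    Env vs q D κ A → K₁ ≤ κ → A ⊆ R → Closed vs q R → (R \ A).card ≤ M → (∀ i, |d i| ≤ B) →
    |μ| ≤ H → -(C : ℤ) ≤ lv d d₀ R σ →
    (∀ R₁ σ₁, Ext vs ng q A K₁ R σ R₁ σ₁ → lv d d₀ R₁ σ₁ ≤ μ) →
    Ext vs ng q A κ R σ Rq σq → μ ≤ lv d d₀ Rq σq →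
    ∃ R₀ σ₀, Ext vs ng q A K₀ R σ R₀ σ₀ ∧
      ∀ K' R₂ σ₂, K' ≤ κ → Ext vs ng q A K' R₀ σ₀ R₂ σ₂ → lv d d₀ R₂ σ₂ = μ

/-- MODULE NARR. The event lemma for narrow lines. `lv w ≤ 0` at all extensions of size `≤ K` and `= 0` at
some extension: impossible. Proof: TIGHT with `d = w`, `μ = 0`: `lv w = 0` at all extensions of `(R₀, σ₀)`,
so all class sums are 0 at `R₀`, and FAM3 with `g = g' = 0` says that `lv w (R₀)` is odd. -/
def StNarr : Prop := ∀ B D M C : ℕ, ∃ K : ℕ, ∀ (ι V : Type)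
    [DecidableEq ι] [Fintype ι] [DecidableEq V] [Fintype V] (vs ng : ι → Finset V) (q κ : ℕ)
    (A R Rq : Finset V) (σ σq : V → Bool) (w : V → ℤ) (c : ℤ),
    Env vs q D κ A → K ≤ κ → A ⊆ R → Closed vs q R → (R \ A).card ≤ M → (∀ i, |w i| ≤ B) →
    Odd c → -(C : ℤ) ≤ lv w c R σ →
    (∀ R₁ σ₁, Ext vs ng q A K R σ R₁ σ₁ → lv w c R₁ σ₁ ≤ 0) →
    Ext vs ng q A κ R σ Rq σq → lv w c Rq σq ≠ 0

/-- MODULE EVENT. `v = (a, c)` has only values `≡ -e` modulo `g` at the extensions of `(R, σ)`, with `0 ≤ e < g` and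
`lv v (R) = -e`; `w = (w, cw)` is `≤ 0` where `v ≤ -1`, and critical (`= 0`) at `(Rq, σq)` with `v ≤ -1`. Then `e ≥ 1`, and there
is a small extension `(R', σ')` with `lv w = 0` and all values of `w` at its extensions are multiples of `τ ≥ 1`, the
value of `w` on a large pool.
Proof. POOL: a pool of `T₁` gadgets with values `(g, τ)`, `|τ| ≤ B m`. Let `e' = e` if `e ≥ 1` and `e' = g` if `e = 0`.
(1) `τ ≥ 0`: else ADJ2 with `j = -(C + 1)` at `(R, σ)`: `lv v = -e - (C+1) g ≤ -1`, `lv w ≥ -C + (C+1) |τ| ≥ 1`.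
(2) `D := g w - τ v` (form `d = g w - τ a`, `d₀ = g cw - τ c`). For every extension `(R₁, σ₁)` of size `≤ K₁`:
`D ≤ τ e'`. For `lv v (R₁) ≡ -e'` modulo `g`; ADJ2 with `j = (-e' - lv v (R₁)) / g` (`|j| ≤ 2 G + B K₁`, FAM1 (5)) gives
`(R₂, σ₂)` with `lv v = -e' ≤ -1`, so `lv w ≤ 0`; `D` is unchanged, `D = g lv w + τ e' ≤ τ e'`.
(3) at `(Rq, σq)`: `D = -τ lv v ≥ τ e'` since `lv v ≤ -1` and `≡ -e'` modulo `g`, so `lv v ≤ -e'`.
(4) TIGHT with `d = g w - τ a` (`|d i| ≤ G B + B m B`, `D (R) ≥ -G C`, `|μ| ≤ B m G`), `μ = τ e'`: `(R₀, σ₀)` of size `≤ K₀` with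
`D = τ e'` at all its extensions.
(5) ADJ2 at `(R₀, σ₀)` (`|j| ≤ 2 G + B K₀`): `(R', σ')` with `lv v = -e'`, so `g lv w = D + τ lv v = 0`: `lv w = 0`. At every
extension of `(R', σ')`: `D = τ e'`, `lv v = -e' + g t`, so `lv w = τ t`: a multiple of `τ`. `M' = K₀ + (2 G + B K₀) m`.
(6) FAM3 at `(R', σ')` with the functionals `a`, `w`: class sums are `g y`, `τ y` (from `D` constant and the
divisibility of `lv v`). So there is `N` with `lv v = -e' ≡ 1 + g N`, `lv w = 0 ≡ 1 + τ N` modulo 2. So `τ` and `N` are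
odd (in particular `τ ≥ 1`), `e' ≡ 1 + g`, so `e' ≠ g`, `e ≥ 1`.
(7) the pool for `w`: the first coordinates of the conclusion are dropped. -/
def StEvent : Prop := ∀ B D m M C G : ℕ, ∃ M' : ℕ, ∀ T' : ℕ, ∃ K T : ℕ, ∀ (ι V : Type)
    [DecidableEq ι] [Fintype ι] [DecidableEq V] [Fintype V] (vs ng : ι → Finset V) (q κ : ℕ)
    (A R Rq : Finset V) (σ σq : V → Bool) (a w : V → ℤ) (c cw g e : ℤ),
    Env vs q D κ A → K ≤ κ → A ⊆ R → Closed vs q R → (R \ A).card ≤ M → (∀ i, |a i| ≤ B) →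
    (∀ i, |w i| ≤ B) → Odd c → Odd cw → 1 ≤ g → g ≤ G → 0 ≤ e → e < g → lv a c R σ = -e →
    (∀ R₁ σ₁, Ext vs ng q A κ R σ R₁ σ₁ → g ∣ lv a c R₁ σ₁ + e) →
    Pool vs ng q A T m a a g g → -(C : ℤ) ≤ lv w cw R σ →
    (∀ R₁ σ₁, Ext vs ng q A κ R σ R₁ σ₁ → lv a c R₁ σ₁ ≤ -1 → lv w cw R₁ σ₁ ≤ 0) →
    Ext vs ng q A κ R σ Rq σq → lv a c Rq σq ≤ -1 → lv w cw Rq σq = 0 →
    1 ≤ e ∧ ∃ (τ : ℤ) (R' : Finset V) (σ' : V → Bool), 1 ≤ τ ∧ τ ≤ B * m ∧
      Ext vs ng q A M' R σ R' σ' ∧ lv w cw R' σ' = 0 ∧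
      (∀ R₂ σ₂, Ext vs ng q A κ R' σ' R₂ σ₂ → τ ∣ lv w cw R₂ σ₂) ∧ Pool vs ng q A T' m w w τ τ

/-- MODULE START1. The classes at `A` on which `a` takes a value not divisible by `g`. `Bad` = set of all `i ∉ A`
such that some extension `σ₁` of `(A, ρ)` to `Cl (insert i A)` has a class sum not divisible by `g`. If there are more
than `N` of them and (for `g ≥ 1`) a large pool of value `g`, then there is a pool of `T'` gadgets of some value
`g'` with `1 ≤ g' < g` (for `g = 0`: `1 ≤ g' ≤ 3 B`), of size `≤ m' = 3 + 3 B m`.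
Proof. The class `W` of a bad `i` has at most 3 elements (CLO1), with `s = σ₁` it is a gadget of value
`x`, `|x| ≤ 3 B`, `g ∤ x`. `g = 0`: replace `s` by its complement if `x < 0`; the classes are disjoint or equal (FAM2
(1)); pigeonhole. `g ≥ 1`: `x = g t + x'` with `0 < x' < g`, `|t| ≤ 3 B`; ADJ2 at `(A ∪ W, s)` with `j = -t` gives
`(R₂, σ₂)`, and `U = R₂ \ A` with `σ₂` is a gadget of value `x'`. Build `3 B T'` of them one after another, avoiding
(`Z` in ADJ2, and the choice of `i`: at most `3 |Z|` bad `i` are excluded) the union `Z` of the previous ones; then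
pigeonhole on `x'`. -/
def StStart1 : Prop := ∀ B D m T' : ℕ, ∃ N T κ₀ : ℕ, ∀ (ι V : Type)
    [DecidableEq ι] [Fintype ι] [DecidableEq V] [Fintype V] (vs ng : ι → Finset V) (q κ : ℕ)
    (A : Finset V) (ρ : V → Bool) (a : V → ℤ) (g : ℤ) (Bad : Finset V),
    Env vs q D κ A → κ₀ ≤ κ → (∀ i, |a i| ≤ B) → 0 ≤ g → g ≤ 3 * B →
    (∀ i ∈ Bad, i ∉ A ∧ ∃ σ₁, Ext vs ng q A 3 A ρ (Cl vs q (insert i A)) σ₁ ∧
      ¬ g ∣ ∑ j ∈ Cl vs q (insert i A) \ A, a j * sg (σ₁ j)) →
    N < Bad.card → (g = 0 ∨ Pool vs ng q A T m a a g g) →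
    ∃ g' : ℤ, 1 ≤ g' ∧ g' ≤ 3 * B ∧ (g = 0 ∨ g' < g) ∧
      Pool vs ng q A T' (3 + 3 * B * m) a a g' g'

/-- MODULE START2. If all `i ∉ A` which are bad for `g` (see START1) lie in `R`, then the values of `v` at the
extensions of an extension `(R, σ)` of `(A, ρ)` agree modulo `g` (`g = 0`: are equal). Proof: `R₁ \ R` is a union of
classes at `A` (if `i ∈ R₁ \ R`, its `A`-class is inside `R₁`, and disjoint from `R` by FAM2 (1)), `(Cl (insert i A), σ₁)` is
an extension of `(A, ρ)` (a clause inside `Cl (insert i A)` and not inside `A` is inside `R₁` and not inside `R`, so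
balanced outside `R`, with the two variables in the class), so the class sums are divisible by `g`;
FAM2 at `A` with `U = R₁ \ R`. For `g = 0` moreover `lv a c R σ` is odd: all class sums at `A` of `i ∉ R` are 0, so even
without the signs, FAM2 with `g = 2`, `U = Rᶜ`, and `lv ≡ c + ∑_{i ∉ R} a i`. -/
def StStart2 : Prop := ∀ (ι V : Type) [DecidableEq ι] [Fintype ι] [DecidableEq V] [Fintype V]
    (vs ng : ι → Finset V) (q D κ : ℕ) (A R : Finset V) (ρ σ : V → Bool) (a : V → ℤ) (c g : ℤ),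
    Env vs q D κ A → 3 ≤ κ → Ext vs ng q A κ A ρ R σ → Odd c →
    (∀ i ∉ R, ∀ σ₁, Ext vs ng q A 3 A ρ (Cl vs q (insert i A)) σ₁ →
      g ∣ ∑ j ∈ Cl vs q (insert i A) \ A, a j * sg (σ₁ j)) →
    (∀ R₁ σ₁, Ext vs ng q A κ R σ R₁ σ₁ → g ∣ lv a c R₁ σ₁ - lv a c R σ) ∧
    (g = 0 → Odd (lv a c R σ))

/-- MODULE START3. The start: `v` is critical at `(A, ρ)`. Either (N) `v ≤ -1` at all extensions of some small
extension, or (W) as in EVENT, with a pool as large as one likes.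
Proof. Claim P(g), `g = 3B, .., 1, 0` by strong induction on `g` (for `g = 0` all `1 ≤ g' ≤ 3 B` have to be done
before; so do `g ≥ 1` first): for all `m` there are `T_g`, `K_g` such that a pool of `T_g` gadgets of value `g` and
size `m` implies the conclusion with `K₀ = K_g`. Let `T' ≥ T_{g'}(3 + 3 B m)` for all `1 ≤ g' < g` (resp. `≤ 3 B`), and `N`
from START1. If there are more than `N` bad `i`: START1 and P(g'). Otherwise `C = Cl (A ∪ Bad)`,
`|C \ A| ≤ 3 N` (CLO1); FAM1 (4), (5), (2) give `σ` with `lv v (C) ≤ 0`. `g = 0`: START2: constant and odd at all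
extensions, so `≤ -1`: (N). `g ≥ 1`: `0 ≥ lv v (C) ≥ -3 B N`; ADJ2 (from a pool of `T_g ≥ F g M m` gadgets, `M = 3 N + 3 B N m`)
with `0 ≤ j ≤ 3 B N` gives `(R, σ)` with `lv v = -e`, `0 ≤ e < g`, and START2 gives the divisibility. -/
def StStart3 : Prop := ∀ (B D : ℕ) (F : ℕ → ℕ → ℕ → ℕ), ∃ K₀ : ℕ, ∀ (ι V : Type)
    [DecidableEq ι] [Fintype ι] [DecidableEq V] [Fintype V] (vs ng : ι → Finset V) (q κ : ℕ)
    (A : Finset V) (ρ : V → Bool) (a : V → ℤ) (c : ℤ),
    Env vs q D κ A → K₀ ≤ κ → (∀ i, |a i| ≤ B) → Odd c → lv a c A ρ = 0 →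
    (∃ R σ, Ext vs ng q A K₀ A ρ R σ ∧
      ∀ R₁ σ₁, Ext vs ng q A κ R σ R₁ σ₁ → lv a c R₁ σ₁ ≤ -1) ∨
    ∃ (g M m e : ℕ) (R : Finset V) (σ : V → Bool), 1 ≤ g ∧ g ≤ 3 * B ∧ M ≤ K₀ ∧ m ≤ K₀ ∧
      Ext vs ng q A M A ρ R σ ∧ e < g ∧ lv a c R σ = -(e : ℤ) ∧
      (∀ R₁ σ₁, Ext vs ng q A κ R σ R₁ σ₁ → (g : ℤ) ∣ lv a c R₁ σ₁ + e) ∧
      Pool vs ng q A (F g M m) m a a g g

/-! ## Trees -/

section
variable {n m : ℕ}

/-- The inequality `L` is violated at the doubled point `y`. -/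
def Viol (L : Ineq n) (y : Fin n → ℤ) : Prop := ∑ v, L.coef v * y v < 2 * L.rhs

/-- The axioms hold at the doubled point `y`. -/
def AxOK (F : Fin m → Clause n) (y : Fin n → ℤ) : Prop :=
  (∀ k, ¬ Viol (clauseIneq (F k)) y) ∧ (∀ v, 0 ≤ y v ∧ y v ≤ 2)

/-- The value of a line at a point: `≤ 0` iff violated. -/
def lvL (L : Ineq n) (y : Fin n → ℤ) : ℤ := ∑ v, L.coef v * y v + (1 - 2 * L.rhs)

end

/-- MODULE TREE1. Event or branching: go up from the root of `t` as long as all points of `X` violate. At a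
combination a point violating the conclusion violates one of the premises. (`Sub` for nested subtrees needs
transitivity of `Sub`.) -/
def StTree1 : Prop := ∀ (n m : ℕ) (F : Fin m → Clause n) (t : Tree n m) (X : Set (Fin n → ℤ)),
    X.Nonempty → (∀ y ∈ X, AxOK F y) → (∀ y ∈ X, Viol (t.line F) y) →
    (∃ α β s₁ s₂, Tree.Sub (.comb α β s₁ s₂) t ∧ (∃ y ∈ X, Viol (s₁.line F) y) ∧
      ∃ y ∈ X, Viol (s₂.line F) y) ∨
    ∃ c s, Tree.Sub (.div c s) t ∧ (∀ y ∈ X, Viol ((Tree.div c s).line F) y) ∧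
      ∃ y ∈ X, ¬ Viol (s.line F) y

/-- MODULE TREE2. (1) A highest violated line is a division. (2) transitivity of `Sub`. (3) legality and the number
of divisions for subtrees. (4) the values at a division: violated iff `lvL ≤ 0`; if the conclusion of a
legal division is violated and the premise is not then `lvL = 0`; if `lvL ≤ -1` then the premise is violated.
(`y` integral.) -/
def StTree2 : Prop := ∀ (n m : ℕ) (F : Fin m → Clause n),
    (∀ (t : Tree n m) (y : Fin n → ℤ), AxOK F y → Viol (t.line F) y →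
      ∃ c s, Tree.Sub (.div c s) t ∧ Viol ((Tree.div c s).line F) y ∧
        ∀ s', Tree.Sub s' s → ¬ Viol (s'.line F) y) ∧
    (∀ r s t : Tree n m, Tree.Sub r s → Tree.Sub s t → Tree.Sub r t) ∧
    (∀ s t : Tree n m, Tree.Sub s t → t.Legal F → s.Legal F) ∧
    (∀ s t : Tree n m, Tree.Sub s t → s.divs ≤ t.divs) ∧
    (∀ (L : Ineq n) (y : Fin n → ℤ), Viol L y ↔ lvL L y ≤ 0) ∧
    (∀ (c : ℕ) (s : Tree n m) (y : Fin n → ℤ), (Tree.div c s).Legal F →
      Viol ((Tree.div c s).line F) y → ¬ Viol (s.line F) y → lvL ((Tree.div c s).line F) y = 0) ∧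
    ∀ (c : ℕ) (s : Tree n m) (y : Fin n → ℤ), (Tree.div c s).Legal F →
      lvL ((Tree.div c s).line F) y ≤ -1 → Viol (s.line F) y

/-- MODULE AX. The axioms hold at valid closed points (see `Helper80.SR.holds_clause`, `holds_lower`,
`holds_upper`). -/
def StAx : Prop := ∀ (n m : ℕ) (F : Fin m → Clause n) (q : ℕ) (R : Finset (Fin n))
    (σ : Fin n → Bool), 1 ≤ q → Closed (vsF F) q R → Valid (vsF F) (ngF F) σ R → AxOK F (pt R σ)

/-- The points over `(A, ρ)`. -/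
def Pt {n m : ℕ} (F : Fin m → Clause n) (q κ : ℕ) (A : Finset (Fin n)) (ρ : Fin n → Bool)
    (R : Finset (Fin n)) (σ : Fin n → Bool) : Prop :=
  A ⊆ R ∧ Closed (vsF F) q R ∧ (R \ A).card ≤ κ ∧ Valid (vsF F) (ngF F) σ R ∧ ∀ i ∈ A, σ i = ρ i

/-- MODULE LOCAL. The local theorem: in the subtree of a line violated by `(A, ρ)` there are two disjoint
subtrees with lines violated at points over `(A, ρ)`, or a narrow division violated at such a point.
Proof. TREE2 (1) at `y = pt A ρ`: a division `v = div c₀ s₀`, violated at `(A, ρ)`, all lines of `s₀` are satisfied at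
`(A, ρ)`; so `lvL = 0` (TREE2 (6)); if `v` is narrow we are done, never critical is excluded, so it is bounded. START3
with `F g M m` = the `T` of EVENT for `(B, D, m, M, C = B M, G = 3 B)` and `T' = T₂`, where `K₂, T₂` = the `K, T` of EVENT for
`(B, D, m, M', C' = B M', G' = B m)` and `T' = 0`. `κ` = maximum of all the finitely many constants (`M, m ≤ K₀`).
(N): TREE1 for `s₀` with `X` = all `pt R₁ σ₁`, `Ext κ R σ R₁ σ₁` (the premise is violated at `X` by TREE2 (7), the axioms hold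
by AX and FAM1 (7)): branching, or a division `w` all of `X` violates, with a point of `X` satisfying its premise, so
`lvL w = 0` there: `w` is narrow (done), or never critical (excluded), or bounded: contradiction to NARR, with
`lv w (R) ≥ 1 - B |R \ A|` because `w` is satisfied at `(A, ρ)`.
(W): TREE1 for `s₀` with `X` = all `pt R₁ σ₁`, `Ext κ R σ R₁ σ₁`, `lv v ≤ -1` (nonempty by ADJ2 with `j = -1`); `w` as before; EVENT:
`(R', σ')`, `τ`. Again TREE1, for the premise of `w`, `X'` = all `pt R₁ σ₁`, `Ext κ R' σ' R₁ σ₁`, `lv w ≤ -1` (nonempty by ADJ2 with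
`j = -1`); the new division `w'` is narrow, or never critical, or bounded, and then EVENT with `e = 0` is a
contradiction. -/
def StLocal : Prop := ∀ B D : ℕ, ∃ κ : ℕ, ∀ (n m : ℕ) (F : Fin m → Clause n) (q w : ℕ)
    (A : Finset (Fin n)) (ρ : Fin n → Bool) (t : Tree n m),
    Env (vsF F) q D κ A → Valid (vsF F) (ngF F) ρ A → t.Legal F →
    Viol (t.line F) (pt A ρ) →
    (∀ c s, Tree.Sub (.div c s) t →
      (univ.filter (fun v => ((Tree.div c s).line F).coef v ≠ 0)).card ≤ w ∨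
      (∀ v, |((Tree.div c s).line F).coef v| ≤ B) ∨
      (∀ R σ, Pt F q κ A ρ R σ → ¬ Viol (s.line F) (pt R σ) →
        ¬ Viol ((Tree.div c s).line F) (pt R σ))) →
    (∃ α β s₁ s₂, Tree.Sub (.comb α β s₁ s₂) t ∧
      (∃ R σ, Pt F q κ A ρ R σ ∧ Viol (s₁.line F) (pt R σ)) ∧
      ∃ R σ, Pt F q κ A ρ R σ ∧ Viol (s₂.line F) (pt R σ)) ∨
    ∃ c s, Tree.Sub (.div c s) t ∧
      (univ.filter (fun v => ((Tree.div c s).line F).coef v ≠ 0)).card ≤ w ∧
      ∃ R σ, Pt F q κ A ρ R σ ∧ Viol ((Tree.div c s).line F) (pt R σ)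

/-- MODULE RESET. If the conclusion of a legal division has at most `w` variables and is violated at a closed
valid point `(R, σ)` of rank at most `k`, `A₀ ⊆ R`, `σ = ρ₀` on `A₀`, then the premise is violated at a closed valid point
`(R', σ')` with `Sm (l + w)`, `A₀ ⊆ R'`, `σ' = ρ₀` on `A₀` (`l` = rank of `A₀`). This is the contraposition of
`Helper80.SR.holds_narrow`. -/
def StReset : Prop := ∀ (n m : ℕ) (F : Fin m → Clause n) (q R₀ M w k l : ℕ)
    (A₀ : Finset (Fin n)) (ρ₀ : Fin n → Bool) (c : ℕ) (s : Tree n m) (R : Finset (Fin n))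
    (σ : Fin n → Bool),
    Exp (vsF F) R₀ → 2 * M ≤ q → 2 * (M + 1) + q ≤ R₀ → Closed (vsF F) q A₀ →
    Sm (vsF F) l A₀ → k + w ≤ M → l ≤ k → (Tree.div c s).Legal F →
    (univ.filter (fun v => ((Tree.div c s).line F).coef v ≠ 0)).card ≤ w →
    A₀ ⊆ R → Closed (vsF F) q R → Sm (vsF F) k R → Valid (vsF F) (ngF F) σ R →
    (∀ i ∈ A₀, σ i = ρ₀ i) → Viol ((Tree.div c s).line F) (pt R σ) →
    ∃ R' σ', A₀ ⊆ R' ∧ Closed (vsF F) q R' ∧ Sm (vsF F) (l + w) R' ∧
      Valid (vsF F) (ngF F) σ' R' ∧ (∀ i ∈ A₀, σ' i = ρ₀ i) ∧ Viol (s.line F) (pt R' σ')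

/-- MODULE IND. The global induction. `A₀`, `ρ₀`: the root; `Hd`: the variables of degree more than `D`; `κ` from
LOCAL. A state of level `k` is a strongly closed `A ⊇ A₀ ∪ Hd` with a valid `ρ`, `ρ = ρ₀` on `A₀`, and
`2 |A| ≤ P + 2 κ (kmax - k) + 3 e(A)`. Claim: if a legal tree `t` (whose divisions are narrow, bounded or never
critical) has a line violated at a state of level `k ≤ kmax` then `2 ^ k ≤ divs t`. Induction on `t` (size) and `k`:
LOCAL; branching: strong closures (CLO2) of the two points, with the extension of the assignment which keeps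
the line violated (`Helper80.SR.exists_ext`; `σ` or its complement, `pt_add_pt_flip`), level `k - 1`; narrow: RESET,
then strong closure of `R' ∪ Hd`, with `|R'| ≤ (19/9)(l + w)`, level `kmax ≥ k`, for the subtree `s`, which has fewer
nodes. `k = 0`: there is a division (TREE2 (1)). The conclusion is for the root line `0 ≥ 1`, violated everywhere. -/
def StInd : Prop := ∀ B D : ℕ, ∃ κ : ℕ, ∀ (n m : ℕ) (F : Fin m → Clause n)
    (q R₀ M₀ P w l kmax : ℕ) (A₀ Hd : Finset (Fin n)) (ρ₀ : Fin n → Bool) (t : Tree n m),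
    Exp (vsF F) R₀ → 2 * (M₀ + 1) ≤ q → 2 * (M₀ + 1) + q ≤ R₀ →
    3 * (P + 2 * κ * kmax) + w + κ ≤ M₀ → 2 * (3 * (l + w) + Hd.card) ≤ P →
    2 * (P + 2 * κ * kmax) + q < R₀ →
    Closed (vsF F) q A₀ → Sm (vsF F) l A₀ → Valid (vsF F) (ngF F) ρ₀ A₀ →
    (∀ i ∉ Hd, (univ.filter (fun c => i ∈ vsF F c)).card ≤ D) →
    t.Legal F → t.line F = ⟨fun _ => 0, 1⟩ →
    (∀ c s, Tree.Sub (.div c s) t →
      (univ.filter (fun v => ((Tree.div c s).line F).coef v ≠ 0)).card ≤ w ∨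
      (∀ v, |((Tree.div c s).line F).coef v| ≤ B) ∨
      (∀ R σ, A₀ ⊆ R → Closed (vsF F) q R → R.card ≤ M₀ → Valid (vsF F) (ngF F) σ R →
        (∀ i ∈ A₀, σ i = ρ₀ i) → ¬ Viol (s.line F) (pt R σ) →
        ¬ Viol ((Tree.div c s).line F) (pt R σ))) →
    2 ^ kmax ≤ t.divs

end Helper3.TL
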